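import Pool.Agent.H.MP_e23cd6_ag.SG.S.Crit2
import Pool.Agent.H.MP_e23cd6_ag.SG.BPb
import Pool.Agent.H.MP_e23cd6_ag.SG.AN

/-! Block M, (7.6): eigenforms of many weights from one stable point. -/

set_option autoImplicit false

open Matrix Topology Set Filter

namespace Pool.Agent.SG

variable {n : ℕ}

/-- Vectors `r (c + e_j) - m₀` and the constants span everything. -/
theorem forms_span {u : Fin n → Fin n → ℝ} {r : ℝ} (hr : r ≠ 0) {w : Fin n → ℝ}
    (hu : ∀ j i, u j i = w i + (if i = j then r else 0)) :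
    Submodule.span ℝ (Set.range u ∪ {fun _ => (1 : ℝ)}) = ⊤ := by
  rcases Nat.eq_zero_or_pos n with rfl | hn
  · rw [eq_top_iff]
    intro x _
    have : x = 0 := Subsingleton.elim _ _
    rw [this]
    exact Submodule.zero_mem _
  obtain ⟨W, hW⟩ : ∃ W, W = Submodule.span ℝ (Set.range u ∪ {fun _ => (1 : ℝ)}) := ⟨_, rfl⟩
  rw [← hW]
  have h1 : (fun _ => (1 : ℝ)) ∈ W := by
    rw [hW]
    exact Submodule.subset_span (Or.inr rfl)
  have h2 : ∀ j, u j ∈ W := fun j => by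
    rw [hW]
    exact Submodule.subset_span (Or.inl ⟨j, rfl⟩)
  have h3 : ∀ j, Pi.single j (1 : ℝ) ∈ W := by
    intro j
    have h4 : Pi.single j (1 : ℝ) = (n : ℝ)⁻¹ • (∑ k, r⁻¹ • (u j - u k) +
        (fun _ => (1 : ℝ)) : Fin n → ℝ) := by
      funext i
      have hn0 : (n : ℝ) ≠ 0 := by exact_mod_cast hn.ne'
      have e1 : ∀ k, (r⁻¹ • (u j - u k)) i = (if i = j then 1 else 0) - (if i = k then 1 else 0) := by
        intro k
        rw [Pi.smul_apply, Pi.sub_apply, hu, hu, smul_eq_mul]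
        split_ifs <;> field_simp <;> ring
      rw [Pi.smul_apply, Pi.add_apply, Finset.sum_apply, Finset.sum_congr rfl fun k _ => e1 k,
        Finset.sum_sub_distrib, Finset.sum_const, Finset.card_univ, Fintype.card_fin,
        Finset.sum_ite_eq, if_pos (Finset.mem_univ i), smul_eq_mul, nsmul_eq_mul, Pi.single_apply]
      split_ifs
      · field_simp
        ring
      · ring
    rw [h4]
    refine W.smul_mem _ (W.add_mem (W.sum_mem fun k _ => ?_) h1)
    exact W.smul_mem _ (W.sub_mem (h2 j) (h2 k))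
  rw [eq_top_iff]
  intro x _
  have h5 : x = ∑ j, x j • (Pi.single j (1 : ℝ) : Fin n → ℝ) := by
    funext i
    rw [Finset.sum_apply, Finset.sum_eq_single i]
    · rw [Pi.smul_apply, Pi.single_eq_same, smul_eq_mul, mul_one]
    · intro j _ hj
      rw [Pi.smul_apply, Pi.single_eq_of_ne hj.symm, smul_zero]
    · intro h
      exact absurd (Finset.mem_univ i) h
  rw [h5]
  exact W.sum_mem fun j _ => W.smul_mem _ (h3 j)

variable {X : Type} [TopologicalSpace X] [CompactSpace X] (S : GSys n X)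

/-- From a lower bound of the level function to one of `Jf`. -/
theorem forms_jf {b : ℕ} {χ : Fin n → ℤ} {y : X} {C : ℝ}
    (h : ∀ g, C ≤ S.lev 0 1 (fun i => (χ i : ℝ) / (S.c 0 b * (b + 1))) y g) :
    ∃ C' : ℝ, ∀ g, C' ≤ Jf (S.D 0 b).R (fun i => (χ i : ℝ)) ((S.D 0 b).v y) g := by
  obtain ⟨C₂, hC₂⟩ := S.cmp 0 b
  have hc : (0 : ℝ) < S.c 0 b := by exact_mod_cast S.c_pos 0 b
  have hb : (0 : ℝ) < b + 1 := by positivity
  refine ⟨S.c 0 b * (b + 1) * C - S.c 0 b * C₂ + Real.log (ns ((S.D 0 b).v y)) / 2, fun g => ?_⟩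
  have h1 := (abs_le.1 (hC₂ g y)).1
  have h2 := h g
  have h3 : Jf (S.D 0 b).R (fun i => (χ i : ℝ)) ((S.D 0 b).v y) g =
      (S.D 0 b).lg g y + Real.log (ns ((S.D 0 b).v y)) / 2 + ∑ i, (χ i : ℝ) * hw g i := by
    unfold Jf PDat.lg
    ring
  have h4 : S.c 0 b * (b + 1) * S.lev 0 1 (fun i => (χ i : ℝ) / (S.c 0 b * (b + 1))) y g =
      S.c 0 b * ((b + 1) * S.fP g y) + ∑ i, (χ i : ℝ) * hw g i := by
    unfold GSys.lev
    rw [mul_add, Finset.mul_sum]
    congr 1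
    · ring
    · refine Finset.sum_congr rfl fun i _ => ?_
      field_simp
  have h5 : S.fP g y = (S.D 0 0).lg g y / S.c 0 0 := rfl
  rw [← h5, Nat.cast_zero, zero_mul, zero_add] at h1
  have h6 := mul_le_mul_of_nonneg_left h1 hc.le
  have h7 : (S.c 0 b : ℝ) * ((S.D 0 b).lg g y / S.c 0 b - (b + 1) * S.fP g y) =
      (S.D 0 b).lg g y - S.c 0 b * ((b + 1) * S.fP g y) := by
    field_simp
  have h8 := mul_le_mul_of_nonneg_left h2 (mul_pos hc hb).le
  rw [h4] at h8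
  rw [h7] at h6
  rw [h3]
  linarith

/-- (7.6) -/
theorem GSys.exists_forms {y : X} {θ : Fin n → ℝ} (hθ : StrictAnti θ) (h : S.Stb 0 1 θ y) :
    ∃ (b N : ℕ) (χ : Fin n → Fin n → ℤ) (p : Fin n → MvPolynomial (S.D 0 b).ι ℂ), 1 ≤ N ∧
      (∀ j, p j ∈ BPoly (S.D 0 b).R N (χ j)) ∧
      (∀ j, MvPolynomial.eval ((S.D 0 b).v y) (p j) ≠ 0) ∧
      ∀ m₀ : Fin n → ℝ, Submodule.span ℝ
        (Set.range (fun j => fun i => (χ j i : ℝ) - m₀ i) ∪ {fun _ => (1 : ℝ)}) = ⊤ := by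
  have h' : S.Stb ((0 : ℕ) : ℝ) (((0 : ℕ) : ℝ) + 1) θ y := by
    rw [Nat.cast_zero, zero_add]
    exact h
  obtain ⟨O, hO, δ, η, C, hδ, hη, hg⟩ := S.growth 0 0 hθ h'
  rw [Nat.cast_zero, zero_add] at hg
  obtain ⟨η', hη', hsa⟩ := strictAnti_near hθ
  have hm : 0 < min η η' := lt_min hη hη'
  obtain ⟨b, hb⟩ := exists_nat_gt (1 / min η η')
  obtain ⟨B, hB⟩ : ∃ B : ℝ, B = S.c 0 b * (b + 1) := ⟨_, rfl⟩
  have hc1 : (1 : ℝ) ≤ S.c 0 b := by exact_mod_cast S.c_pos 0 b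
  have hBb : (b : ℝ) < B := by
    rw [hB]
    have : (0 : ℝ) ≤ b := Nat.cast_nonneg b
    nlinarith
  have hB0 : 0 < B := lt_of_le_of_lt (Nat.cast_nonneg b) hBb
  have hBη : 1 / B ≤ min η η' := by
    rw [div_le_iff₀ hB0]
    rw [div_lt_iff₀ hm] at hb
    nlinarith
  obtain ⟨χ, hχ⟩ : ∃ χ : Fin n → Fin n → ℤ, ∀ j i, χ j i = ⌊B * θ i⌋ + (if i = j then 1 else 0) :=
    ⟨_, fun _ _ => rfl⟩
  have hnear : ∀ j i, |(χ j i : ℝ) / B - θ i| ≤ min η η' := by
    intro j i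
    have e : (χ j i : ℝ) / B - θ i = ((χ j i : ℝ) - B * θ i) / B := by field_simp
    rw [e, abs_div, abs_of_pos hB0]
    refine le_trans ?_ hBη
    refine div_le_div_of_nonneg_right ?_ hB0.le
    have h1 := Int.floor_le (B * θ i)
    have h2 := Int.lt_floor_add_one (B * θ i)
    rw [hχ, abs_le]
    push_cast
    split_ifs <;> constructor <;> linarith
  have hanti : ∀ j, Antitone (χ j) := by
    intro j
    have h1 := hsa (fun i => (χ j i : ℝ) / B) fun i => (hnear j i).trans (min_le_right _ _)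
    intro i i' hii
    rcases hii.eq_or_lt with rfl | hlt
    · exact le_rfl
    · have h2 := (div_lt_div_iff_of_pos_right hB0).1 (h1 hlt)
      exact_mod_cast h2.le
  have hJ : ∀ j, ∃ c : ℝ, ∀ g, c ≤ Jf (S.D 0 b).R (fun i => (χ j i : ℝ)) ((S.D 0 b).v y) g := by
    intro j
    refine forms_jf S (C := -C) fun g => ?_
    have h1 := hg y (mem_of_mem_nhds hO) (fun i => (χ j i : ℝ) / B)
      (fun i => (hnear j i).trans (min_le_left _ _)) g
    have h2 := mul_nonneg hδ.le (sz_nonneg g)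
    rw [← hB]
    linarith
  choose c hc using hJ
  have hinv := fun j => exists_inv (S.D 0 b).R (hanti j) ((S.D 0 b).ne y) (c j) (hc j)
  choose N hN p hp hp0 using hinv
  have hprod : ∀ j, (∏ k ∈ Finset.univ.erase j, N k) * N j = ∏ k, N k := fun j => by
    rw [mul_comm]
    exact Finset.mul_prod_erase Finset.univ N (Finset.mem_univ j)
  have hpos : 1 ≤ ∏ k, N k := Nat.succ_le_of_lt (Finset.prod_pos fun k _ => hN k)
  refine ⟨b, ∏ k, N k, fun j i => (∏ k, N k : ℕ) * χ j i,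
    fun j => p j ^ (∏ k ∈ Finset.univ.erase j, N k), hpos, fun j => ?_, fun j => ?_, fun m₀ => ?_⟩
  · have h1 := BPoly_pow (S.D 0 b).R (hp j) (∏ k ∈ Finset.univ.erase j, N k)
    rw [hprod j] at h1
    have e : (fun i => ((∏ k ∈ Finset.univ.erase j, N k : ℕ) : ℤ) * ((N j : ℤ) * χ j i)) =
        fun i => ((∏ k, N k : ℕ) : ℤ) * χ j i := by
      funext i
      rw [← mul_assoc, ← Nat.cast_mul, hprod j]
    rw [e] at h1
    exact h1
  · rw [map_pow]
    exact pow_ne_zero _ (hp0 j)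
  · refine forms_span (r := ((∏ k, N k : ℕ) : ℝ)) (by
      have : (0 : ℝ) < ((∏ k, N k : ℕ) : ℝ) := by exact_mod_cast hpos
      exact this.ne') (w := fun i => ((∏ k, N k : ℕ) : ℝ) * ⌊B * θ i⌋ - m₀ i) fun j i => ?_
    show (((∏ k, N k : ℕ) * χ j i : ℤ) : ℝ) - m₀ i = _
    rw [hχ]
    generalize (∏ k, N k) = Q
    push_cast
    split_ifs <;> ring

end Pool.Agent.SG
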