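import Pool.Agent.H.MP_e23cd6_ag.SG.M.J2

/-!
# Block M: Hermitian matrices near a diagonal matrix with the same pattern of multiplicities (continued)
-/

set_option autoImplicit false

open Matrix Topology Filter

namespace Pool.Agent.SG

variable {n : ℕ}

theorem mJ3_min (f : Fin n → ℝ) (h : ∀ i, 0 < f i) : ∃ δ > 0, ∀ i, δ ≤ f i := by
  rcases isEmpty_or_nonempty (Fin n) with hn | hn
  · exact ⟨1, one_pos, fun i => hn.elim i⟩
  · obtain ⟨i0, h0⟩ := Finite.exists_min f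
    exact ⟨f i0, h i0, h0⟩

theorem mJ3_left (θ : Fin n → ℝ) {i₀ a : Fin n} (h : θ a = θ i₀) (M : Mx n) (b : Fin n) :
    (blk θ i₀ * M) a b = M a b := by
  unfold blk
  rw [Matrix.diagonal_mul, if_pos h, one_mul]

theorem mJ3_right (θ : Fin n → ℝ) {i₀ b : Fin n} (h : θ b = θ i₀) (M : Mx n) (a : Fin n) :
    (M * blk θ i₀) a b = M a b := by
  unfold blk
  rw [Matrix.mul_diagonal, if_pos h, mul_one]

theorem mJ3_idem (θ : Fin n → ℝ) (i₀ : Fin n) : blk θ i₀ * blk θ i₀ = blk θ i₀ := by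
  unfold blk
  rw [Matrix.diagonal_mul_diagonal]
  congr 1
  funext i
  split_ifs <;> simp

theorem mJ3_D (θ : Fin n → ℝ) (i₀ : Fin n) :
    blk θ i₀ * dgr θ = (θ i₀ : ℂ) • blk θ i₀ := by
  unfold blk dgr
  rw [Matrix.diagonal_mul_diagonal, ← Matrix.diagonal_smul]
  congr 1
  funext i
  simp only [Pi.smul_apply, smul_eq_mul]
  split_ifs with h
  · rw [h, one_mul, mul_one]
  · rw [zero_mul, mul_zero]

theorem mJ3_small (θ : Fin n → ℝ) (i₀ : Fin n) (P : Mx n) {e : ℝ} (hP : l1 (P - blk θ i₀) ≤ e) :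
    l1 ((1 - P) * blk θ i₀) ≤ e * n := by
  have h1 : (1 - P) * blk θ i₀ = (-1 : ℂ) • ((P - blk θ i₀) * blk θ i₀) := by
    rw [sub_mul, sub_mul, mJ3_idem, one_mul, neg_smul, one_smul, neg_sub]
  rw [h1, l1_smul, norm_neg, norm_one, one_mul]
  exact (l1_mul _ _).trans (mul_le_mul hP (l1_blk θ i₀) (l1_nonneg _)
    ((l1_nonneg _).trans hP))

theorem mJ3_key (θ : Fin n → ℝ) (i₀ : Fin n) (A P : Mx n) (κ : ℂ) {e : ℝ}
    (hP : l1 (P - blk θ i₀) ≤ e) (hA : (A - κ • 1) * P = 0) {j : Fin n} (hj : θ j = θ i₀) :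
    ‖A j j - κ‖ ≤ n ^ 2 * e * (l1 (A - dgr θ) + ‖(θ i₀ : ℂ) - κ‖) := by
  have h1 : blk θ i₀ * (A - κ • 1) * blk θ i₀ = blk θ i₀ * (A - dgr θ) * ((1 - P) * blk θ i₀) +
      ((θ i₀ : ℂ) - κ) • (blk θ i₀ * ((1 - P) * blk θ i₀)) := by
    have h2 : blk θ i₀ * (A - κ • 1) * blk θ i₀ =
        blk θ i₀ * (A - κ • 1) * ((1 - P) * blk θ i₀) := by
      have h3 : blk θ i₀ * (A - κ • 1) * ((1 - P) * blk θ i₀) =
          blk θ i₀ * (A - κ • 1) * blk θ i₀ - blk θ i₀ * ((A - κ • 1) * P) * blk θ i₀ := by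
        noncomm_ring
      rw [h3, hA, mul_zero, zero_mul, sub_zero]
    have h4 : blk θ i₀ * (A - κ • 1) = blk θ i₀ * (A - dgr θ) + ((θ i₀ : ℂ) - κ) • blk θ i₀ := by
      rw [mul_sub, mul_sub, mJ3_D, sub_smul, mul_smul_comm, mul_one]
      abel
    rw [h2, h4, add_mul, smul_mul_assoc]
  have h5 : (blk θ i₀ * (A - κ • 1) * blk θ i₀) j j = A j j - κ := by
    rw [mJ3_right θ hj, mJ3_left θ hj, Matrix.sub_apply, Matrix.smul_apply, Matrix.one_apply_eq,
      smul_eq_mul, mul_one]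
  have h6 := mJ3_small θ i₀ P hP
  have h7 := l1_blk θ i₀
  have he : 0 ≤ e := (l1_nonneg _).trans hP
  have hn : (0 : ℝ) ≤ n := Nat.cast_nonneg n
  have h8 : l1 (blk θ i₀ * (A - dgr θ) * ((1 - P) * blk θ i₀)) ≤
      n * l1 (A - dgr θ) * (e * n) := by
    refine (l1_mul _ _).trans (mul_le_mul ((l1_mul _ _).trans ?_) h6 (l1_nonneg _)
      (mul_nonneg hn (l1_nonneg _)))
    exact mul_le_mul_of_nonneg_right h7 (l1_nonneg _)
  have h9 : l1 (((θ i₀ : ℂ) - κ) • (blk θ i₀ * ((1 - P) * blk θ i₀))) ≤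
      ‖(θ i₀ : ℂ) - κ‖ * (n * (e * n)) := by
    rw [l1_smul]
    refine mul_le_mul_of_nonneg_left ((l1_mul _ _).trans ?_) (norm_nonneg _)
    exact mul_le_mul h7 h6 (l1_nonneg _) hn
  calc ‖A j j - κ‖ = ‖(blk θ i₀ * (A - κ • 1) * blk θ i₀) j j‖ := by rw [h5]
    _ ≤ l1 (blk θ i₀ * (A - κ • 1) * blk θ i₀) := l1_entry _ _ _
    _ ≤ n * l1 (A - dgr θ) * (e * n) + ‖(θ i₀ : ℂ) - κ‖ * (n * (e * n)) := by
      rw [h1]
      exact (l1_add _ _).trans (add_le_add h8 h9)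
    _ = n ^ 2 * e * (l1 (A - dgr θ) + ‖(θ i₀ : ℂ) - κ‖) := by ring

/-- Matrices near `dgr θ` with the pattern of `θ`: the differences of the diagonal entries in a
block are of the second order. Proof: let `E = blk θ i`, `κ = evs A i`, `q = θ i`,
`A - κ = (A - D) + (D - κ)`, `D = dgr θ`. By `specProj` (with a small `ε'`), since
`(A - κ) * P = 0`, `E * (A - κ) * E = E * (A - κ) * (1 - P) * E
= E * (A - D) * (1 - P) * E + (q - κ) • E * (1 - P) * E`, and `l1 ((1 - P) * E) ≤ n ε'`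
(as `(1 - P) * E = (E - P) * E`). So all entries of `E * (A - κ) * E` are at most
`C ε' (l1 (A - D) + |q - κ|)`. Taking the entry `(i, i)`: `|q - κ| ≤ l1 (A - D) +
C ε' (l1 (A - D) + |q - κ|)`, so `|q - κ| ≤ 3 l1 (A - D)` if `C ε' ≤ 1 / 2`. -/
theorem diag_diff {θ : Fin n → ℝ} (hθ : Antitone θ) {ε : ℝ} (hε : 0 < ε) :
    ∃ δ > 0, ∀ A : Mx n, A.IsHermitian → SamePat (evs A) θ → l1 (A - dgr θ) ≤ δ →
      ∀ i j, θ i = θ j → ‖A i i - A j j‖ ≤ ε * l1 (A - dgr θ) := by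
  have hn : (0 : ℝ) ≤ (n : ℝ) ^ 2 := by positivity
  obtain ⟨e, he, he1, he2⟩ : ∃ e : ℝ, 0 < e ∧ (n : ℝ) ^ 2 * e ≤ 1 / 2 ∧ 8 * ((n : ℝ) ^ 2 * e) ≤ ε := by
    refine ⟨min (1 / 2) (ε / 8) / ((n : ℝ) ^ 2 + 1), by positivity, ?_, ?_⟩
    · have h1 : (n : ℝ) ^ 2 * (min (1 / 2) (ε / 8) / ((n : ℝ) ^ 2 + 1)) ≤ min (1 / 2) (ε / 8) := by
        rw [← mul_div_assoc, div_le_iff₀ (by positivity)]
        have h2 : 0 < min (1 / 2) (ε / 8) := by positivity
        nlinarith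
      exact h1.trans (min_le_left _ _)
    · have h1 : (n : ℝ) ^ 2 * (min (1 / 2) (ε / 8) / ((n : ℝ) ^ 2 + 1)) ≤ min (1 / 2) (ε / 8) := by
        rw [← mul_div_assoc, div_le_iff₀ (by positivity)]
        have h2 : 0 < min (1 / 2) (ε / 8) := by positivity
        nlinarith
      have h2 := h1.trans (min_le_right _ _)
      linarith
  choose f hf hf2 using fun i₀ => specProj hθ i₀ he
  obtain ⟨δ, hδ, hδ2⟩ := mJ3_min f hf
  refine ⟨δ, hδ, fun A hA hp hl i j hij => ?_⟩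
  obtain ⟨P, hP1, hP2, -, -⟩ := hf2 i A hA hp (hl.trans (hδ2 i))
  set κ : ℂ := (evs A i : ℂ) with hκ
  have k1 := mJ3_key θ i A P κ hP1 hP2 rfl
  have k2 := mJ3_key θ i A P κ hP1 hP2 hij.symm
  have hΔ := l1_nonneg (A - dgr θ)
  set Δ := l1 (A - dgr θ) with hΔd
  have k3 : ‖(θ i : ℂ) - κ‖ ≤ Δ + ‖A i i - κ‖ := by
    have h1 : (θ i : ℂ) - κ = -((A - dgr θ) i i) + (A i i - κ) := by
      rw [Matrix.sub_apply]
      unfold dgr
      rw [Matrix.diagonal_apply_eq]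
      ring
    rw [h1]
    refine (norm_add_le _ _).trans ?_
    rw [norm_neg]
    have := l1_entry (A - dgr θ) i i
    linarith
  set c := (n : ℝ) ^ 2 * e with hc
  have hc0 : 0 ≤ c := by positivity
  have hq := norm_nonneg ((θ i : ℂ) - κ)
  have k4 : ‖(θ i : ℂ) - κ‖ ≤ 3 * Δ := by nlinarith
  have k5 : c * (Δ + ‖(θ i : ℂ) - κ‖) ≤ ε / 2 * Δ := by
    have h1 : c * (Δ + ‖(θ i : ℂ) - κ‖) ≤ c * (4 * Δ) :=
      mul_le_mul_of_nonneg_left (by linarith) hc0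
    nlinarith
  have h1 : A i i - A j j = (A i i - κ) - (A j j - κ) := by ring
  rw [h1]
  refine (norm_sub_le _ _).trans ?_
  linarith

/-- A block diagonal matrix near `dgr θ` with the pattern of `θ` is diagonal. Proof: `A` commutes
with `E = blk θ i₀` (`comm_blk`), so `P` commutes with `E`; `R = E - P * E` is idempotent
and small, so `R = 0` (`idem_small`) and `(A - κ) * E = (A - κ) * P * E = 0`. So the column `j` of
`A` is `κ e_j` for all `j` with `θ j = θ i₀`, and `κ = evs A j` by `SamePat`. -/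
theorem diag_of_block {θ : Fin n → ℝ} (hθ : Antitone θ) :
    ∃ δ > 0, ∀ A : Mx n, A.IsHermitian → SamePat (evs A) θ → l1 (A - dgr θ) ≤ δ →
      (∀ i j, θ i ≠ θ j → A i j = 0) → A = dgr (evs A) := by
  choose f hf hf2 using fun i₀ => specProj hθ i₀
    (by positivity : (0 : ℝ) < 1 / 2 / ((n : ℝ) + 1))
  obtain ⟨δ, hδ, hδ2⟩ := mJ3_min f hf
  refine ⟨δ, hδ, fun A hA hp hl hz => ?_⟩
  have key : ∀ a b, A a b - (evs A b : ℂ) * (1 : Mx n) a b = 0 := by
    intro a b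
    obtain ⟨P, hP1, hP2, hP3, hP4⟩ := hf2 b A hA hp (hl.trans (hδ2 b))
    have hc := hP4 _ (comm_blk hz b)
    have hE := mJ3_idem θ b
    have hR : (1 - P) * blk θ b = 0 := by
      refine idem_small ?_ ?_
      · have h1 : (1 - P) * blk θ b * ((1 - P) * blk θ b) =
            blk θ b * blk θ b - blk θ b * P * blk θ b - P * (blk θ b * blk θ b) +
              P * (blk θ b * P) * blk θ b := by noncomm_ring
        rw [h1, ← hc, hE, mul_assoc P (blk θ b) (blk θ b), hE, ← mul_assoc P P, hP3,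
          mul_assoc P (blk θ b) (blk θ b), hE]
        noncomm_ring
      · refine (mJ3_small θ b P hP1).trans_lt ?_
        have hn : (0 : ℝ) ≤ n := Nat.cast_nonneg n
        rw [div_mul_eq_mul_div, div_lt_one (by positivity)]
        linarith
    have h2 : (A - (evs A b : ℂ) • 1) * blk θ b = 0 := by
      have h3 : (A - (evs A b : ℂ) • 1) * blk θ b =
          (A - (evs A b : ℂ) • 1) * P * blk θ b +
            (A - (evs A b : ℂ) • 1) * ((1 - P) * blk θ b) := by noncomm_ring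
      rw [h3, hP2, hR, zero_mul, mul_zero, add_zero]
    have h4 := mJ3_right θ (i₀ := b) (b := b) rfl (A - (evs A b : ℂ) • 1) a
    rw [h2] at h4
    rw [Matrix.sub_apply, Matrix.smul_apply, smul_eq_mul] at h4
    exact h4.symm
  ext a b
  have h5 := sub_eq_zero.1 (key a b)
  rw [h5]
  unfold dgr
  by_cases hab : a = b
  · subst hab
    rw [Matrix.one_apply_eq, Matrix.diagonal_apply_eq, mul_one]
  · rw [Matrix.one_apply_ne hab, Matrix.diagonal_apply_ne _ hab, mul_zero]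

end Pool.Agent.SG
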