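import Pool.Agent.H.MP_e23cd6_ag.SG.M.G3
import Pool.Agent.H.MP_e23cd6_ag.SG.M.J3

/-!
# Block M: (7.3) equal eigenvalues of the moment map give one-parameter groups fixing the point
-/

set_option autoImplicit false

open Matrix Topology Filter

namespace Pool.Agent.SG

variable {n : ℕ}

/-- The element `e_i - e_j`. -/
def dif (i j : Fin n) : aa n :=
  ⟨fun k => (if k = i then 1 else 0) - (if k = j then 1 else 0), by
    show ∑ k, (((if k = i then (1 : ℝ) else 0)) - (if k = j then 1 else 0)) = 0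
    rw [Finset.sum_sub_distrib]
    simp⟩

theorem dif_ne {i j : Fin n} (hij : i ≠ j) : dif i j ≠ 0 := by
  intro h
  have h1 := congrFun (congrArg Subtype.val h) i
  have h2 : ((dif i j : aa n) : Fin n → ℝ) i = 1 := by
    show ((if i = i then (1 : ℝ) else 0)) - (if i = j then 1 else 0) = 1
    rw [if_pos rfl, if_neg hij, sub_zero]
  have h3 : ((0 : aa n) : Fin n → ℝ) i = 0 := rfl
  rw [h2, h3] at h1
  exact one_ne_zero h1

theorem sum_dif (i j : Fin n) (f : Fin n → ℂ) :
    ∑ k, ((dif i j).1 k : ℂ) * f k = f i - f j := by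
  have e : ∀ k, ((dif i j).1 k : ℂ) * f k =
      (if k = i then f k else 0) - (if k = j then f k else 0) := by
    intro k
    show ((((if k = i then (1 : ℝ) else 0)) - (if k = j then 1 else 0) : ℝ) : ℂ) * f k =
      (if k = i then f k else 0) - (if k = j then f k else 0)
    split_ifs <;> push_cast <;> ring
  rw [Finset.sum_congr rfl fun k _ => e k, Finset.sum_sub_distrib]
  simp

/-- (7.3) Proof: let `H = e_i - e_j` (in `aa n`), `v = D.v y` and
`A s = -mom D.R (D.R.act (dg H s) v) = -mom D.R (D.v (act (dg H s) y))` (`PDat.mom_act`). By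
`mom_diff` there is a constant with `l1 (A s - dgr θ) ≤ C |s|` for small `s`; by `diag_diff` (and
`hpat`, continuity of the action) for every `ε` we have
`‖A s i i - A s j j‖ ≤ ε l1 (A s - dgr θ) ≤ ε C |s|` for small `s`. So
`∑ i, H_i (mom (..)) i i` has the derivative `0` at `0`, and by `hasDeriv_tr_mom` (the mean value
`∑ ‖v a‖² λ_a(H)` is zero by `tr_diag_mom`, as `θ i = θ j`) the sum
`∑ ‖v a‖² λ_a(H)²` is zero. Hence `D.R.act (dg H z) v = v` (`act_dg`), and
`fix_of_line` gives the claim. -/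
theorem fixed_of_pattern {X : Type} [TopologicalSpace X] {act : Gp n → X → X}
    (one : ∀ y, act 1 y = y) (cont : Continuous fun w : Gp n × X => act w.1 w.2)
    (D : PDat n X act) (hsep : ∀ y y', (∃ z : ℂ, D.v y' = z • D.v y) → y = y')
    {θ : Fin n → ℝ} (hθ : Antitone θ) {y : X} (hm : mom D.R (D.v y) = -dgr θ)
    (hpat : ∀ᶠ y' in 𝓝 y, SamePat (evs (-mom D.R (D.v y'))) θ) {i j : Fin n} (hij : i ≠ j)
    (h : θ i = θ j) : ∃ H : aa n, H ≠ 0 ∧ ∀ z : ℂ, act (dg H z) y = y := by
  set H : aa n := dif i j with hH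
  set v : D.ι → ℂ := D.v y with hv
  have hv0 : v ≠ 0 := D.ne y
  have hns : 0 < ns v := lt_of_le_of_ne (ns_nonneg v) fun e => hv0 (ns_eq_zero.1 e.symm)
  -- the curve of moment maps
  let A : ℝ → Mx n := fun s => -mom D.R (D.R.act (dg H s) v)
  have hA0 : A 0 = dgr θ := by
    show -mom D.R (D.R.act (dg H ((0 : ℝ) : ℂ)) v) = dgr θ
    rw [Complex.ofReal_zero, dg_zero, D.R.act_one, hm, neg_neg]
  have hAH : ∀ s, (A s).IsHermitian := fun s => (mom_HT D.R _).1.neg
  have hAd : ∀ a b, DifferentiableAt ℝ (fun s : ℝ => A s a b) 0 := fun a b =>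
    (mom_diff D.R H hv0 a b).neg
  -- the pattern near `0`
  have hdg : Continuous fun s : ℝ => dg H (s : ℂ) := by
    apply continuous_induced_rng.2
    show Continuous fun s : ℝ => Matrix.diagonal fun k => Complex.exp (s * H.1 k)
    refine Continuous.matrix_diagonal (continuous_pi fun k => ?_)
    exact Complex.continuous_exp.comp (Complex.continuous_ofReal.mul continuous_const)
  have hcurve : Tendsto (fun s : ℝ => act (dg H (s : ℂ)) y) (𝓝 0) (𝓝 y) := by
    have h1 : Continuous fun s : ℝ => act (dg H (s : ℂ)) y :=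
      cont.comp (hdg.prodMk continuous_const)
    have h2 := h1.tendsto 0
    simp only [Complex.ofReal_zero, dg_zero, one] at h2
    exact h2
  have hpat' : ∀ᶠ s : ℝ in 𝓝 0, SamePat (evs (A s)) θ := by
    filter_upwards [hcurve.eventually hpat] with s hs
    show SamePat (evs (-mom D.R (D.R.act (dg H s) v))) θ
    rw [← D.mom_act]
    exact hs
  -- `l1 (A s - dgr θ) = O(s)`
  have hO1 : ∀ a b, (fun s : ℝ => ‖(A s - dgr θ) a b‖) =O[𝓝 0] fun s : ℝ => s := by
    intro a b
    have h1 := (hAd a b).isBigO_sub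
    have h2 : (fun s : ℝ => (A s - dgr θ) a b) =O[𝓝 0] fun s : ℝ => s :=
      h1.congr (fun s => by rw [hA0]; rfl) (fun s => sub_zero s)
    exact h2.norm_left
  have hO : (fun s : ℝ => l1 (A s - dgr θ)) =O[𝓝 0] fun s : ℝ => s := by
    have h2 : ∀ a, (fun s : ℝ => ∑ b, ‖(A s - dgr θ) a b‖) =O[𝓝 0] fun s : ℝ => s := fun a =>
      (Asymptotics.IsBigO.sum (s := Finset.univ) fun b _ => hO1 a b).congr_left fun s => by
        rw [Finset.sum_apply]
    have h3 : (fun s : ℝ => ∑ a, ∑ b, ‖(A s - dgr θ) a b‖) =O[𝓝 0] fun s : ℝ => s :=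
      (Asymptotics.IsBigO.sum (s := Finset.univ) fun a _ => h2 a).congr_left fun s => by
        rw [Finset.sum_apply]
    exact h3
  have hl0 : Tendsto (fun s : ℝ => l1 (A s - dgr θ)) (𝓝 0) (𝓝 0) :=
    hO.trans_tendsto tendsto_id
  -- `f s = o(s)`
  have ho : (fun s : ℝ => A s i i - A s j j) =o[𝓝 0] fun s : ℝ => s := by
    have h1 : (fun s : ℝ => A s i i - A s j j) =o[𝓝 0] fun s : ℝ => l1 (A s - dgr θ) := by
      refine Asymptotics.isLittleO_iff.2 fun ε hε => ?_
      obtain ⟨δ, hδ, hd⟩ := diag_diff hθ hε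
      filter_upwards [hpat', hl0.eventually (ge_mem_nhds hδ)] with s hs hs'
      rw [Real.norm_of_nonneg (l1_nonneg _)]
      exact hd (A s) (hAH s) hs hs' i j h
    exact h1.trans_isBigO hO
  have hder : HasDerivAt (fun s : ℝ => A s i i - A s j j) 0 0 := by
    rw [hasDerivAt_iff_isLittleO]
    refine ho.congr_left (fun s => ?_) |>.trans_isBigO
      ((Asymptotics.isBigO_refl _ _).congr_right fun s => (sub_zero s).symm)
    rw [hA0, smul_zero, sub_zero]
    have e : dgr θ i i - dgr θ j j = 0 := by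
      unfold dgr
      rw [Matrix.diagonal_apply_eq, Matrix.diagonal_apply_eq, h, sub_self]
    rw [e, sub_zero]
  -- the mean value
  have hmean : ∑ a, ‖v a‖ ^ 2 * D.R.lam a H = 0 := by
    have h1 := tr_diag_mom D.R H v
    rw [hm, hH, sum_dif] at h1
    have e : (-dgr θ) i i - (-dgr θ) j j = 0 := by
      unfold dgr
      rw [Matrix.neg_apply, Matrix.neg_apply, Matrix.diagonal_apply_eq, Matrix.diagonal_apply_eq,
        h, sub_self]
    rw [e] at h1
    have h2 : (∑ a, ‖v a‖ ^ 2 * D.R.lam a H) / ns v = 0 := by exact_mod_cast h1.symm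
    rcases div_eq_zero_iff.1 h2 with h3 | h3
    · exact h3
    · exact absurd h3 hns.ne'
  have h1 := hasDeriv_tr_mom D.R H hv0 hmean
  have h2 : HasDerivAt (fun s : ℝ => ∑ k, (H.1 k : ℂ) * mom D.R (D.R.act (dg H s) v) k k)
      (-0) 0 := by
    refine hder.neg.congr_of_eventuallyEq (Eventually.of_forall fun s => ?_)
    have e := sum_dif i j (fun k => mom D.R (D.R.act (dg H s) v) k k)
    refine e.trans ?_
    show mom D.R (D.R.act (dg H s) v) i i - mom D.R (D.R.act (dg H s) v) j j =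
      -((-mom D.R (D.R.act (dg H s) v)) i i - (-mom D.R (D.R.act (dg H s) v)) j j)
    rw [Matrix.neg_apply, Matrix.neg_apply]
    ring
  have h3 := h1.unique h2
  have h4 : ∑ a, ‖v a‖ ^ 2 * D.R.lam a H ^ 2 = 0 := by
    have h5 : 2 * (∑ a, ‖v a‖ ^ 2 * D.R.lam a H ^ 2) / ns v = 0 := by
      have h6 := h3.trans neg_zero
      exact_mod_cast h6
    rcases div_eq_zero_iff.1 h5 with h6 | h6
    · linarith
    · exact absurd h6 hns.ne'
  have h5 : ∀ a, ‖v a‖ ^ 2 * D.R.lam a H ^ 2 = 0 := fun a =>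
    (Finset.sum_eq_zero_iff_of_nonneg fun a _ => by positivity).1 h4 a (Finset.mem_univ a)
  refine ⟨H, dif_ne hij, fun z => ?_⟩
  refine fix_of_line D hsep (c := 1) ?_
  rw [one_smul]
  funext a
  rw [D.R.act_dg]
  rcases mul_eq_zero.1 (h5 a) with h6 | h6
  · have h7 : v a = 0 := norm_eq_zero.1 (pow_eq_zero_iff two_ne_zero |>.1 h6)
    show Complex.exp (z * (D.R.lam a H : ℝ)) * v a = v a
    rw [h7, mul_zero]
  · have h7 : D.R.lam a H = 0 := pow_eq_zero_iff two_ne_zero |>.1 h6
    rw [h7, Complex.ofReal_zero, mul_zero, Complex.exp_zero, one_mul]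

end Pool.Agent.SG
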