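import Pool.Agent.H.MP_e23cd6_ag.SG.M.K2
import Pool.Agent.H.MP_e23cd6_ag.SG.M.L

/-!
# Block M: existence of a stable point of the zero level (7.1)-(7.5)
-/

set_option autoImplicit false

open Matrix Topology Filter

namespace Pool.Agent.SG

variable {n : ℕ}

/-- `NoFix` is invariant under `B`: conjugate the one-parameter group. -/
theorem NoFix.act {X : Type} {act : Gp n → X → X} (one : ∀ y, act 1 y = y)
    (mul : ∀ g h y, act (g * h) y = act g (act h y)) {y : X} (h : NoFix act y) {b : Gp n}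
    (hb : IsB b) : NoFix act (act b y) := by
  intro φ hφ hol hB hfix z
  have h1 : ∀ z, b⁻¹ * φ z * b = 1 := by
    refine h (fun z => b⁻¹ * φ z * b) ?_ ?_ ?_ ?_
    · intro z w
      show b⁻¹ * φ (z + w) * b = b⁻¹ * φ z * b * (b⁻¹ * φ w * b)
      rw [hφ z w]
      group
    · intro i j
      show Differentiable ℂ fun z => ((b⁻¹ * φ z * b : Gp n) : Matrix (Fin n) (Fin n) ℂ) i j
      have e : (fun z => ((b⁻¹ * φ z * b : Gp n) : Matrix (Fin n) (Fin n) ℂ) i j) =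
          fun z => ∑ k, (∑ l, ((b⁻¹ : Gp n) : Matrix (Fin n) (Fin n) ℂ) i l *
            (φ z : Matrix (Fin n) (Fin n) ℂ) l k) * (b : Matrix (Fin n) (Fin n) ℂ) k j := by
        funext z
        rw [coe_gmul, coe_gmul, Matrix.mul_apply]
        exact Finset.sum_congr rfl fun k _ => by rw [Matrix.mul_apply]
      rw [e]
      refine Differentiable.fun_sum fun k _ => ?_
      refine Differentiable.mul_const (Differentiable.fun_sum fun l _ => ?_) _
      exact (hol l k).const_mul _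
    · intro z
      exact isB_mul (isB_mul (isB_inv hb) (hB z)) hb
    · intro z
      show act (b⁻¹ * φ z * b) y = y
      rw [mul, mul, hfix z, ← mul, inv_mul_cancel, one]
  have h2 : φ z = b * (b⁻¹ * φ z * b) * b⁻¹ := by group
  rw [h2, h1 z, mul_one, mul_inv_cancel]

/-- The main step, for a single linearised line bundle `D`. Proof: let `A y = -mom D.R (D.v y)`;
choose `y₀` with the maximal value of `gaps (evs (A y₀))` (`gaps_le`) and, replacing `y₀` by
`act u y₀` (`exists_evs`, `mom_act`, `PDat.mom_act`, `evs_conj`), with `A y₀ = dgr θ₀`,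
`θ₀ = evs (A y₀)`. Let `O` be an open neighbourhood of `y₀` on which `SamePat (evs (A y)) θ₀`
(`samePat_of_gaps`, `evs_comp`, `continuous_mom`) and `l1 (A y - dgr θ₀) ≤ δ` (`δ` from
`diag_of_block`). By `slice` and density there are `y₁` with `NoFix act y₁` and `b` in `B` with
`y₂ = act b y₁ ∈ O` and `A y₂` block diagonal, so `A y₂ = dgr θ₂` with `θ₂ = evs (A y₂)`. By
`NoFix.act`, `NoFix act y₂`. If `θ₂ i = θ₂ j` with `i ≠ j`, then `fixed_of_pattern` contradicts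
`NoFix` (`isB_dg`, `holCurve_dg`, `dg_eq_one`, `dg_add`). So `θ₂` is strictly antitone. -/
theorem exists_good_pt {X : Type} [TopologicalSpace X] [Nonempty X] {act : Gp n → X → X}
    (one : ∀ y, act 1 y = y) (mul : ∀ g h y, act (g * h) y = act g (act h y))
    (cont : Continuous fun w : Gp n × X => act w.1 w.2) (D : PDat n X act)
    (hsep : ∀ y y', (∃ z : ℂ, D.v y' = z • D.v y) → y = y')
    (hden : Dense {y : X | NoFix act y}) :
    ∃ (y : X) (θ : Fin n → ℝ), StrictAnti θ ∧ NoFix act y ∧ mom D.R (D.v y) = -dgr θ := by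
  obtain ⟨A, hA⟩ : ∃ A : X → Mx n, ∀ y, A y = -mom D.R (D.v y) := ⟨_, fun _ => rfl⟩
  have hherm : ∀ y, (A y).IsHermitian := fun y => by
    rw [hA]
    exact (mom_HT D.R (D.v y)).1.neg
  have hcont : Continuous A := by
    have e : A = fun y => -mom D.R (D.v y) := funext hA
    rw [e]
    exact (continuous_mom D).neg
  have hev : Continuous fun y => evs (A y) := evs_comp hcont hherm
  -- a point with the maximal number of gaps
  obtain ⟨y', hy'⟩ : ∃ y', ∀ y, gaps (evs (A y)) ≤ gaps (evs (A y')) := by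
    have hb : BddAbove (Set.range fun y => gaps (evs (A y))) :=
      ⟨n * n, by rintro _ ⟨y, rfl⟩; exact gaps_le _⟩
    obtain ⟨y', hy'⟩ := Nat.sSup_mem (Set.range_nonempty fun y => gaps (evs (A y))) hb
    refine ⟨y', fun y => ?_⟩
    have h1 : gaps (evs (A y)) ≤ sSup (Set.range fun y => gaps (evs (A y))) :=
      le_csSup hb ⟨y, rfl⟩
    exact h1.trans (le_of_eq hy'.symm)
  obtain ⟨u, hu, hd⟩ := exists_evs (hherm y')
  obtain ⟨y₀, hy₀⟩ : ∃ y₀, y₀ = act u y' := ⟨_, rfl⟩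
  obtain ⟨θ₀, hθ₀⟩ : ∃ θ₀, θ₀ = evs (A y') := ⟨_, rfl⟩
  have hanti : Antitone θ₀ := hθ₀ ▸ evs_antitone _
  have hA₀ : A y₀ = dgr θ₀ := by
    rw [hA, hy₀, D.mom_act, mom_act D.R hu, hθ₀, ← hd, hA]
    rw [mul_neg, neg_mul]
  have hev₀ : evs (A y₀) = θ₀ := by rw [hA₀, evs_dgr hanti]
  have hmax : ∀ y, gaps (evs (A y)) ≤ gaps θ₀ := fun y => hθ₀ ▸ hy' y
  obtain ⟨δ, hδ, hblock⟩ := diag_of_block hanti
  obtain ⟨V, hV, hpat⟩ := samePat_of_gaps hanti
  -- the neighbourhood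
  have hl1 : Continuous fun y => l1 (A y - dgr θ₀) := by
    unfold l1
    refine continuous_finsetSum _ fun a _ => continuous_finsetSum _ fun b _ => ?_
    exact ((hcont.sub continuous_const).matrix_elem a b).norm
  have hl0 : l1 (A y₀ - dgr θ₀) = 0 := by
    rw [hA₀, sub_self]
    unfold l1
    simp
  have hnb : {y : X | evs (A y) ∈ V ∧ l1 (A y - dgr θ₀) < δ} ∈ 𝓝 y₀ := by
    refine Filter.inter_mem (hev.continuousAt.preimage_mem_nhds ?_)
      (hl1.continuousAt.preimage_mem_nhds (Iio_mem_nhds (by rw [hl0]; exact hδ)))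
    rw [hev₀]
    exact hV
  obtain ⟨O, hOs, hOo, hyO⟩ := mem_nhds_iff.1 hnb
  have hO : ∀ y ∈ O, SamePat (evs (A y)) θ₀ := fun y hy =>
    hpat _ (hOs hy).1 (evs_antitone _) (hmax y)
  have hm₀ : mom D.R (D.v y₀) = -dgr θ₀ := by rw [← hA₀, hA, neg_neg]
  obtain ⟨O₁, hO₁, hsl⟩ := slice one cont D hanti hm₀ (hOo.mem_nhds hyO)
  obtain ⟨y₁, hy₁, hfix₁⟩ := hden.inter_nhds_nonempty hO₁
  obtain ⟨b, hb, hbO, hbm⟩ := hsl y₁ hfix₁
  obtain ⟨y₂, hy₂⟩ : ∃ y₂, y₂ = act b y₁ := ⟨_, rfl⟩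
  rw [← hy₂] at hbO hbm
  have hfix₂ : NoFix act y₂ := by
    rw [hy₂]
    exact NoFix.act one mul hy₁ hb
  obtain ⟨θ₂, hθ₂⟩ : ∃ θ₂, θ₂ = evs (A y₂) := ⟨_, rfl⟩
  have hanti₂ : Antitone θ₂ := hθ₂ ▸ evs_antitone _
  have hpat₂ : SamePat θ₂ θ₀ := hθ₂ ▸ hO y₂ hbO
  have hA₂ : A y₂ = dgr θ₂ := by
    rw [hθ₂]
    refine hblock _ (hherm _) (hO y₂ hbO) (hOs hbO).2.le fun i j hij => ?_
    rw [hA, Matrix.neg_apply, hbm i j hij, neg_zero]
  have hm₂ : mom D.R (D.v y₂) = -dgr θ₂ := by rw [← hA₂, hA, neg_neg]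
  refine ⟨y₂, θ₂, fun i j hij => ?_, hfix₂, hm₂⟩
  refine lt_of_le_of_ne (hanti₂ hij.le) fun he => ?_
  have hev2 : ∀ᶠ y'' in 𝓝 y₂, SamePat (evs (-mom D.R (D.v y''))) θ₂ := by
    filter_upwards [hOo.mem_nhds hbO] with y'' hy''
    rw [← hA]
    intro i j
    exact (hO y'' hy'' i j).trans (hpat₂ i j).symm
  obtain ⟨H, hH0, hHf⟩ := fixed_of_pattern one cont D hsep hanti₂ hm₂ hev2 hij.ne he.symm
  exact hH0 (dg_eq_one (hfix₂ (fun z => dg H z) (fun z w => dg_add H z w) (holCurve_dg H)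
    (fun z => isB_dg H z) hHf))

/-- From `exists_good_pt`, `stable_of_mom`, `lev_eq_J0`. -/
theorem GSys.exists_stb0 {X : Type} [TopologicalSpace X] [CompactSpace X] (S : GSys n X)
    (hn : 2 ≤ n) (hden : Dense {y : X | NoFix S.act y}) (hX : Nonempty X) :
    ∃ (y : X) (θ : Fin n → ℝ), StrictAnti θ ∧ S.Stb 0 1 θ y := by
  have := hX
  obtain ⟨y, θ, hθ, hfix, hm⟩ := exists_good_pt S.one S.mul S.cont (S.D 0 0) (S.sep 0 0) hden
  have hc : (0 : ℝ) < S.c 0 0 := by exact_mod_cast S.c_pos 0 0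
  refine ⟨y, fun i => θ i / S.c 0 0, fun i j hij => ?_, fun M => ?_⟩
  · exact div_lt_div_of_pos_right (hθ hij) hc
  · obtain ⟨r, hr⟩ := stable_of_mom (S.D 0 0) (S.sep 0 0) hθ hm hfix (S.c 0 0 * M)
    refine ⟨r, fun g hg => hr g ?_⟩
    rw [lev_eq_J0] at hg
    have e : (fun i => (S.c 0 0 : ℝ) * (θ i / S.c 0 0)) = θ := by
      funext i
      field_simp
    rw [e, div_le_iff₀ hc] at hg
    linarith

end Pool.Agent.SG
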