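import Pool.Agent.H.MP_e23cd6_ag.SG.Sys
import Pool.Agent.H.MP_e23cd6_ag.SG.Var
import Pool.Agent.H.MP_e23cd6_ag.SG.Near

/-!
# Block M: Hermitian one-parameter groups `exp (z u^* H u)` and their images in a representation
-/

set_option autoImplicit false

open Matrix Topology Filter

namespace Pool.Agent.SG

variable {n : ℕ}

/-- The `n × n` matrices. -/
abbrev Mx (n : ℕ) := Matrix (Fin n) (Fin n) ℂ

/-- Hermitian matrices of trace zero. -/
def HT (ξ : Mx n) : Prop := ξ.IsHermitian ∧ ξ.trace = 0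

/-- The Hermitian matrix `u^* H u`. -/
noncomputable def cj (u : Gp n) (H : aa n) : Mx n :=
  (u : Mx n)ᴴ * Matrix.diagonal (fun i => (H.1 i : ℂ)) * (u : Mx n)

/-- The element `exp (z u^* H u)` of `SL_n(ℂ)` (for `u` in `SU n`). -/
noncomputable def ex (u : Gp n) (H : aa n) (z : ℂ) : Gp n := u⁻¹ * dg H z * u

/-- The elementary unipotent matrix `1 + z E_ij`. -/
def el {i j : Fin n} (h : i ≠ j) (z : ℂ) : Gp n :=
  ⟨Matrix.transvection i j z, Matrix.det_transvection_of_ne i j h z⟩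

/-- The curve `γ` of matrices has the derivative `A` at `0` (entrywise). -/
def HasD {κ κ' : Type} (γ : ℝ → Matrix κ κ' ℂ) (A : Matrix κ κ' ℂ) : Prop :=
  ∀ a b, HasDerivAt (fun s => γ s a b) (A a b) 0

theorem HasD.unique {κ κ' : Type} {γ : ℝ → Matrix κ κ' ℂ} {A B : Matrix κ κ' ℂ}
    (h : HasD γ A) (h' : HasD γ B) : A = B := by
  ext a b
  exact (h a b).unique (h' a b)

theorem HasD.congr {κ κ' : Type} {γ δ : ℝ → Matrix κ κ' ℂ} {A : Matrix κ κ' ℂ}
    (h : HasD γ A) (e : ∀ s, δ s = γ s) : HasD δ A := by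
  have h1 : δ = γ := funext e
  rw [h1]
  exact h

/-- Product rule; `A₀ = γ 0`, `B₀ = δ 0`. -/
theorem HasD.mul {κ κ' κ'' : Type} [Fintype κ'] {γ : ℝ → Matrix κ κ' ℂ} {δ : ℝ → Matrix κ' κ'' ℂ}
    {A : Matrix κ κ' ℂ} {B : Matrix κ' κ'' ℂ} (h : HasD γ A) (h' : HasD δ B) :
    HasD (fun s => γ s * δ s) (A * δ 0 + γ 0 * B) := by
  intro a b
  have h1 : HasDerivAt (fun s => ∑ j, γ s a j * δ s j b)
      (∑ j, (A a j * δ 0 j b + γ 0 a j * B j b)) 0 :=
    HasDerivAt.fun_sum fun j _ => (h a j).mul (h' j b)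
  have h2 : (A * δ 0 + γ 0 * B) a b = ∑ j, (A a j * δ 0 j b + γ 0 a j * B j b) := by
    rw [Matrix.add_apply, Matrix.mul_apply, Matrix.mul_apply, Finset.sum_add_distrib]
  rw [h2]
  simpa only [Matrix.mul_apply] using h1

theorem mA_ct_mul {u : Gp n} (hu : u ∈ SU n) : (u : Mx n)ᴴ * (u : Mx n) = 1 := mem_SU'.1 hu

theorem mA_mul_ct {u : Gp n} (hu : u ∈ SU n) : (u : Mx n) * (u : Mx n)ᴴ = 1 := by
  rw [← coe_inv_SU hu, ← coe_gmul, mul_inv_cancel, coe_gone]

/-- Hermitian matrices of trace zero are of the form `u^* H u` (`diag_herm`; the sum of the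
eigenvalues is the trace, `Matrix.IsHermitian.trace_eq_sum_eigenvalues`). -/
theorem HT.exists_cj {ξ : Mx n} (h : HT ξ) : ∃ u ∈ SU n, ∃ H : aa n, ξ = cj u H := by
  obtain ⟨hh, ht⟩ := h
  obtain ⟨u, hu, he⟩ := diag_herm hh
  have h1 : ∑ i, hh.eigenvalues i = 0 := by
    have h2 := hh.trace_eq_sum_eigenvalues
    rw [ht] at h2
    have h3 : ((∑ i, hh.eigenvalues i : ℝ) : ℂ) = 0 := by
      rw [Complex.ofReal_sum]
      exact h2.symm
    exact Complex.ofReal_eq_zero.1 h3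
  exact ⟨u, hu, ⟨fun i => hh.eigenvalues i, h1⟩, he⟩

theorem HT_cj {u : Gp n} (hu : u ∈ SU n) (H : aa n) : HT (cj u H) := by
  constructor
  · unfold cj
    apply Matrix.isHermitian_conjTranspose_mul_mul
    unfold Matrix.IsHermitian
    rw [Matrix.diagonal_conjTranspose]
    congr 1
    funext i
    simp
  · unfold cj
    rw [Matrix.trace_mul_comm, ← Matrix.mul_assoc, mA_mul_ct hu, Matrix.one_mul,
      Matrix.trace_diagonal, ← Complex.ofReal_sum, aa_sum, Complex.ofReal_zero]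

theorem HT.add {ξ η : Mx n} (h : HT ξ) (h' : HT η) : HT (ξ + η) := by
  exact ⟨h.1.add h'.1, by rw [Matrix.trace_add, h.2, h'.2, add_zero]⟩

theorem HT.smul {ξ : Mx n} (h : HT ξ) (t : ℝ) : HT ((t : ℂ) • ξ) := by
  constructor
  · unfold Matrix.IsHermitian
    rw [Matrix.conjTranspose_smul, h.1.eq]
    simp
  · rw [Matrix.trace_smul, h.2, smul_zero]

theorem ex_zero (u : Gp n) (H : aa n) : ex u H 0 = 1 := by
  unfold ex
  rw [dg_zero, mul_one, inv_mul_cancel]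

theorem ex_add (u : Gp n) (H : aa n) (z w : ℂ) : ex u H (z + w) = ex u H z * ex u H w := by
  unfold ex
  rw [dg_add]
  group

theorem ex_inv (u : Gp n) (H : aa n) (z : ℂ) : (ex u H z)⁻¹ = ex u H (-z) := by
  symm
  apply eq_inv_of_mul_eq_one_left
  rw [← ex_add, neg_add_cancel, ex_zero]

theorem coe_ex {u : Gp n} (hu : u ∈ SU n) (H : aa n) (z : ℂ) : (ex u H z : Mx n) =
    (u : Mx n)ᴴ * Matrix.diagonal (fun j => Complex.exp (z * H.1 j)) * (u : Mx n) := by
  unfold ex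
  rw [coe_gmul, coe_gmul, coe_inv_SU hu, coe_dg]

/-- `ct (ex u H z) = ex u H (star z)` for `u` in `SU n`. -/
theorem ct_ex {u : Gp n} (hu : u ∈ SU n) (H : aa n) (z : ℂ) :
    ct (ex u H z) = ex u H (star z) := by
  unfold ex
  rw [ct_mul, ct_mul, ct_inv, ct_dg, mem_SU.1 hu, inv_inv, mul_assoc]

/-- `ex u H (i t)` is in `SU n`. -/
theorem ex_mem_SU {u : Gp n} (hu : u ∈ SU n) (H : aa n) (t : ℝ) :
    ex u H (t * Complex.I) ∈ SU n := by
  exact (SU n).mul_mem ((SU n).mul_mem ((SU n).inv_mem hu) (dg_mem_SU H t)) hu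

/-- `ex u H z` depends only on the matrix `u^* H u`.  Proof: `coe_ex` and
`NormedSpace.exp (z • cj u H) = u^* exp (z H) u` (`Matrix.exp_units_conj` or `Matrix.exp_conj`,
`Matrix.exp_diagonal`); or: entries of `W = u' u^*` satisfy `W_ij (H_j - H'_i) = 0`, so
`W_ij (exp (z H_j) - exp (z H'_i)) = 0`. -/
theorem ex_congr {u u' : Gp n} (hu : u ∈ SU n) (hu' : u' ∈ SU n) {H H' : aa n}
    (h : cj u H = cj u' H') (z : ℂ) : ex u H z = ex u' H' z := by
  have h1 := mA_ct_mul hu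
  have h2 := mA_mul_ct hu
  have h3 := mA_ct_mul hu'
  have h4 := mA_mul_ct hu'
  apply gp_ext
  rw [coe_ex hu, coe_ex hu']
  unfold cj at h
  obtain ⟨W, hW⟩ : ∃ W : Mx n, W = (u' : Mx n) * (u : Mx n)ᴴ := ⟨_, rfl⟩
  have h5 : W * Matrix.diagonal (fun i => (H.1 i : ℂ)) =
      Matrix.diagonal (fun i => (H'.1 i : ℂ)) * W := by
    have h6 : (u' : Mx n) * ((u : Mx n)ᴴ * Matrix.diagonal (fun i => (H.1 i : ℂ)) * (u : Mx n)) *
        (u : Mx n)ᴴ = (u' : Mx n) * ((u' : Mx n)ᴴ * Matrix.diagonal (fun i => (H'.1 i : ℂ)) *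
        (u' : Mx n)) * (u : Mx n)ᴴ := by rw [h]
    have h7 : (u' : Mx n) * ((u : Mx n)ᴴ * Matrix.diagonal (fun i => (H.1 i : ℂ)) * (u : Mx n)) *
        (u : Mx n)ᴴ = W * Matrix.diagonal (fun i => (H.1 i : ℂ)) * ((u : Mx n) * (u : Mx n)ᴴ) := by
      rw [hW]
      simp only [Matrix.mul_assoc]
    have h8 : (u' : Mx n) * ((u' : Mx n)ᴴ * Matrix.diagonal (fun i => (H'.1 i : ℂ)) *
        (u' : Mx n)) * (u : Mx n)ᴴ = ((u' : Mx n) * (u' : Mx n)ᴴ) *
        (Matrix.diagonal (fun i => (H'.1 i : ℂ)) * W) := by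
      rw [hW]
      simp only [Matrix.mul_assoc]
    rw [h7, h8, h2, h4, Matrix.mul_one, Matrix.one_mul] at h6
    exact h6
  have h9 : W * Matrix.diagonal (fun j => Complex.exp (z * H.1 j)) =
      Matrix.diagonal (fun j => Complex.exp (z * H'.1 j)) * W := by
    ext i j
    have h10 := congrFun (congrFun h5 i) j
    rw [Matrix.mul_diagonal, Matrix.diagonal_mul] at h10 ⊢
    by_cases h11 : W i j = 0
    · rw [h11, zero_mul, mul_zero]
    · have h12 : (H.1 j : ℂ) = (H'.1 i : ℂ) := by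
        rw [mul_comm] at h10
        exact mul_right_cancel₀ h11 h10
      rw [h12, mul_comm]
  have h13 : (u' : Mx n)ᴴ * (W * Matrix.diagonal (fun j => Complex.exp (z * H.1 j))) * (u : Mx n) =
      (u' : Mx n)ᴴ * (Matrix.diagonal (fun j => Complex.exp (z * H'.1 j)) * W) * (u : Mx n) := by
    rw [h9]
  have h14 : (u' : Mx n)ᴴ * (W * Matrix.diagonal (fun j => Complex.exp (z * H.1 j))) * (u : Mx n) =
      ((u' : Mx n)ᴴ * (u' : Mx n)) * ((u : Mx n)ᴴ *
        Matrix.diagonal (fun j => Complex.exp (z * H.1 j)) * (u : Mx n)) := by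
    rw [hW]
    simp only [Matrix.mul_assoc]
  have h15 : (u' : Mx n)ᴴ * (Matrix.diagonal (fun j => Complex.exp (z * H'.1 j)) * W) *
      (u : Mx n) = (u' : Mx n)ᴴ * Matrix.diagonal (fun j => Complex.exp (z * H'.1 j)) *
        (u' : Mx n) * ((u : Mx n)ᴴ * (u : Mx n)) := by
    rw [hW]
    simp only [Matrix.mul_assoc]
  rw [h14, h15, h1, h3, Matrix.one_mul, Matrix.mul_one] at h13
  exact h13

theorem ex_smul (u : Gp n) (H : aa n) (t : ℝ) (z : ℂ) : ex u (t • H) z = ex u H (t * z) := by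
  unfold ex
  congr 2
  apply gp_ext
  rw [coe_dg, coe_dg]
  congr 1
  funext j
  show Complex.exp (z * ((t * H.1 j : ℝ) : ℂ)) = Complex.exp (t * z * H.1 j)
  rw [Complex.ofReal_mul]
  congr 1
  ring

theorem ex_conj (u : Gp n) (H : aa n) (z : ℂ) (k : Gp n) :
    ex (u * k⁻¹) H z = k * ex u H z * k⁻¹ := by
  unfold ex
  group

theorem cj_conj (u : Gp n) (H : aa n) {k : Gp n} (hk : k ∈ SU n) :
    cj (u * k⁻¹) H = (k : Mx n) * cj u H * (k : Mx n)ᴴ := by
  unfold cj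
  rw [coe_gmul, coe_inv_SU hk, Matrix.conjTranspose_mul, Matrix.conjTranspose_conjTranspose]
  simp only [Matrix.mul_assoc]

/-- The derivative at `0` of `s ↦ exp (s c u^* H u)`. -/
theorem hasD_ex {u : Gp n} (hu : u ∈ SU n) (H : aa n) (c : ℂ) :
    HasD (fun s : ℝ => (ex u H (s * c) : Mx n)) (c • cj u H) := by
  intro a b
  have h0 : ∀ s : ℝ, (ex u H (s * c) : Mx n) a b =
      ∑ j, (u : Mx n)ᴴ a j * Complex.exp (s * c * H.1 j) * (u : Mx n) j b := by
    intro s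
    rw [coe_ex hu, Matrix.mul_apply]
    refine Finset.sum_congr rfl fun j _ => ?_
    rw [Matrix.mul_diagonal]
  have h1 : (c • cj u H) a b =
      ∑ j, (u : Mx n)ᴴ a j * (Complex.exp (((0 : ℝ) : ℂ) * c * H.1 j) * (1 * c * H.1 j)) *
        (u : Mx n) j b := by
    unfold cj
    rw [Matrix.smul_apply, Matrix.mul_apply, Finset.smul_sum]
    refine Finset.sum_congr rfl fun j _ => ?_
    rw [Matrix.mul_diagonal, smul_eq_mul, Complex.ofReal_zero, zero_mul, zero_mul,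
      Complex.exp_zero]
    ring
  rw [h1]
  simp only [h0]
  refine HasDerivAt.fun_sum fun j _ => ?_
  have h2 : HasDerivAt (fun s : ℝ => (s : ℂ)) 1 0 := (hasDerivAt_id (0 : ℝ)).ofReal_comp
  have h3 := ((h2.mul_const c).mul_const (H.1 j : ℂ)).cexp
  exact (h3.const_mul ((u : Mx n)ᴴ a j)).mul_const ((u : Mx n) j b)

end Pool.Agent.SG
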