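import Pool.Agent.H.MP_e23cd6_ag.SG.M.A

/-!
# Block M: the one-parameter groups `ex u H` in a representation
-/

set_option autoImplicit false

open Matrix Topology Filter

namespace Pool.Agent.SG

variable {n : ℕ}

section rep

variable {ι : Type} [Fintype ι] [DecidableEq ι] (R : Rep n ι)

/-- The Hermitian matrix `ρ(u)^* λ(H) ρ(u)`, the derivative of `s ↦ ρ (ex u H s)` at `0`. -/
noncomputable def Zm (u : Gp n) (H : aa n) : Matrix ι ι ℂ :=
  (R.ρ u)ᴴ * Matrix.diagonal (fun a => (R.lam a H : ℂ)) * R.ρ u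

/-- `ρ` is unitary on `SU n`. -/
theorem rho_SU {k : Gp n} (hk : k ∈ SU n) : (R.ρ k)ᴴ = R.ρ k⁻¹ := by
  rw [← R.star, mem_SU.1 hk]

/-- Compare `act_dg` in `Var.lean`. -/
theorem rho_dg (H : aa n) (z : ℂ) :
    R.ρ (dg H z) = Matrix.diagonal fun a => Complex.exp (z * R.lam a H) := by
  unfold dg
  rw [R.diag]
  congr 1
  funext i
  unfold Rep.lam
  rw [Complex.ofReal_sum, Finset.mul_sum, Complex.exp_sum]
  refine Finset.prod_congr rfl fun j _ => ?_
  rw [← Complex.exp_int_mul]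
  congr 1
  push_cast
  ring

theorem rho_ex {u : Gp n} (hu : u ∈ SU n) (H : aa n) (z : ℂ) : R.ρ (ex u H z) =
    (R.ρ u)ᴴ * Matrix.diagonal (fun a => Complex.exp (z * R.lam a H)) * R.ρ u := by
  unfold ex
  rw [map_mul, map_mul, rho_dg, rho_SU R hu]

theorem hasD_rho_ex {u : Gp n} (hu : u ∈ SU n) (H : aa n) (c : ℂ) :
    HasD (fun s : ℝ => R.ρ (ex u H (s * c))) (c • Zm R u H) := by
  intro a b
  have h0 : ∀ s : ℝ, R.ρ (ex u H (s * c)) a b =
      ∑ j, (R.ρ u)ᴴ a j * Complex.exp (s * c * R.lam j H) * (R.ρ u) j b := by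
    intro s
    rw [rho_ex R hu, Matrix.mul_apply]
    refine Finset.sum_congr rfl fun j _ => ?_
    rw [Matrix.mul_diagonal]
  have h1 : (c • Zm R u H) a b =
      ∑ j, (R.ρ u)ᴴ a j * (Complex.exp (((0 : ℝ) : ℂ) * c * R.lam j H) * (1 * c * R.lam j H)) *
        (R.ρ u) j b := by
    unfold Zm
    rw [Matrix.smul_apply, Matrix.mul_apply, Finset.smul_sum]
    refine Finset.sum_congr rfl fun j _ => ?_
    rw [Matrix.mul_diagonal, smul_eq_mul, Complex.ofReal_zero, zero_mul, zero_mul,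
      Complex.exp_zero]
    ring
  rw [h1]
  simp only [h0]
  refine HasDerivAt.fun_sum fun j _ => ?_
  have h2 : HasDerivAt (fun s : ℝ => (s : ℂ)) 1 0 := (hasDerivAt_id (0 : ℝ)).ofReal_comp
  have h3 := ((h2.mul_const c).mul_const (R.lam j H : ℂ)).cexp
  exact (h3.const_mul ((R.ρ u)ᴴ a j)).mul_const ((R.ρ u) j b)

/-- From `ex_congr` and `hasD_rho_ex`. -/
theorem Zm_congr {u u' : Gp n} (hu : u ∈ SU n) (hu' : u' ∈ SU n) {H H' : aa n}
    (h : cj u H = cj u' H') : Zm R u H = Zm R u' H' := by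
  have h1 := hasD_rho_ex R hu H 1
  have h2 := hasD_rho_ex R hu' H' 1
  have h3 : HasD (fun s : ℝ => R.ρ (ex u H (s * 1))) ((1 : ℂ) • Zm R u' H') := by
    refine h2.congr fun s => ?_
    rw [ex_congr hu hu' h]
  have h4 := h1.unique h3
  rwa [one_smul, one_smul] at h4

theorem Zm_conj (u : Gp n) (H : aa n) {k : Gp n} (hk : k ∈ SU n) :
    Zm R (u * k⁻¹) H = R.ρ k * Zm R u H * (R.ρ k)ᴴ := by
  unfold Zm
  rw [map_mul, ← rho_SU R hk, Matrix.conjTranspose_mul, Matrix.conjTranspose_conjTranspose]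
  simp only [Matrix.mul_assoc]

theorem Zm_herm (u : Gp n) (H : aa n) : (Zm R u H).IsHermitian := by
  unfold Zm
  apply Matrix.isHermitian_conjTranspose_mul_mul
  unfold Matrix.IsHermitian
  rw [Matrix.diagonal_conjTranspose]
  congr 1
  funext i
  simp

/-- The norm of `exp (s u^* H u) v` as an exponential sum (`ns_act_dg`, `ns_act_SU`). -/
theorem ns_act_ex {u : Gp n} (hu : u ∈ SU n) (H : aa n) (s : ℝ) (v : ι → ℂ) :
    ns (R.act (ex u H s) v) =
      ∑ a, ‖R.act u v a‖ ^ 2 * Real.exp (2 * s * R.lam a H) := by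
  unfold ex
  rw [mul_assoc, R.act_mul, R.ns_act_SU ((SU n).inv_mem hu), R.act_mul, R.ns_act_dg]
  exact Finset.sum_congr rfl fun a _ => mul_comm _ _

end rep

end Pool.Agent.SG
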