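import Pool.Agent.H.MP_e23cd6_ag.SG.M.A2

/-!
# Block M: a representation is Lipschitz at the identity; derivatives of curves in a representation
-/

set_option autoImplicit false

open Matrix Topology Filter

namespace Pool.Agent.SG

variable {n : ℕ} {ι : Type} [Fintype ι] [DecidableEq ι] (R : Rep n ι)

/-- The entries of `ρ k`, `k` in `SU n`, are bounded by `1` (`rho_SU`). -/
theorem rho_entry_le {k : Gp n} (hk : k ∈ SU n) (a b : ι) : ‖R.ρ k a b‖ ≤ 1 := by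
  have h1 : (R.ρ k)ᴴ * R.ρ k = 1 := by
    rw [rho_SU R hk, ← map_mul, inv_mul_cancel, map_one]
  have h2 : R.ρ k ∈ Matrix.unitaryGroup ι ℂ := by
    rw [Matrix.mem_unitaryGroup_iff']
    exact h1
  exact entry_norm_bound_of_unitary h2 a b

/-- `g = k exp (u^* H u)` with `k`, `u` in `SU n`. From `svd`: `g = k₁ (dg H 1) k₂ =
(k₁ k₂) (k₂⁻¹ (dg H 1) k₂)`. -/
theorem polar (g : Gp n) : ∃ k ∈ SU n, ∃ u ∈ SU n, ∃ H : aa n, g = k * ex u H 1 := by
  obtain ⟨k₁, hk₁, k₂, hk₂, H, h⟩ := svd g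
  refine ⟨k₁ * k₂, (SU n).mul_mem hk₁ hk₂, k₂, hk₂, H, ?_⟩
  rw [h]
  unfold ex
  group

/-- `|x| ≤ 2 |exp x - 1|` for `|exp x - 1| ≤ 1 / 2`. -/
theorem mB_abs_le {x : ℝ} (h : |Real.exp x - 1| ≤ 1 / 2) : |x| ≤ 2 * |Real.exp x - 1| := by
  rcases le_total 0 x with hx | hx
  · have h1 : x + 1 ≤ Real.exp x := Real.add_one_le_exp x
    have h2 : 0 ≤ Real.exp x - 1 := by linarith
    rw [abs_of_nonneg hx, abs_of_nonneg h2]
    linarith
  · have h1 : Real.exp x ≤ 1 := Real.exp_le_one_iff.2 hx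
    have h2 : |Real.exp x - 1| = 1 - Real.exp x := by
      rw [abs_of_nonpos (by linarith)]
      ring
    rw [h2] at h ⊢
    rw [abs_of_nonpos hx]
    have h3 : -x + 1 ≤ Real.exp (-x) := Real.add_one_le_exp (-x)
    have h4 : Real.exp (-x) * Real.exp x = 1 := by
      rw [← Real.exp_add, neg_add_cancel, Real.exp_zero]
    have h5 : 0 < Real.exp (-x) := Real.exp_pos _
    have h6 : Real.exp (-x) ≤ 2 := by nlinarith
    nlinarith

/-- Conjugation by a unitary matrix. -/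
theorem mB_conj {u : Gp n} (hu : u ∈ SU n) {M : Mx n} {δ : ℝ} (hM : ∀ i j, ‖M i j‖ ≤ δ)
    (i j : Fin n) : ‖((u : Mx n) * M * (u : Mx n)ᴴ) i j‖ ≤ (n : ℝ) ^ 2 * δ := by
  rw [Matrix.mul_apply]
  have h1 : ∀ b : Fin n, ‖((u : Mx n) * M) i b * (u : Mx n)ᴴ b j‖ ≤ (n : ℝ) * δ := by
    intro b
    have h2 : ‖((u : Mx n) * M) i b‖ ≤ (n : ℝ) * δ := by
      rw [Matrix.mul_apply]
      refine (norm_sum_le _ _).trans ?_
      have h3 : ∀ a ∈ (Finset.univ : Finset (Fin n)), ‖(u : Mx n) i a * M a b‖ ≤ δ := by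
        intro a _
        rw [norm_mul]
        have h4 := SU_entry_le hu i a
        have h5 := hM a b
        have h6 : 0 ≤ ‖M a b‖ := norm_nonneg _
        have h7 : 0 ≤ ‖(u : Mx n) i a‖ := norm_nonneg _
        nlinarith
      refine (Finset.sum_le_sum h3).trans ?_
      rw [Finset.sum_const, Finset.card_univ, Fintype.card_fin, nsmul_eq_mul]
    rw [norm_mul, Matrix.conjTranspose_apply, norm_star]
    have h4 := SU_entry_le hu j b
    have h6 : 0 ≤ ‖((u : Mx n) * M) i b‖ := norm_nonneg _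
    have h7 : 0 ≤ ‖(u : Mx n) j b‖ := norm_nonneg _
    nlinarith
  refine (norm_sum_le _ _).trans ((Finset.sum_le_sum fun b _ => h1 b).trans ?_)
  rw [Finset.sum_const, Finset.card_univ, Fintype.card_fin, nsmul_eq_mul]
  exact le_of_eq (by ring)

/-- Conjugate of a diagonal matrix. -/
theorem mB_diag {u : Gp n} (hu : u ∈ SU n) {d : Fin n → ℂ} {δ : ℝ} (hd : ∀ j, ‖d j‖ ≤ δ)
    (i j : Fin n) : ‖((u : Mx n)ᴴ * Matrix.diagonal d * (u : Mx n)) i j‖ ≤ (n : ℝ) * δ := by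
  rw [Matrix.mul_apply]
  have h1 : ∀ b : Fin n, ‖((u : Mx n)ᴴ * Matrix.diagonal d) i b * (u : Mx n) b j‖ ≤ δ := by
    intro b
    rw [Matrix.mul_diagonal, norm_mul, norm_mul, Matrix.conjTranspose_apply, norm_star]
    have h2 := SU_entry_le hu b i
    have h3 := SU_entry_le hu b j
    have h4 := hd b
    have h5 : 0 ≤ ‖(u : Mx n) b i‖ := norm_nonneg _
    have h6 : 0 ≤ ‖(u : Mx n) b j‖ := norm_nonneg _
    have h7 : 0 ≤ ‖d b‖ := norm_nonneg _
    have h8 : ‖(u : Mx n) b i‖ * ‖d b‖ ≤ δ := by nlinarith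
    have h9 : 0 ≤ ‖(u : Mx n) b i‖ * ‖d b‖ := mul_nonneg h5 h7
    nlinarith
  refine (norm_sum_le _ _).trans ((Finset.sum_le_sum fun b _ => h1 b).trans ?_)
  rw [Finset.sum_const, Finset.card_univ, Fintype.card_fin, nsmul_eq_mul]

/-- `ct g * g` for `g = k exp (u^* H u)`. -/
theorem mB_ct_mul {k u : Gp n} (hk : k ∈ SU n) (hu : u ∈ SU n) (H : aa n) :
    ct (k * ex u H 1) * (k * ex u H 1) = ex u H 2 := by
  rw [ct_mul, mem_SU.1 hk, ct_ex hu, star_one]
  have h1 : (2 : ℂ) = 1 + 1 := by norm_num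
  rw [h1, ex_add]
  group

/-- If `g` is near `1`, then in the polar decomposition `H` is small. Proof: `g^* g = ex u H 2`
(`ct_ex`, `ex_add`), so `u (g^* g - 1) u^* = diag (exp (2 H_j) - 1)` by `coe_ex`; the entries of
`g^* g - 1 = (g - 1)^* + (g - 1) + (g - 1)^* (g - 1)` are at most `2 ε + n ε² ≤ 3 ε`, so
`|exp (2 H_j) - 1| ≤ 3 n² ε ≤ 1 / 2`, and `|x| ≤ 2 |exp x - 1|` if `|exp x - 1| ≤ 1 / 2`. -/
theorem polar_small : ∃ r > (0 : ℝ), ∃ C : ℝ, 0 ≤ C ∧ ∀ (k : Gp n), k ∈ SU n → ∀ u ∈ SU n,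
    ∀ (H : aa n) (ε : ℝ), 0 ≤ ε → ε ≤ r →
      (∀ i j, ‖((k * ex u H 1 : Gp n) : Mx n) i j - (1 : Mx n) i j‖ ≤ ε) →
        (∀ j, |H.1 j| ≤ C * ε) ∧ dst k ≤ C * ε := by
  have hn0 : (0 : ℝ) ≤ n := n.cast_nonneg
  refine ⟨1 / (6 * ((n : ℝ) + 1) ^ 2), by positivity,
    (n : ℝ) * ((n : ℝ) + 1) + 6 * (n : ℝ) ^ 3 + 3 * (n : ℝ) ^ 2, by positivity, ?_⟩
  intro k hk u hu H ε hε hεr hg
  have hε6 : 6 * ((n : ℝ) + 1) ^ 2 * ε ≤ 1 := by
    have h1 : (0 : ℝ) < 6 * ((n : ℝ) + 1) ^ 2 := by positivity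
    rw [le_div_iff₀ h1] at hεr
    linarith
  have hn2 : 0 ≤ (n : ℝ) ^ 2 * ε := by positivity
  have hn1 : 0 ≤ (n : ℝ) * ε := by positivity
  have hnε : (n : ℝ) * ε ≤ 1 := by nlinarith
  have hn2ε : 3 * (n : ℝ) ^ 2 * ε ≤ 1 / 2 := by nlinarith
  obtain ⟨g, hgd⟩ : ∃ g : Gp n, g = k * ex u H 1 := ⟨_, rfl⟩
  rw [← hgd] at hg
  -- the entries of `g^* g - 1`
  have hE : ∀ i j, ‖((g : Mx n)ᴴ * (g : Mx n) - 1) i j‖ ≤ 3 * ε := by
    intro i j
    have h1 : (g : Mx n)ᴴ * (g : Mx n) - 1 = ((g : Mx n) - 1)ᴴ + ((g : Mx n) - 1) +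
        ((g : Mx n) - 1)ᴴ * ((g : Mx n) - 1) := by
      rw [Matrix.conjTranspose_sub, Matrix.conjTranspose_one]
      noncomm_ring
    rw [h1, Matrix.add_apply, Matrix.add_apply]
    have h2 : ‖((g : Mx n) - 1)ᴴ i j‖ ≤ ε := by
      rw [Matrix.conjTranspose_apply, norm_star]
      exact hg j i
    have h3 : ‖((g : Mx n) - 1) i j‖ ≤ ε := hg i j
    have h4 : ‖(((g : Mx n) - 1)ᴴ * ((g : Mx n) - 1) : Mx n) i j‖ ≤ (n : ℝ) * (ε * ε) := by
      rw [Matrix.mul_apply]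
      refine (norm_sum_le _ _).trans ?_
      have h5 : ∀ a ∈ (Finset.univ : Finset (Fin n)),
          ‖((g : Mx n) - 1)ᴴ i a * ((g : Mx n) - 1) a j‖ ≤ ε * ε := by
        intro a _
        rw [norm_mul, Matrix.conjTranspose_apply, norm_star]
        exact mul_le_mul (hg a i) (hg a j) (norm_nonneg _) hε
      refine (Finset.sum_le_sum h5).trans ?_
      rw [Finset.sum_const, Finset.card_univ, Fintype.card_fin, nsmul_eq_mul]
    have h6 : (n : ℝ) * (ε * ε) ≤ ε := by nlinarith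
    refine (norm_add_le _ _).trans ?_
    have h7 := norm_add_le (((g : Mx n) - 1)ᴴ i j) (((g : Mx n) - 1) i j)
    linarith
  -- the eigenvalues
  have hD : (u : Mx n) * ((g : Mx n)ᴴ * (g : Mx n) - 1) * (u : Mx n)ᴴ =
      Matrix.diagonal (fun j => Complex.exp (2 * H.1 j) - 1) := by
    have h1 : (g : Mx n)ᴴ * (g : Mx n) =
        (u : Mx n)ᴴ * Matrix.diagonal (fun j => Complex.exp (2 * H.1 j)) * (u : Mx n) := by
      have h2 := congrArg (fun x : Gp n => (x : Mx n)) (mB_ct_mul hk hu H)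
      rw [← hgd] at h2
      simp only [coe_gmul, coe_ct] at h2
      rw [h2, coe_ex hu]
    have h3 := mA_mul_ct hu
    have h4 : (Matrix.diagonal (fun j => Complex.exp (2 * H.1 j) - 1) : Mx n) =
        Matrix.diagonal (fun j => Complex.exp (2 * H.1 j)) - 1 := by
      rw [← Matrix.diagonal_one, Matrix.diagonal_sub]
    rw [h1, h4, Matrix.mul_sub, Matrix.sub_mul, Matrix.mul_one, h3]
    congr 1
    calc (u : Mx n) * ((u : Mx n)ᴴ * Matrix.diagonal (fun j => Complex.exp (2 * H.1 j)) *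
          (u : Mx n)) * (u : Mx n)ᴴ
        = ((u : Mx n) * (u : Mx n)ᴴ) * Matrix.diagonal (fun j => Complex.exp (2 * H.1 j)) *
          ((u : Mx n) * (u : Mx n)ᴴ) := by simp only [Matrix.mul_assoc]
      _ = _ := by rw [h3, Matrix.one_mul, Matrix.mul_one]
  have hH : ∀ j, |H.1 j| ≤ 3 * (n : ℝ) ^ 2 * ε := by
    intro j
    have h1 := mB_conj hu hE j j
    rw [hD, Matrix.diagonal_apply_eq] at h1
    have h2 : Complex.exp (2 * H.1 j) - 1 = ((Real.exp (2 * H.1 j) - 1 : ℝ) : ℂ) := by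
      push_cast
      rfl
    rw [h2, Complex.norm_real, Real.norm_eq_abs] at h1
    have h3 : |Real.exp (2 * H.1 j) - 1| ≤ 1 / 2 := by nlinarith
    have h4 := mB_abs_le h3
    rw [abs_mul, abs_two] at h4
    nlinarith
  refine ⟨fun j => (hH j).trans ?_, ?_⟩
  · have h1 : 0 ≤ ((n : ℝ) * ((n : ℝ) + 1) + 6 * (n : ℝ) ^ 3) * ε := by positivity
    nlinarith
  · -- the unitary part
    have hk' : k = g * ex u H (-1) := by
      rw [hgd, ← ex_inv]
      group
    have hP : ∀ i j, ‖((ex u H (-1) : Gp n) : Mx n) i j - (1 : Mx n) i j‖ ≤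
        (n : ℝ) * (2 * (3 * (n : ℝ) ^ 2 * ε)) := by
      intro i j
      have h1 : ((ex u H (-1) : Gp n) : Mx n) - 1 = (u : Mx n)ᴴ *
          Matrix.diagonal (fun j => Complex.exp (-1 * H.1 j) - 1) * (u : Mx n) := by
        have h4 : (Matrix.diagonal (fun j => Complex.exp (-1 * H.1 j) - 1) : Mx n) =
            Matrix.diagonal (fun j => Complex.exp (-1 * H.1 j)) - 1 := by
          rw [← Matrix.diagonal_one, Matrix.diagonal_sub]
        rw [coe_ex hu, h4, Matrix.mul_sub, Matrix.sub_mul, Matrix.mul_one, mA_ct_mul hu]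
      have h2 := mB_diag hu (d := fun j => Complex.exp (-1 * H.1 j) - 1)
        (δ := 2 * (3 * (n : ℝ) ^ 2 * ε)) ?_ i j
      · rw [← h1] at h2
        exact h2
      · intro a
        have h3 : Complex.exp (-1 * H.1 a) - 1 = ((Real.exp (-H.1 a) - 1 : ℝ) : ℂ) := by
          push_cast
          rw [neg_one_mul]
        rw [h3, Complex.norm_real, Real.norm_eq_abs]
        have h4 : |-H.1 a| ≤ 1 := by
          rw [abs_neg]
          have := hH a
          linarith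
        have h5 := Real.abs_exp_sub_one_le h4
        rw [abs_neg] at h5
        have := hH a
        linarith
    have hn3 : (n : ℝ) * (2 * (3 * (n : ℝ) ^ 2 * ε)) ≤ n := by
      have h1 : 2 * (3 * (n : ℝ) ^ 2 * ε) ≤ 1 := by linarith
      calc (n : ℝ) * (2 * (3 * (n : ℝ) ^ 2 * ε)) ≤ (n : ℝ) * 1 :=
            mul_le_mul_of_nonneg_left h1 hn0
        _ = n := mul_one _
    have hP1 : ∀ i j, ‖((ex u H (-1) : Gp n) : Mx n) i j‖ ≤ (n : ℝ) + 1 := by
      intro i j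
      have h1 := hP i j
      have h2 : ‖(1 : Mx n) i j‖ ≤ 1 := by
        rw [Matrix.one_apply]
        split_ifs <;> simp
      have h3 := norm_add_le (((ex u H (-1) : Gp n) : Mx n) i j - (1 : Mx n) i j)
        ((1 : Mx n) i j)
      rw [sub_add_cancel] at h3
      linarith
    refine dst_le (by positivity) fun i j => ?_
    have h1 : (k : Mx n) - 1 = ((g : Mx n) - 1) * ((ex u H (-1) : Gp n) : Mx n) +
        (((ex u H (-1) : Gp n) : Mx n) - 1) := by
      have h2 := congrArg (fun x : Gp n => (x : Mx n)) hk'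
      simp only [coe_gmul] at h2
      rw [h2, Matrix.sub_mul, Matrix.one_mul]
      abel
    have h2 : (k : Mx n) i j - (1 : Mx n) i j =
        (((g : Mx n) - 1) * ((ex u H (-1) : Gp n) : Mx n)) i j +
          (((ex u H (-1) : Gp n) : Mx n) i j - (1 : Mx n) i j) := by
      have h3 := congrFun (congrFun h1 i) j
      rw [Matrix.sub_apply, Matrix.add_apply, Matrix.sub_apply] at h3
      exact h3
    rw [h2]
    have h4 : ‖(((g : Mx n) - 1) * ((ex u H (-1) : Gp n) : Mx n)) i j‖ ≤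
        (n : ℝ) * (ε * ((n : ℝ) + 1)) := by
      rw [Matrix.mul_apply]
      refine (norm_sum_le _ _).trans ?_
      have h5 : ∀ a ∈ (Finset.univ : Finset (Fin n)),
          ‖((g : Mx n) - 1) i a * ((ex u H (-1) : Gp n) : Mx n) a j‖ ≤ ε * ((n : ℝ) + 1) := by
        intro a _
        rw [norm_mul]
        exact mul_le_mul (hg i a) (hP1 a j) (norm_nonneg _) hε
      refine (Finset.sum_le_sum h5).trans ?_
      rw [Finset.sum_const, Finset.card_univ, Fintype.card_fin, nsmul_eq_mul]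
    refine (norm_add_le _ _).trans ?_
    have h5 := hP i j
    have h6 : 0 ≤ 3 * (n : ℝ) ^ 2 * ε := by positivity
    nlinarith

end Pool.Agent.SG
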