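import Pool.Agent.H.MP_e23cd6_ag.SG.M.B

/-!
# Block M: a representation is Lipschitz at the identity; derivatives of curves in a representation (continued)
-/

set_option autoImplicit false

open Matrix Topology Filter

namespace Pool.Agent.SG

variable {n : ℕ} {ι : Type} [Fintype ι] [DecidableEq ι] (R : Rep n ι)

theorem mB2_unit {u : Gp n} (hu : u ∈ SU n) : (R.ρ u)ᴴ * R.ρ u = 1 := by
  rw [rho_SU R hu, ← map_mul, inv_mul_cancel, map_one]

theorem mB2_entry {u : Gp n} (hu : u ∈ SU n) (d : ι → ℂ) {δ : ℝ} (h : ∀ c, ‖d c - 1‖ ≤ δ)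
    (a b : ι) : ‖((R.ρ u)ᴴ * Matrix.diagonal d * R.ρ u) a b - (1 : Matrix ι ι ℂ) a b‖ ≤
      Fintype.card ι * δ := by
  have h1 : (R.ρ u)ᴴ * Matrix.diagonal d * R.ρ u - 1 =
      (R.ρ u)ᴴ * Matrix.diagonal (fun c => d c - 1) * R.ρ u := by
    have h2 : Matrix.diagonal (fun c => d c - 1) = Matrix.diagonal d - 1 := by
      rw [← Matrix.diagonal_one, Matrix.diagonal_sub]
    rw [h2, Matrix.mul_sub, Matrix.sub_mul, Matrix.mul_one, mB2_unit R hu]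
  rw [← Matrix.sub_apply, h1, Matrix.mul_apply]
  refine (norm_sum_le _ _).trans ?_
  have h2 : ∀ c ∈ Finset.univ, ‖((R.ρ u)ᴴ * Matrix.diagonal (fun c => d c - 1)) a c *
      R.ρ u c b‖ ≤ δ := by
    intro c _
    rw [Matrix.mul_diagonal, Matrix.conjTranspose_apply, norm_mul, norm_mul, norm_star]
    have e1 := rho_entry_le R hu c a
    have e2 := rho_entry_le R hu c b
    have e3 := h c
    have e4 := norm_nonneg (R.ρ u c a)
    have e5 := norm_nonneg (R.ρ u c b)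
    have e6 := norm_nonneg (d c - 1)
    calc ‖R.ρ u c a‖ * ‖d c - 1‖ * ‖R.ρ u c b‖ ≤ 1 * δ * 1 := by
          exact mul_le_mul (mul_le_mul e1 e3 e6 zero_le_one) e2 e5
            (mul_nonneg zero_le_one (e6.trans e3))
      _ = δ := by ring
  refine (Finset.sum_le_sum h2).trans ?_
  rw [Finset.sum_const, Finset.card_univ, nsmul_eq_mul]

/-- For small `H` the matrix `ρ (ex u H 1)` is near `1`: `rho_ex`, `lam_le`, `rho_entry_le`. -/
theorem rho_ex_near : ∃ C : ℝ, 0 ≤ C ∧ ∀ u ∈ SU n, ∀ (H : aa n) (m : ℝ), (∀ j, |H.1 j| ≤ m) →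
    R.Wt * m ≤ 1 → 0 ≤ m → ∀ a b, ‖R.ρ (ex u H 1) a b - (1 : Matrix ι ι ℂ) a b‖ ≤ C * m := by
  have hW := R.Wt_nonneg
  refine ⟨Fintype.card ι * (2 * R.Wt), by positivity, fun u hu H m hH hm hm0 a b => ?_⟩
  rw [rho_ex R hu]
  refine (mB2_entry R hu _ (δ := 2 * R.Wt * m) (fun c => ?_) a b).trans (le_of_eq (by ring))
  have h1 := R.lam_le c H hH hm0
  have h2 : ‖(1 : ℂ) * (R.lam c H : ℂ)‖ = |R.lam c H| := by
    rw [one_mul, Complex.norm_real, Real.norm_eq_abs]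
  refine (Complex.norm_exp_sub_one_le (by rw [h2]; exact h1.trans hm)).trans ?_
  rw [h2]
  linarith

/-- For `k` in `SU n` near `1` the matrix `ρ k` is near `1`: `near_one`, `rho_ex` with
`z = Complex.I`, `‖exp (i x) - 1‖ ≤ |x|`, `lam_le`, `rho_entry_le`. -/
theorem rho_SU_near : ∃ r > (0 : ℝ), ∃ C : ℝ, 0 ≤ C ∧ ∀ k ∈ SU n, dst k ≤ r →
    ∀ a b, ‖R.ρ k a b - (1 : Matrix ι ι ℂ) a b‖ ≤ C * dst k := by
  obtain ⟨r, hr, h⟩ := near_one n
  have hW := R.Wt_nonneg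
  refine ⟨r, hr, Fintype.card ι * (R.Wt * (2 * (n : ℝ) ^ 2)), by positivity,
    fun k hk hd a b => ?_⟩
  obtain ⟨u, hu, H, hkH, hH⟩ := h k hk hd
  have hd0 := dst_nonneg k
  have h1 : R.ρ k = R.ρ (ex u H Complex.I) := by rw [hkH]; rfl
  rw [h1, rho_ex R hu]
  refine (mB2_entry R hu _ (δ := R.Wt * (2 * (n : ℝ) ^ 2 * dst k)) (fun c => ?_) a b).trans
    (le_of_eq (by ring))
  refine le_trans ?_ (R.lam_le c H hH (by positivity))
  have h2 := Real.norm_exp_I_mul_ofReal_sub_one_le (x := R.lam c H)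
  rwa [Real.norm_eq_abs] at h2

/-- A representation is Lipschitz at `1`. From `polar`, `polar_small`, `rho_ex_near`,
`rho_SU_near`. -/
theorem rho_lip : ∃ r > (0 : ℝ), ∃ C : ℝ, 0 ≤ C ∧ ∀ (g : Gp n) (ε : ℝ), 0 ≤ ε → ε ≤ r →
    (∀ i j, ‖(g : Mx n) i j - (1 : Mx n) i j‖ ≤ ε) →
      ∀ a b, ‖R.ρ g a b - (1 : Matrix ι ι ℂ) a b‖ ≤ C * ε := by
  obtain ⟨r1, hr1, C1, hC1, h1⟩ := polar_small (n := n)
  obtain ⟨r2, hr2, C2, hC2, h2⟩ := rho_SU_near R
  obtain ⟨C3, hC3, h3⟩ := rho_ex_near R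
  have hW := R.Wt_nonneg
  refine ⟨min r1 (min (r2 / (C1 + 1)) (1 / (R.Wt * C1 + 1))),
    lt_min hr1 (lt_min (by positivity) (by positivity)),
    Fintype.card ι * (C2 * C1 * (1 + C3 * C1 * r1)) + C3 * C1, by positivity, ?_⟩
  intro g ε hε hεr hg a b
  obtain ⟨k, hk, u, hu, H, rfl⟩ := polar g
  have e1 : ε ≤ r1 := hεr.trans (min_le_left _ _)
  have e2 : ε ≤ r2 / (C1 + 1) := hεr.trans ((min_le_right _ _).trans (min_le_left _ _))
  have e3 : ε ≤ 1 / (R.Wt * C1 + 1) := hεr.trans ((min_le_right _ _).trans (min_le_right _ _))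
  rw [le_div_iff₀ (by positivity)] at e2 e3
  obtain ⟨hH, hd⟩ := h1 k hk u hu H ε hε e1 hg
  have hWC : 0 ≤ R.Wt * C1 := mul_nonneg hW hC1
  have a1 : ∀ a b, ‖R.ρ (ex u H 1) a b - (1 : Matrix ι ι ℂ) a b‖ ≤ C3 * (C1 * ε) :=
    h3 u hu H (C1 * ε) hH (by nlinarith) (by positivity)
  have a2 : ∀ a b, ‖R.ρ k a b - (1 : Matrix ι ι ℂ) a b‖ ≤ C2 * (C1 * ε) := fun a b =>
    (h2 k hk (hd.trans (by nlinarith)) a b).trans (mul_le_mul_of_nonneg_left hd hC2)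
  have a3 : ∀ c, ‖R.ρ (ex u H 1) c b‖ ≤ 1 + C3 * C1 * r1 := by
    intro c
    have b1 : ‖(1 : Matrix ι ι ℂ) c b‖ ≤ 1 := by
      rw [Matrix.one_apply]
      split_ifs
      · rw [norm_one]
      · rw [norm_zero]
        exact zero_le_one
    have b2 := norm_add_le (R.ρ (ex u H 1) c b - (1 : Matrix ι ι ℂ) c b)
      ((1 : Matrix ι ι ℂ) c b)
    rw [sub_add_cancel] at b2
    have b3 := a1 c b
    have b4 : C3 * (C1 * ε) ≤ C3 * C1 * r1 := by
      rw [mul_assoc]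
      gcongr
    linarith
  have key : R.ρ (k * ex u H 1) a b - (1 : Matrix ι ι ℂ) a b =
      (∑ c, (R.ρ k a c - (1 : Matrix ι ι ℂ) a c) * R.ρ (ex u H 1) c b) +
        (R.ρ (ex u H 1) a b - (1 : Matrix ι ι ℂ) a b) := by
    have c1 : R.ρ (k * ex u H 1) - 1 = (R.ρ k - 1) * R.ρ (ex u H 1) + (R.ρ (ex u H 1) - 1) := by
      rw [map_mul, Matrix.sub_mul, Matrix.one_mul]
      abel
    have c2 := congrFun (congrFun c1 a) b
    rw [Matrix.sub_apply, Matrix.add_apply, Matrix.sub_apply, Matrix.mul_apply] at c2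
    exact c2
  rw [key]
  refine (norm_add_le _ _).trans ?_
  have d1 : ‖∑ c, (R.ρ k a c - (1 : Matrix ι ι ℂ) a c) * R.ρ (ex u H 1) c b‖ ≤
      Fintype.card ι * (C2 * C1 * (1 + C3 * C1 * r1)) * ε := by
    refine (norm_sum_le _ _).trans ?_
    have d2 : ∀ c ∈ Finset.univ, ‖(R.ρ k a c - (1 : Matrix ι ι ℂ) a c) * R.ρ (ex u H 1) c b‖ ≤
        C2 * C1 * (1 + C3 * C1 * r1) * ε := by
      intro c _
      rw [norm_mul]
      calc ‖R.ρ k a c - (1 : Matrix ι ι ℂ) a c‖ * ‖R.ρ (ex u H 1) c b‖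
          ≤ (C2 * (C1 * ε)) * (1 + C3 * C1 * r1) :=
            mul_le_mul (a2 a c) (a3 c) (norm_nonneg _) (by positivity)
        _ = _ := by ring
    refine (Finset.sum_le_sum d2).trans ?_
    rw [Finset.sum_const, Finset.card_univ, nsmul_eq_mul]
    exact le_of_eq (by ring)
  have d3 := a1 a b
  calc _ ≤ Fintype.card ι * (C2 * C1 * (1 + C3 * C1 * r1)) * ε + C3 * (C1 * ε) :=
        add_le_add d1 d3
    _ = _ := by ring

end Pool.Agent.SG
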