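import Pool.Agent.H.MP_e23cd6_ag.SG.M.B2

/-!
# Block M: a representation is Lipschitz at the identity; derivatives of curves in a representation (continued)
-/

set_option autoImplicit false

open Matrix Topology Filter

namespace Pool.Agent.SG

variable {n : ℕ} {ι : Type} [Fintype ι] [DecidableEq ι] (R : Rep n ι)

/-- If `γ` is a curve in the group with `γ 0 = 1` and the derivative `0` at `0`, then so is
`ρ ∘ γ`. (Use `rho_lip` with `ε = ∑ i, ∑ j, ‖γ s i j - 1 i j‖`, which is `o(s)`.) -/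
theorem hasD_rho_of_zero {γ : ℝ → Gp n} (h0 : γ 0 = 1)
    (h : HasD (fun s => (γ s : Mx n)) (0 : Mx n)) :
    HasD (fun s => R.ρ (γ s)) (0 : Matrix ι ι ℂ) := by
  obtain ⟨r, hr, C, hC, hl⟩ := rho_lip R
  set e : ℝ → ℝ := fun s => ∑ i, ∑ j, ‖(γ s : Mx n) i j - (1 : Mx n) i j‖ with he
  have hij : ∀ i j, (fun s => (γ s : Mx n) i j - (1 : Mx n) i j) =o[𝓝 0] fun s : ℝ => s := by
    intro i j
    have h1 := hasDerivAt_iff_isLittleO.1 (h i j)
    beta_reduce at h1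
    rw [h0] at h1
    simpa using h1
  have heo : e =o[𝓝 0] fun s : ℝ => s := by
    rw [he]
    refine Asymptotics.IsLittleO.fun_sum fun i _ => Asymptotics.IsLittleO.fun_sum fun j _ => ?_
    exact (hij i j).norm_left
  have het : Tendsto e (𝓝 0) (𝓝 0) := heo.trans_tendsto tendsto_id
  have hev : ∀ᶠ s in 𝓝 (0 : ℝ), e s ≤ r :=
    (het.eventually (gt_mem_nhds hr)).mono fun s hs => le_of_lt hs
  have he0 : ∀ s, 0 ≤ e s := fun s =>
    Finset.sum_nonneg fun i _ => Finset.sum_nonneg fun j _ => norm_nonneg _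
  have hle : ∀ s i j, ‖(γ s : Mx n) i j - (1 : Mx n) i j‖ ≤ e s := by
    intro s i j
    refine le_trans ?_ (Finset.single_le_sum
      (f := fun i => ∑ j, ‖(γ s : Mx n) i j - (1 : Mx n) i j‖)
      (fun i _ => Finset.sum_nonneg fun j _ => norm_nonneg _) (Finset.mem_univ i))
    exact Finset.single_le_sum (f := fun j => ‖(γ s : Mx n) i j - (1 : Mx n) i j‖)
      (fun j _ => norm_nonneg _) (Finset.mem_univ j)
  intro a b
  rw [hasDerivAt_iff_isLittleO]
  have hO : (fun s => R.ρ (γ s) a b - R.ρ (γ 0) a b - (s - 0) • (0 : Matrix ι ι ℂ) a b)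
      =O[𝓝 0] e := by
    refine Asymptotics.IsBigO.of_bound C ?_
    filter_upwards [hev] with s hs
    rw [h0, map_one, Matrix.zero_apply, smul_zero, sub_zero, Real.norm_of_nonneg (he0 s)]
    exact hl (γ s) (e s) (he0 s) hs (hle s) a b
  have h2 := hO.trans_isLittleO heo
  simpa using h2

/-- Curves in the group with the same derivative at `0` have the same derivative in the
representation. Proof: `r s = (γ s)⁻¹ * δ s` has the derivative `-A + A = 0` (`HasD.mul`), so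
`ρ (r s)` has the derivative `0`, and `ρ (δ s) = ρ (γ s) * ρ (r s)`. -/
theorem hasD_rho_congr {γ δ : ℝ → Gp n} {A : Mx n} {B : Matrix ι ι ℂ} (hγ0 : γ 0 = 1)
    (hδ0 : δ 0 = 1) (hγ : HasD (fun s => (((γ s)⁻¹ : Gp n) : Mx n)) (-A))
    (hδ : HasD (fun s => (δ s : Mx n)) A) (h : HasD (fun s => R.ρ (γ s)) B) :
    HasD (fun s => R.ρ (δ s)) B := by
  have h1 : HasD (fun s => ((((γ s)⁻¹ * δ s : Gp n)) : Mx n)) (0 : Mx n) := by
    have h2 := hγ.mul hδ
    rw [hγ0, hδ0, inv_one, coe_gone, mul_one, one_mul, neg_add_cancel] at h2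
    exact h2
  have h3 := hasD_rho_of_zero R (γ := fun s => (γ s)⁻¹ * δ s) (by
    show (γ 0)⁻¹ * δ 0 = 1
    rw [hγ0, hδ0, inv_one, one_mul]) h1
  have h4 := h.mul h3
  have h5 : B * R.ρ ((γ 0)⁻¹ * δ 0) + R.ρ (γ 0) * 0 = B := by
    rw [hγ0, hδ0, inv_one, one_mul, map_one, mul_one, mul_zero, add_zero]
  rw [h5] at h4
  refine h4.congr fun s => ?_
  rw [← map_mul, mul_inv_cancel_left]

theorem mB3_ex {u : Gp n} (hu : u ∈ SU n) (H : aa n) :
    HasD (fun s : ℝ => (ex u H s : Mx n)) (cj u H) := by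
  have h := hasD_ex hu H 1
  rw [one_smul] at h
  refine h.congr fun s => ?_
  rw [mul_one]

theorem mB3_ex_inv {u : Gp n} (hu : u ∈ SU n) (H : aa n) :
    HasD (fun s : ℝ => (((ex u H s)⁻¹ : Gp n) : Mx n)) (-cj u H) := by
  have h := hasD_ex hu H (-1)
  rw [neg_smul, one_smul] at h
  refine h.congr fun s => ?_
  rw [mul_neg, mul_one, ex_inv]

theorem mB3_rho_ex {u : Gp n} (hu : u ∈ SU n) (H : aa n) :
    HasD (fun s : ℝ => R.ρ (ex u H s)) (Zm R u H) := by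
  have h := hasD_rho_ex R hu H 1
  rw [one_smul] at h
  refine h.congr fun s => ?_
  rw [mul_one]

/-- Additivity of `Zm`. Proof: `γ s = ex u H s`, `δ s = ex u₁ H₁ s * ex u₂ H₂ s` have the same
derivative at `0` (`hasD_ex`, `HasD.mul`); `hasD_rho_congr`, `hasD_rho_ex`, `HasD.unique`. -/
theorem Zm_add {u u₁ u₂ : Gp n} (hu : u ∈ SU n) (hu₁ : u₁ ∈ SU n) (hu₂ : u₂ ∈ SU n)
    {H H₁ H₂ : aa n} (h : cj u H = cj u₁ H₁ + cj u₂ H₂) :
    Zm R u H = Zm R u₁ H₁ + Zm R u₂ H₂ := by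
  have e0 : ∀ (v : Gp n) (K : aa n), ex v K ((0 : ℝ) : ℂ) = 1 := by
    intro v K
    rw [Complex.ofReal_zero, ex_zero]
  have h1 : HasD (fun s : ℝ => ((ex u₁ H₁ s * ex u₂ H₂ s : Gp n) : Mx n)) (cj u H) := by
    have h2 := (mB3_ex hu₁ H₁).mul (mB3_ex hu₂ H₂)
    rw [e0, e0, coe_gone, mul_one, one_mul, ← h] at h2
    exact h2
  have h3 := hasD_rho_congr R (γ := fun s : ℝ => ex u H s)
    (δ := fun s : ℝ => ex u₁ H₁ s * ex u₂ H₂ s) (e0 u H)
    (by show ex u₁ H₁ ((0 : ℝ) : ℂ) * ex u₂ H₂ ((0 : ℝ) : ℂ) = 1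
        rw [e0, e0, one_mul])
    (mB3_ex_inv hu H) h1 (mB3_rho_ex R hu H)
  have h4 := (mB3_rho_ex R hu₁ H₁).mul (mB3_rho_ex R hu₂ H₂)
  rw [e0, e0, map_one, mul_one, one_mul] at h4
  refine h3.unique (h4.congr fun s => ?_)
  rw [map_mul]

theorem mB3_cj_smul (u : Gp n) (H : aa n) (t : ℝ) : cj u (t • H) = (t : ℂ) • cj u H := by
  have h1 : Matrix.diagonal (fun i => (((t • H : aa n).1 i : ℝ) : ℂ)) =
      (t : ℂ) • Matrix.diagonal (fun i => (H.1 i : ℂ)) := by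
    rw [← Matrix.diagonal_smul]
    congr 1
    funext i
    simp
  unfold cj
  rw [h1, Matrix.mul_smul, Matrix.smul_mul]

theorem mB3_lam_smul (a : ι) (H : aa n) (t : ℝ) : R.lam a (t • H) = t * R.lam a H := by
  unfold Rep.lam
  rw [Finset.mul_sum]
  refine Finset.sum_congr rfl fun j _ => ?_
  have h1 : (t • H : aa n).1 j = t * H.1 j := rfl
  rw [h1]
  ring

theorem mB3_Zm_smul (u : Gp n) (H : aa n) (t : ℝ) : Zm R u (t • H) = (t : ℂ) • Zm R u H := by
  have h1 : Matrix.diagonal (fun a => (R.lam a (t • H) : ℂ)) =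
      (t : ℂ) • Matrix.diagonal (fun a => (R.lam a H : ℂ)) := by
    rw [← Matrix.diagonal_smul]
    congr 1
    funext a
    rw [mB3_lam_smul]
    simp
  unfold Zm
  rw [h1, Matrix.mul_smul, Matrix.smul_mul]

theorem Zm_smul {u u' : Gp n} (hu : u ∈ SU n) (hu' : u' ∈ SU n) {H H' : aa n} (t : ℝ)
    (h : cj u H = (t : ℂ) • cj u' H') : Zm R u H = (t : ℂ) • Zm R u' H' := by
  rw [← mB3_Zm_smul]
  exact Zm_congr R hu hu' (by rw [h, mB3_cj_smul])

end Pool.Agent.SG
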