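import Pool.Agent.H.MP_e23cd6_ag.SG.M.B3

/-!
# Block M: the derivative `dR` of a representation (a complex linear map on all `n × n` matrices,
zero on the scalar matrices)
-/

set_option autoImplicit false

open Matrix Topology Filter

namespace Pool.Agent.SG

variable {n : ℕ}

/-- The trace zero part of the Hermitian part. -/
noncomputable def hp (ζ : Mx n) : Mx n :=
  (1 / 2 : ℂ) • (ζ + ζᴴ) - ((((1 / 2 : ℂ) • (ζ + ζᴴ)).trace) / n) • (1 : Mx n)

theorem mC_trace_star (ζ : Mx n) : (ζᴴ).trace = star ζ.trace := Matrix.trace_conjTranspose ζ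

theorem mC_star_half : star (1 / 2 : ℂ) = 1 / 2 := by
  have h : (1 / 2 : ℂ) = ((1 / 2 : ℝ) : ℂ) := by push_cast; rfl
  rw [h]
  exact Complex.conj_ofReal _

theorem mC_star_nat (m : ℕ) : star (m : ℂ) = m := by
  have h : (m : ℂ) = ((m : ℝ) : ℂ) := by push_cast; rfl
  rw [h]
  exact Complex.conj_ofReal _

theorem mC_star_ofReal (t : ℝ) : star (t : ℂ) = t := Complex.conj_ofReal _

/-- `hp` in terms of the entries. -/
theorem mC_hp_apply (ζ : Mx n) (i j : Fin n) : hp ζ i j =
    1 / 2 * (ζ i j + star (ζ j i)) - 1 / 2 * (ζ.trace + star ζ.trace) / n * (1 : Mx n) i j := by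
  unfold hp
  rw [Matrix.sub_apply, Matrix.smul_apply, Matrix.smul_apply, Matrix.add_apply,
    Matrix.conjTranspose_apply, Matrix.trace_smul, Matrix.trace_add, mC_trace_star]
  simp only [smul_eq_mul]

theorem mC_one_trace_div (h : n ≠ 0) (c : ℂ) : (c / n) * (1 : Mx n).trace = c := by
  rw [Matrix.trace_one, Fintype.card_fin]
  have h1 : (n : ℂ) ≠ 0 := by exact_mod_cast h
  field_simp

theorem hp_HT (ζ : Mx n) : HT (hp ζ) := by
  refine ⟨?_, ?_⟩
  · ext i j
    rw [Matrix.conjTranspose_apply, mC_hp_apply, mC_hp_apply, star_sub, star_mul', star_mul',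
      star_add, star_star, mC_star_half, star_div₀, star_mul', star_add, star_star, mC_star_half,
      mC_star_nat]
    have h1 : star ((1 : Mx n) j i) = (1 : Mx n) i j := by
      rw [Matrix.one_apply, Matrix.one_apply]
      by_cases h : i = j
      · rw [if_pos h, if_pos h.symm, star_one]
      · rw [if_neg h, if_neg (fun e => h e.symm), star_zero]
    rw [h1]
    ring
  · by_cases h : n = 0
    · subst h
      rfl
    · unfold hp
      rw [Matrix.trace_sub, Matrix.trace_smul _ (1 : Mx n), smul_eq_mul, mC_one_trace_div h, sub_self]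

/-- `hp` is additive. -/
theorem hp_add (ζ η : Mx n) : hp (ζ + η) = hp ζ + hp η := by
  ext i j
  rw [Matrix.add_apply, mC_hp_apply, mC_hp_apply, mC_hp_apply, Matrix.trace_add, Matrix.add_apply,
    Matrix.add_apply, star_add, star_add]
  ring

theorem hp_smul (t : ℝ) (ζ : Mx n) : hp ((t : ℂ) • ζ) = (t : ℂ) • hp ζ := by
  ext i j
  rw [Matrix.smul_apply, mC_hp_apply, mC_hp_apply, Matrix.trace_smul, Matrix.smul_apply,
    Matrix.smul_apply]
  simp only [smul_eq_mul]
  rw [star_mul', star_mul', mC_star_ofReal]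
  ring

/-- `hp ξ = ξ` for Hermitian matrices of trace zero. -/
theorem HT.hp {ξ : Mx n} (h : HT ξ) : Pool.Agent.SG.hp ξ = ξ := by
  ext i j
  rw [mC_hp_apply, h.2, star_zero, h.1.apply i j]
  ring

/-- `hp (i ξ) = 0` for Hermitian matrices. -/
theorem HT.hp_I {ξ : Mx n} (h : HT ξ) : Pool.Agent.SG.hp (Complex.I • ξ) = 0 := by
  ext i j
  rw [mC_hp_apply, Matrix.trace_smul, h.2, Matrix.smul_apply, Matrix.smul_apply,
    Matrix.zero_apply]
  simp only [smul_eq_mul]
  rw [star_mul', h.1.apply i j]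
  have h1 : star Complex.I = -Complex.I := Complex.conj_I
  rw [h1]
  simp

theorem hp_one (c : ℂ) : hp (c • (1 : Mx n)) = 0 := by
  by_cases hn : n = 0
  · subst hn
    ext i j
    exact i.elim0
  have h0 : (n : ℂ) ≠ 0 := by exact_mod_cast hn
  ext i j
  rw [mC_hp_apply, Matrix.trace_smul, Matrix.trace_one, Fintype.card_fin, Matrix.smul_apply,
    Matrix.smul_apply, Matrix.zero_apply]
  simp only [smul_eq_mul]
  have h1 : star ((1 : Mx n) j i) = (1 : Mx n) i j := by
    rw [Matrix.one_apply, Matrix.one_apply]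
    by_cases h : i = j
    · rw [if_pos h, if_pos h.symm, star_one]
    · rw [if_neg h, if_neg (fun e => h e.symm), star_zero]
  rw [star_mul', star_mul', h1, mC_star_nat]
  field_simp
  ring

/-- Decomposition of a matrix: `ζ = (tr ζ / n) + hp ζ + i hp (-i ζ)`. -/
theorem hp_decomp (ζ : Mx n) :
    ζ = (ζ.trace / n) • (1 : Mx n) + hp ζ + Complex.I • hp (-Complex.I • ζ) := by
  ext i j
  rw [Matrix.add_apply, Matrix.add_apply, Matrix.smul_apply, Matrix.smul_apply, mC_hp_apply,
    mC_hp_apply, Matrix.trace_smul, Matrix.smul_apply, Matrix.smul_apply]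
  simp only [smul_eq_mul]
  rw [star_mul', star_mul', star_neg]
  have h1 : star Complex.I = -Complex.I := Complex.conj_I
  rw [h1, neg_neg]
  have h2 : Complex.I * Complex.I = -1 := Complex.I_mul_I
  linear_combination (1 / 2 * (ζ i j) - 1 / 2 * star (ζ j i)
    - 1 / 2 * ζ.trace / n * (1 : Mx n) i j + 1 / 2 * star ζ.trace / n * (1 : Mx n) i j) * h2

theorem hp_star (ζ : Mx n) : hp ζᴴ = hp ζ := by
  unfold hp
  rw [Matrix.conjTranspose_conjTranspose, add_comm]

/-- Induction principle: from `hp_decomp`. -/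
theorem Mx_ind {P : Mx n → Prop} (hone : P 1) (hH : ∀ u ∈ SU n, ∀ H : aa n, P (cj u H))
    (hadd : ∀ ζ η, P ζ → P η → P (ζ + η)) (hsmul : ∀ (c : ℂ) ζ, P ζ → P (c • ζ)) (ζ : Mx n) :
    P ζ := by
  have h1 : ∀ η : Mx n, P (hp η) := by
    intro η
    obtain ⟨u, hu, H, e⟩ := (hp_HT η).exists_cj
    rw [e]
    exact hH u hu H
  rw [hp_decomp ζ]
  exact hadd _ _ (hadd _ _ (hsmul _ _ hone) (h1 _)) (hsmul _ _ (h1 _))

variable {ι : Type} [Fintype ι] [DecidableEq ι] (R : Rep n ι)

end Pool.Agent.SG
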