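import Pool.Agent.H.MP_e23cd6_ag.SG.M.C

/-!
# Block M: the derivative `dR` of a representation (a complex linear map on all `n × n` matrices,
zero on the scalar matrices) (continued)
-/

set_option autoImplicit false

open Matrix Topology Filter

namespace Pool.Agent.SG

variable {n : ℕ} {ι : Type} [Fintype ι] [DecidableEq ι] (R : Rep n ι)

/-- Existence of the derivative. Proof: define `Z₀ ξ = Zm R u H` if `ξ = cj u H` (choice, `Zm_congr`)
for `ξ` in `HT` and `Z₀ ξ = 0` otherwise; put `T ζ = Z₀ (hp ζ) + i Z₀ (hp (-i ζ))`; it is additive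
by `Zm_add`, real homogeneous by `Zm_smul`, and `T (i ζ) = Z₀ (hp (i ζ)) + i Z₀ (hp ζ) = i T ζ`
since `hp (i ζ) = - hp (-i ζ)`. -/
theorem exists_dR : ∃ T : Mx n →ₗ[ℂ] Matrix ι ι ℂ, T 1 = 0 ∧
    ∀ u ∈ SU n, ∀ H : aa n, T (cj u H) = Zm R u H := by
  classical
  obtain ⟨Z, hZ⟩ : ∃ Z : Mx n → Matrix ι ι ℂ, ∀ u ∈ SU n, ∀ H : aa n,
      Z (cj u H) = Zm R u H := by
    refine ⟨fun ξ => if h : ∃ w : Gp n × aa n, w.1 ∈ SU n ∧ ξ = cj w.1 w.2 then
      Zm R h.choose.1 h.choose.2 else 0, fun u hu H => ?_⟩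
    have h : ∃ w : Gp n × aa n, w.1 ∈ SU n ∧ cj u H = cj w.1 w.2 := ⟨(u, H), hu, rfl⟩
    show (if h : ∃ w : Gp n × aa n, w.1 ∈ SU n ∧ cj u H = cj w.1 w.2 then
      Zm R h.choose.1 h.choose.2 else 0) = Zm R u H
    rw [dif_pos h]
    exact (Zm_congr R hu h.choose_spec.1 h.choose_spec.2).symm
  have hadd : ∀ ξ η : Mx n, HT ξ → HT η → Z (ξ + η) = Z ξ + Z η := by
    intro ξ η hξ hη
    obtain ⟨u₁, hu₁, H₁, e₁⟩ := hξ.exists_cj
    obtain ⟨u₂, hu₂, H₂, e₂⟩ := hη.exists_cj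
    obtain ⟨u, hu, H, e⟩ := (hξ.add hη).exists_cj
    have e' : cj u H = cj u₁ H₁ + cj u₂ H₂ := by rw [← e, e₁, e₂]
    rw [e, e₁, e₂, hZ u hu, hZ u₁ hu₁, hZ u₂ hu₂]
    exact Zm_add R hu hu₁ hu₂ e'
  have hsm : ∀ (t : ℝ) (ξ : Mx n), HT ξ → Z ((t : ℂ) • ξ) = (t : ℂ) • Z ξ := by
    intro t ξ hξ
    obtain ⟨u₁, hu₁, H₁, e₁⟩ := hξ.exists_cj
    obtain ⟨u, hu, H, e⟩ := (hξ.smul t).exists_cj
    have e' : cj u H = (t : ℂ) • cj u₁ H₁ := by rw [← e, e₁]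
    rw [e, e₁, hZ u hu, hZ u₁ hu₁]
    exact Zm_smul R hu hu₁ t e'
  have hneg : ∀ ζ : Mx n, Z (hp (-ζ)) = -Z (hp ζ) := by
    intro ζ
    have h1 : hp (-ζ) = ((-1 : ℝ) : ℂ) • hp ζ := by
      rw [← hp_smul]
      simp
    rw [h1, hsm _ _ (hp_HT ζ)]
    simp
  obtain ⟨T, hT⟩ : ∃ T : Mx n → Matrix ι ι ℂ, ∀ ζ, T ζ = Z (hp ζ) +
      Complex.I • Z (hp (-Complex.I • ζ)) := ⟨_, fun _ => rfl⟩
  have hTadd : ∀ ζ η, T (ζ + η) = T ζ + T η := by
    intro ζ η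
    rw [hT, hT, hT, hp_add, smul_add, hp_add, hadd _ _ (hp_HT _) (hp_HT _),
      hadd _ _ (hp_HT _) (hp_HT _), smul_add]
    abel
  have hTr : ∀ (t : ℝ) ζ, T ((t : ℂ) • ζ) = (t : ℂ) • T ζ := by
    intro t ζ
    rw [hT, hT, hp_smul, smul_comm (-Complex.I) (t : ℂ) ζ, hp_smul, hsm _ _ (hp_HT _),
      hsm _ _ (hp_HT _), smul_add, smul_comm Complex.I (t : ℂ)]
  have hTI : ∀ ζ, T (Complex.I • ζ) = Complex.I • T ζ := by
    intro ζ
    have h1 : -Complex.I • Complex.I • ζ = ζ := by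
      rw [smul_smul, neg_mul, Complex.I_mul_I, neg_neg, one_smul]
    have h2 : Complex.I • ζ = -(-Complex.I • ζ) := by
      rw [neg_smul, neg_neg]
    rw [hT, hT, h1, h2, hneg, smul_add, smul_smul, Complex.I_mul_I, neg_one_smul]
    abel
  have hTsm : ∀ (c : ℂ) ζ, T (c • ζ) = c • T ζ := by
    intro c ζ
    have h1 : c • ζ = (c.re : ℂ) • ζ + (c.im : ℂ) • Complex.I • ζ := by
      rw [smul_smul, ← add_smul, Complex.re_add_im]
    have h2 : c • T ζ = (c.re : ℂ) • T ζ + (c.im : ℂ) • Complex.I • T ζ := by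
      rw [smul_smul, ← add_smul, Complex.re_add_im]
    rw [h1, hTadd, hTr, hTr, hTI, h2]
  have hz0 : Z 0 = 0 := by
    have h1 : HT (0 : Mx n) := by
      have h2 := (hp_HT (0 : Mx n)).smul 0
      simpa using h2
    have h2 := hadd 0 0 h1 h1
    rw [add_zero] at h2
    exact left_eq_add.1 h2
  refine ⟨{ toFun := T, map_add' := hTadd, map_smul' := hTsm }, ?_, ?_⟩
  · show T 1 = 0
    have h1 : hp (1 : Mx n) = 0 := by
      have := hp_one (n := n) 1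
      rwa [one_smul] at this
    rw [hT, h1, hp_one, hz0, smul_zero, add_zero]
  · intro u hu H
    show T (cj u H) = Zm R u H
    have h0 := HT_cj hu H
    have h1 : hp (-Complex.I • cj u H) = ((-1 : ℝ) : ℂ) • hp (Complex.I • cj u H) := by
      rw [← hp_smul]
      congr 1
      rw [smul_smul]
      simp
    rw [hT, h0.hp, h1, h0.hp_I, smul_zero, hz0, smul_zero, add_zero, hZ u hu]

/-- The derivative of the representation. -/
noncomputable def dR : Mx n →ₗ[ℂ] Matrix ι ι ℂ := (exists_dR R).choose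

theorem dR_one : dR R 1 = 0 := (exists_dR R).choose_spec.1

theorem dR_cj {u : Gp n} (hu : u ∈ SU n) (H : aa n) : dR R (cj u H) = Zm R u H :=
  (exists_dR R).choose_spec.2 u hu H

end Pool.Agent.SG
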