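import Pool.Agent.H.MP_e23cd6_ag.SG.M.C2

/-!
# Block M: the derivative `dR` of a representation (a complex linear map on all `n × n` matrices,
zero on the scalar matrices) (continued)
-/

set_option autoImplicit false

open Matrix Topology Filter

namespace Pool.Agent.SG

variable {n : ℕ} {ι : Type} [Fintype ι] [DecidableEq ι] (R : Rep n ι)

/-- By `Mx_ind` (the statement for `ζ` is stable under complex multiples) and `Zm_herm`. -/
theorem dR_star (ζ : Mx n) : dR R ζᴴ = (dR R ζ)ᴴ := by
  refine Mx_ind (P := fun ζ => dR R ζᴴ = (dR R ζ)ᴴ) ?_ ?_ ?_ ?_ ζ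
  · rw [conjTranspose_one, dR_one, conjTranspose_zero]
  · intro u hu H
    rw [(HT_cj hu H).1.eq, dR_cj R hu, (Zm_herm R u H).eq]
  · intro a b ha hb
    rw [conjTranspose_add, map_add, map_add, conjTranspose_add, ha, hb]
  · intro c a ha
    rw [conjTranspose_smul, map_smul, map_smul, conjTranspose_smul, ha]

/-- By `Mx_ind`, `cj_conj`, `Zm_conj`. -/
theorem dR_conj {k : Gp n} (hk : k ∈ SU n) (ζ : Mx n) :
    dR R ((k : Mx n) * ζ * (k : Mx n)ᴴ) = R.ρ k * dR R ζ * (R.ρ k)ᴴ := by
  refine Mx_ind (P := fun ζ => dR R ((k : Mx n) * ζ * (k : Mx n)ᴴ) =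
    R.ρ k * dR R ζ * (R.ρ k)ᴴ) ?_ ?_ ?_ ?_ ζ
  · have h1 : (k : Mx n) * (k : Mx n)ᴴ = 1 := mul_eq_one_comm.1 (mem_SU'.1 hk)
    rw [mul_one, h1, dR_one, mul_zero, zero_mul]
  · intro u hu H
    rw [← cj_conj u H hk, dR_cj R (mul_mem hu (inv_mem hk)), dR_cj R hu, Zm_conj R u H hk]
  · intro a b ha hb
    rw [mul_add, add_mul, map_add, ha, hb, map_add, mul_add, add_mul]
  · intro c a ha
    rw [mul_smul_comm, smul_mul_assoc, map_smul, ha, map_smul, mul_smul_comm, smul_mul_assoc]

theorem mC3_expand (M : Mx n) (a b : ι) :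
    dR R M a b = ∑ i, ∑ j, M i j * dR R (Matrix.single i j (1 : ℂ)) a b := by
  conv_lhs => rw [Matrix.matrix_eq_sum_single M]
  rw [map_sum, Matrix.sum_apply]
  refine Finset.sum_congr rfl fun i _ => ?_
  rw [map_sum, Matrix.sum_apply]
  refine Finset.sum_congr rfl fun j _ => ?_
  have h1 : Matrix.single i j (M i j) = (M i j) • Matrix.single i j (1 : ℂ) := by
    rw [Matrix.smul_single, smul_eq_mul, mul_one]
  rw [h1, map_smul, Matrix.smul_apply, smul_eq_mul]

/-- `dR` passes through derivatives of curves (it is linear: expand in the matrices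
`Matrix.single i j 1`). -/
theorem HasD.dR {γ : ℝ → Mx n} {A : Mx n} (h : HasD γ A) :
    HasD (fun s => dR R (γ s)) (dR R A) := by
  intro a b
  have h1 : (fun s => Pool.Agent.SG.dR R (γ s) a b) = fun s =>
      ∑ i, ∑ j, γ s i j * Pool.Agent.SG.dR R (Matrix.single i j (1 : ℂ)) a b := by
    funext s
    exact mC3_expand R (γ s) a b
  rw [h1, mC3_expand R A a b]
  exact HasDerivAt.fun_sum fun i _ => HasDerivAt.fun_sum fun j _ => (h i j).mul_const _

theorem mC3_const {κ κ' : Type} (B : Matrix κ κ' ℂ) :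
    HasD (fun _ : ℝ => B) (0 : Matrix κ κ' ℂ) := fun _ _ => hasDerivAt_const _ _

/-- the conjugate transpose of `ex u H (i s)` -/
theorem mC3_ct {u : Gp n} (hu : u ∈ SU n) (H : aa n) (s : ℝ) :
    ct (ex u H ((s : ℂ) * Complex.I)) = ex u H ((s : ℂ) * (-Complex.I)) := by
  rw [ct_ex hu]
  congr 1
  simp

/-- `dR` is a homomorphism of Lie algebras. Proof: by `Mx_ind` (in `A`) it is enough to treat
`A = cj u H`; for the curve `k s = ex u H (s i)` in `SU n` (`ex_mem_SU`) the two sides of
`dR_conj` have at `0` the derivatives `dR (i A B - i B A)` (`HasD.mul`, `HasD.dR`, `hasD_ex`; note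
`(k s)ᴴ = ex u H (s (-i))` by `ct_ex`) and `i Z * dR B - dR B * i Z`, `Z = Zm R u H`
(`hasD_rho_ex`, `rho_SU`). -/
theorem dR_lie (A B : Mx n) : dR R (A * B - B * A) = dR R A * dR R B - dR R B * dR R A := by
  refine Mx_ind (P := fun A => dR R (A * B - B * A) = dR R A * dR R B - dR R B * dR R A)
    ?_ ?_ ?_ ?_ A
  · rw [one_mul, mul_one, sub_self, map_zero, dR_one, zero_mul, mul_zero, sub_self]
  · intro u hu H
    -- the left side
    have e0 : ex u H (((0 : ℝ) : ℂ) * Complex.I) = 1 := by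
      rw [Complex.ofReal_zero, zero_mul, ex_zero]
    have e0' : ex u H (((0 : ℝ) : ℂ) * (-Complex.I)) = 1 := by
      rw [Complex.ofReal_zero, zero_mul, ex_zero]
    have l1 : HasD (fun s : ℝ => (ex u H ((s : ℂ) * Complex.I) : Mx n) * B *
        (ex u H ((s : ℂ) * (-Complex.I)) : Mx n))
        (Complex.I • (cj u H * B - B * cj u H)) := by
      have h1 := ((hasD_ex hu H Complex.I).mul (mC3_const B)).mul (hasD_ex hu H (-Complex.I))
      have h2 : (Complex.I • cj u H * B + (ex u H (((0 : ℝ) : ℂ) * Complex.I) : Mx n) *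
          (0 : Mx n)) * (ex u H (((0 : ℝ) : ℂ) * (-Complex.I)) : Mx n) +
          (ex u H (((0 : ℝ) : ℂ) * Complex.I) : Mx n) * B * ((-Complex.I) • cj u H) =
          Complex.I • (cj u H * B - B * cj u H) := by
        rw [e0, e0', coe_gone, mul_zero, add_zero, mul_one, one_mul, smul_mul_assoc,
          mul_smul_comm, neg_smul, smul_sub, sub_eq_add_neg]
      rw [← h2]
      exact h1
    have l2 := HasD.dR R l1
    -- the right side
    have r1 : HasD (fun s : ℝ => R.ρ (ex u H ((s : ℂ) * Complex.I)) * dR R B *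
        R.ρ (ex u H ((s : ℂ) * (-Complex.I))))
        (Complex.I • (Zm R u H * dR R B - dR R B * Zm R u H)) := by
      have h1 := ((hasD_rho_ex R hu H Complex.I).mul (mC3_const (dR R B))).mul
        (hasD_rho_ex R hu H (-Complex.I))
      have h2 : (Complex.I • Zm R u H * dR R B + R.ρ (ex u H (((0 : ℝ) : ℂ) * Complex.I)) *
          (0 : Matrix ι ι ℂ)) * R.ρ (ex u H (((0 : ℝ) : ℂ) * (-Complex.I))) +
          R.ρ (ex u H (((0 : ℝ) : ℂ) * Complex.I)) * dR R B * ((-Complex.I) • Zm R u H) =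
          Complex.I • (Zm R u H * dR R B - dR R B * Zm R u H) := by
        rw [e0, e0', map_one, mul_zero, add_zero, mul_one, one_mul, smul_mul_assoc,
          mul_smul_comm, neg_smul, smul_sub, sub_eq_add_neg]
      rw [← h2]
      exact h1
    have hfun : ∀ s : ℝ, R.ρ (ex u H ((s : ℂ) * Complex.I)) * dR R B *
        R.ρ (ex u H ((s : ℂ) * (-Complex.I))) =
        dR R ((ex u H ((s : ℂ) * Complex.I) : Mx n) * B *
          (ex u H ((s : ℂ) * (-Complex.I)) : Mx n)) := by
      intro s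
      have h1 := dR_conj R (ex_mem_SU hu H s) B
      rw [← coe_ct, ← R.star, mC3_ct hu H s] at h1
      exact h1.symm
    have h3 := l2.unique (r1.congr fun s => (hfun s).symm)
    rw [map_smul] at h3
    rw [dR_cj R hu]
    exact smul_right_injective _ Complex.I_ne_zero h3
  · intro a b ha hb
    rw [add_mul, mul_add, add_sub_add_comm, map_add, ha, hb, map_add, add_mul, mul_add]
    abel
  · intro c a ha
    rw [smul_mul_assoc, mul_smul_comm, ← smul_sub, map_smul, ha, map_smul, smul_mul_assoc,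
      mul_smul_comm, smul_sub]

end Pool.Agent.SG
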