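import Pool.Agent.H.MP_e23cd6_ag.SG.M.C3

/-!
# Block M: the derivative `dR` of a representation (a complex linear map on all `n × n` matrices,
zero on the scalar matrices) (continued)
-/

set_option autoImplicit false

open Matrix Topology Filter

namespace Pool.Agent.SG

variable {n : ℕ} {ι : Type} [Fintype ι] [DecidableEq ι] (R : Rep n ι)

/-- The derivative of an arbitrary curve. Proof: `A = hp A + i hp (-i A)` by `hp_decomp`; take
`γ₁ s = ex u H s * ex u' H' (s i)` with `cj u H = hp A`, `cj u' H' = hp (-i A)` and use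
`hasD_rho_congr`. -/
theorem hasD_rho {γ : ℝ → Gp n} {A : Mx n} (hA : A.trace = 0) (h0 : γ 0 = 1)
    (h : HasD (fun s => (γ s : Mx n)) A) : HasD (fun s => R.ρ (γ s)) (dR R A) := by
  obtain ⟨u, hu, H, e⟩ := (hp_HT A).exists_cj
  obtain ⟨u', hu', H', e'⟩ := (hp_HT (-Complex.I • A)).exists_cj
  have hdec : A = cj u H + Complex.I • cj u' H' := by
    have h1 := hp_decomp A
    rw [hA, zero_div, zero_smul, zero_add, e, e'] at h1
    exact h1
  have hdR : dR R A = Zm R u H + Complex.I • Zm R u' H' := by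
    rw [hdec, map_add, map_smul, dR_cj R hu, dR_cj R hu']
  have h1 : HasD (fun s : ℝ => (ex u H (s * 1) : Mx n)) ((1 : ℂ) • cj u H) := hasD_ex hu H 1
  have h2 : HasD (fun s : ℝ => (ex u' H' (s * Complex.I) : Mx n)) (Complex.I • cj u' H') :=
    hasD_ex hu' H' Complex.I
  have h3 : HasD (fun s : ℝ => (ex u H (s * (-1)) : Mx n)) ((-1 : ℂ) • cj u H) :=
    hasD_ex hu H (-1)
  have h4 : HasD (fun s : ℝ => (ex u' H' (s * (-Complex.I)) : Mx n))
      ((-Complex.I) • cj u' H') := hasD_ex hu' H' (-Complex.I)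
  have h5 : HasD (fun s : ℝ => R.ρ (ex u H (s * 1))) ((1 : ℂ) • Zm R u H) := hasD_rho_ex R hu H 1
  have h6 : HasD (fun s : ℝ => R.ρ (ex u' H' (s * Complex.I))) (Complex.I • Zm R u' H') :=
    hasD_rho_ex R hu' H' Complex.I
  have z1 : ∀ (w : Gp n) (K : aa n) (c : ℂ), ex w K (((0 : ℝ) : ℂ) * c) = 1 := by
    intro w K c
    rw [Complex.ofReal_zero, zero_mul, ex_zero]
  have hg0 : (fun s : ℝ => ex u H (s * 1) * ex u' H' (s * Complex.I)) 0 = 1 := by
    show ex u H (((0 : ℝ) : ℂ) * 1) * ex u' H' (((0 : ℝ) : ℂ) * Complex.I) = 1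
    rw [z1, z1, one_mul]
  refine hasD_rho_congr R (γ := fun s : ℝ => ex u H (s * 1) * ex u' H' (s * Complex.I))
    (δ := γ) (A := A) hg0 h0 ?_ h ?_
  · have h7 := h4.mul h3
    have e1 : -A = (-Complex.I) • cj u' H' * ((ex u H (((0 : ℝ) : ℂ) * (-1)) : Gp n) : Mx n) +
        ((ex u' H' (((0 : ℝ) : ℂ) * (-Complex.I)) : Gp n) : Mx n) * ((-1 : ℂ) • cj u H) := by
      rw [z1, z1, Matrix.SpecialLinearGroup.coe_one, mul_one, one_mul]
      nth_rewrite 1 [hdec]
      rw [neg_smul, neg_smul, one_smul]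
      abel
    rw [e1]
    refine HasD.congr h7 (fun s => ?_)
    have e2 : (ex u H (s * 1) * ex u' H' (s * Complex.I))⁻¹ =
        ex u' H' (s * (-Complex.I)) * ex u H (s * (-1)) := by
      rw [_root_.mul_inv_rev, ex_inv, ex_inv, mul_neg, mul_neg]
    show (((ex u H (s * 1) * ex u' H' (s * Complex.I))⁻¹ : Gp n) : Mx n) = _
    rw [e2, Matrix.SpecialLinearGroup.coe_mul]
  · have h7 := h5.mul h6
    have e1 : dR R A = (1 : ℂ) • Zm R u H * R.ρ (ex u' H' (((0 : ℝ) : ℂ) * Complex.I)) +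
        R.ρ (ex u H (((0 : ℝ) : ℂ) * 1)) * (Complex.I • Zm R u' H') := by
      rw [z1, z1, map_one, mul_one, one_mul, one_smul, hdR]
    rw [e1]
    refine HasD.congr h7 (fun s => ?_)
    show R.ρ (ex u H (s * 1) * ex u' H' (s * Complex.I)) = _
    rw [map_mul]

theorem cj_one (H : aa n) : cj (1 : Gp n) H = Matrix.diagonal (fun i => (H.1 i : ℂ)) := by
  unfold cj
  rw [Matrix.SpecialLinearGroup.coe_one, Matrix.conjTranspose_one, one_mul, mul_one]

/-- From `dR_cj` with `u = 1`. -/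
theorem dR_diag (H : aa n) : dR R (Matrix.diagonal (fun i => (H.1 i : ℂ))) =
    Matrix.diagonal (fun a => (R.lam a H : ℂ)) := by
  rw [← cj_one, dR_cj R (one_mem (SU n))]
  unfold Zm
  rw [map_one, Matrix.conjTranspose_one, one_mul, mul_one]

/-- The derivative of `s ↦ ρ (1 + s z E_ij)`. -/
theorem hasD_rho_el {i j : Fin n} (h : i ≠ j) (z : ℂ) :
    HasD (fun s : ℝ => R.ρ (el h (s * z))) (dR R (z • Matrix.single i j 1)) := by
  refine hasD_rho R ?_ ?_ ?_
  · rw [Matrix.trace_smul, Matrix.trace_single_eq_of_ne i j (1 : ℂ) h, smul_zero]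
  · apply gp_ext
    show Matrix.transvection i j (((0 : ℝ) : ℂ) * z) = ((1 : Gp n) : Mx n)
    rw [Complex.ofReal_zero, zero_mul, Matrix.transvection_zero, Matrix.SpecialLinearGroup.coe_one]
  · intro a b
    have e1 : ∀ s : ℝ, ((el h (s * z) : Gp n) : Mx n) a b =
        (1 : Mx n) a b + (s : ℂ) * (z • Matrix.single i j (1 : ℂ)) a b := by
      intro s
      show Matrix.transvection i j ((s : ℂ) * z) a b = _
      unfold Matrix.transvection
      rw [Matrix.add_apply, Matrix.smul_apply, Matrix.single_apply, Matrix.single_apply]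
      split_ifs
      · simp
      · simp
    have h1 : HasDerivAt (fun s : ℝ => (1 : Mx n) a b + (s : ℂ) *
        (z • Matrix.single i j (1 : ℂ)) a b) ((z • Matrix.single i j (1 : ℂ)) a b) 0 := by
      have h2 := (Complex.ofRealCLM.hasDerivAt (x := (0 : ℝ))).mul_const
        ((z • Matrix.single i j (1 : ℂ)) a b)
      have h3 := h2.const_add ((1 : Mx n) a b)
      simpa using h3
    exact h1.congr_of_eventuallyEq (Filter.Eventually.of_forall e1)

end Pool.Agent.SG
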