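import Pool.Agent.H.MP_e23cd6_ag.SG.M.C4

/-!
# Block M: the moment map `mom`, with `tr (ζ (mom v)) = ⟨dR ζ v, v⟩ / |v|²`
-/

set_option autoImplicit false

open Matrix Topology Filter

namespace Pool.Agent.SG

variable {n : ℕ} {ι : Type} [Fintype ι] [DecidableEq ι] (R : Rep n ι)

/-- The moment map. -/
noncomputable def mom (v : ι → ℂ) : Mx n :=
  Matrix.of fun j i => ip (dR R (Matrix.single i j 1) *ᵥ v) v / (ns v : ℂ)

/-- The linear functional `A ↦ ⟨A v, v⟩`. -/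
noncomputable def mD_phi (v : ι → ℂ) : Matrix ι ι ℂ →ₗ[ℂ] ℂ where
  toFun A := ip (A *ᵥ v) v
  map_add' := fun A B => by rw [Matrix.add_mulVec, ip_add_left]
  map_smul' := fun c A => by rw [Matrix.smul_mulVec, ip_smul_left]; rfl

theorem mD_ip_adj (A : Matrix ι ι ℂ) (v w : ι → ℂ) : ip (A *ᵥ v) w = ip v (Aᴴ *ᵥ w) := by
  have h1 : ∀ x y : ι → ℂ, ip x y = x ⬝ᵥ Star.star y := fun _ _ => rfl
  rw [h1, h1, Matrix.star_mulVec, conjTranspose_conjTranspose, dotProduct_comm,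
    Matrix.dotProduct_mulVec, dotProduct_comm]

theorem mD_ip_smul_right (c : ℂ) (v w : ι → ℂ) : ip v (c • w) = star c * ip v w := by
  unfold ip
  rw [Finset.mul_sum]
  refine Finset.sum_congr rfl fun i _ => ?_
  rw [Pi.smul_apply, smul_eq_mul, star_mul]
  ring

/-- Expand `ζ` in the matrices `Matrix.single i j 1`. -/
theorem tr_mom (ζ : Mx n) (v : ι → ℂ) :
    (ζ * mom R v).trace = ip (dR R ζ *ᵥ v) v / (ns v : ℂ) := by
  have e : dR R ζ = ∑ i, ∑ j, ζ i j • dR R (Matrix.single i j 1) := by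
    conv_lhs => rw [Matrix.matrix_eq_sum_single ζ]
    rw [map_sum]
    refine Finset.sum_congr rfl fun i _ => ?_
    rw [map_sum]
    refine Finset.sum_congr rfl fun j _ => ?_
    rw [← map_smul, Matrix.smul_single, smul_eq_mul, mul_one]
  have h1 : ip (dR R ζ *ᵥ v) v =
      ∑ i, ∑ j, ζ i j * ip (dR R (Matrix.single i j 1) *ᵥ v) v := by
    have h2 : ip (dR R ζ *ᵥ v) v = mD_phi v (dR R ζ) := rfl
    rw [h2, e, map_sum]
    refine Finset.sum_congr rfl fun i _ => ?_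
    rw [map_sum]
    refine Finset.sum_congr rfl fun j _ => ?_
    rw [map_smul]
    rfl
  rw [h1, Finset.sum_div]
  unfold Matrix.trace
  refine Finset.sum_congr rfl fun i _ => ?_
  rw [Matrix.diag_apply, Matrix.mul_apply, Finset.sum_div]
  refine Finset.sum_congr rfl fun j _ => ?_
  rw [mul_div_assoc]
  rfl

/-- Trace: `tr_mom` with `ζ = 1`; Hermitian: `dR_star`. -/
theorem mom_HT (v : ι → ℂ) : HT (mom R v) := by
  constructor
  · refine Matrix.IsHermitian.ext fun j i => ?_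
    show star (ip (dR R (Matrix.single j i 1) *ᵥ v) v / (ns v : ℂ)) =
      ip (dR R (Matrix.single i j 1) *ᵥ v) v / (ns v : ℂ)
    have h1 : (Matrix.single i j (1 : ℂ)) = (Matrix.single j i (1 : ℂ))ᴴ := by
      rw [Matrix.conjTranspose_single, star_one]
    rw [h1, dR_star, mD_ip_adj, star_div₀, ip_star]
    congr 1
    exact Complex.conj_ofReal _
  · have h := tr_mom R (1 : Mx n) v
    rw [one_mul, dR_one, Matrix.zero_mulVec] at h
    rw [h]
    simp [ip]

theorem mom_smul {c : ℂ} (hc : c ≠ 0) (v : ι → ℂ) : mom R (c • v) = mom R v := by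
  ext j i
  show ip (dR R (Matrix.single i j 1) *ᵥ (c • v)) (c • v) / (ns (c • v) : ℂ) =
    ip (dR R (Matrix.single i j 1) *ᵥ v) v / (ns v : ℂ)
  have hc' : (c * star c : ℂ) ≠ 0 := mul_ne_zero hc (star_ne_zero.2 hc)
  have h1 : ((ns (c • v) : ℝ) : ℂ) = (c * star c) * (ns v : ℂ) := by
    rw [← ip_self, ← ip_self, ip_smul_left, mD_ip_smul_right, mul_assoc]
  rw [h1, Matrix.mulVec_smul, ip_smul_left, mD_ip_smul_right, ← mul_assoc,
    mul_div_mul_left _ _ hc']

/-- A matrix is determined by the traces `tr (ζ M)`. -/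
theorem mx_ext_trace {M M' : Mx n} (h : ∀ ζ : Mx n, (ζ * M).trace = (ζ * M').trace) : M = M' := by
  ext j i
  have h1 := h (Matrix.single i j 1)
  rw [Matrix.trace_single_mul, Matrix.trace_single_mul, one_smul, one_smul] at h1
  exact h1

/-- From `mx_ext_trace`, `tr_mom` and `dR_conj` (for `k⁻¹`). -/
theorem mom_act {k : Gp n} (hk : k ∈ SU n) (v : ι → ℂ) :
    mom R (R.act k v) = (k : Mx n) * mom R v * (k : Mx n)ᴴ := by
  refine mx_ext_trace fun ζ => ?_
  have hk' : k⁻¹ ∈ SU n := (SU n).inv_mem hk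
  have hc : ((k⁻¹ : Gp n) : Mx n) = (k : Mx n)ᴴ := by
    rw [← mem_SU.1 hk, coe_ct]
  have hρ : R.ρ k⁻¹ = (R.ρ k)ᴴ := (rho_SU R hk).symm
  have h1 : (ζ * ((k : Mx n) * mom R v * (k : Mx n)ᴴ)).trace =
      (((k : Mx n)ᴴ * ζ * (k : Mx n)) * mom R v).trace := by
    rw [← Matrix.mul_assoc, Matrix.trace_mul_comm]
    congr 1
    simp only [Matrix.mul_assoc]
  have h2 := dR_conj R hk' ζ
  rw [hc, conjTranspose_conjTranspose, hρ, conjTranspose_conjTranspose] at h2
  rw [h1, tr_mom, tr_mom, h2, R.ns_act_SU hk]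
  congr 1
  unfold Rep.act
  rw [Matrix.mul_assoc, ← Matrix.mulVec_mulVec, mD_ip_adj (R.ρ k)ᴴ,
    conjTranspose_conjTranspose, ← Matrix.mulVec_mulVec]

/-- The trace of `(u^* H u) (mom v)` as a mean value. -/
theorem tr_cj_mom {u : Gp n} (hu : u ∈ SU n) (H : aa n) (v : ι → ℂ) :
    (cj u H * mom R v).trace = ((∑ a, ‖R.act u v a‖ ^ 2 * R.lam a H) / ns v : ℝ) := by
  have h1 : ip (Zm R u H *ᵥ v) v = ((∑ a, ‖R.act u v a‖ ^ 2 * R.lam a H : ℝ) : ℂ) := by
    unfold Zm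
    rw [Matrix.mul_assoc, ← Matrix.mulVec_mulVec, mD_ip_adj, conjTranspose_conjTranspose,
      ← Matrix.mulVec_mulVec]
    unfold ip
    rw [Complex.ofReal_sum]
    refine Finset.sum_congr rfl fun a _ => ?_
    rw [Matrix.mulVec_diagonal]
    show (R.lam a H : ℂ) * R.act u v a * star (R.act u v a) = _
    have h2 : R.act u v a * star (R.act u v a) = ((‖R.act u v a‖ ^ 2 : ℝ) : ℂ) := by
      have := Complex.mul_conj (R.act u v a)
      rw [Complex.normSq_eq_norm_sq] at this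
      exact this
    rw [mul_assoc, h2, Complex.ofReal_mul, mul_comm]
  rw [tr_mom, dR_cj R hu, h1, Complex.ofReal_div]

/-- For a diagonal `H`. -/
theorem tr_diag_mom (H : aa n) (v : ι → ℂ) :
    ∑ i, (H.1 i : ℂ) * mom R v i i = ((∑ a, ‖v a‖ ^ 2 * R.lam a H) / ns v : ℝ) := by
  have h := tr_cj_mom R (SU n).one_mem H v
  rw [cj_one, R.act_one] at h
  rw [← h]
  unfold Matrix.trace
  refine Finset.sum_congr rfl fun i _ => ?_
  rw [Matrix.diag_apply, Matrix.diagonal_mul]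

end Pool.Agent.SG
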