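import Pool.Agent.H.MP_e23cd6_ag.SG.M.D

/-!
# Block M: the moment map `mom`, with `tr (ζ (mom v)) = ⟨dR ζ v, v⟩ / |v|²` (continued)
-/

set_option autoImplicit false

open Matrix Topology Filter

namespace Pool.Agent.SG

variable {n : ℕ} {ι : Type} [Fintype ι] [DecidableEq ι] (R : Rep n ι)

omit [DecidableEq ι] in
theorem mD2_ns_pos {v : ι → ℂ} (hv : v ≠ 0) : 0 < ns v := by
  obtain ⟨i, hi⟩ := Function.ne_iff.1 hv
  have h1 : 0 < ‖v i‖ ^ 2 := by
    have : 0 < ‖v i‖ := norm_pos_iff.2 hi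
    positivity
  exact lt_of_lt_of_le h1 (Finset.single_le_sum (f := fun i => ‖v i‖ ^ 2)
    (fun i _ => sq_nonneg _) (Finset.mem_univ i))

theorem mD2_act_ne (g : Gp n) {v : ι → ℂ} (h : v ≠ 0) : R.act g v ≠ 0 := by
  intro e
  apply h
  have h1 := congrArg (R.act g⁻¹) e
  have h2 : R.act g⁻¹ (R.act g v) = v := by
    unfold Rep.act
    rw [Matrix.mulVec_mulVec, ← map_mul, inv_mul_cancel, map_one, Matrix.one_mulVec]
  have h3 : R.act g⁻¹ 0 = 0 := by
    unfold Rep.act
    rw [Matrix.mulVec_zero]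
  rw [← h2, h1, h3]

/-- The value `⟨Z v, v⟩ / |v|²` of an arbitrary matrix `Z` is a continuous function of the
point. -/
theorem continuous_ip {X : Type} [TopologicalSpace X] {act : Gp n → X → X} (D : PDat n X act)
    (Z : Matrix D.ι D.ι ℂ) : Continuous fun y => ip (Z *ᵥ D.v y) (D.v y) / (ns (D.v y) : ℂ) := by
  have e : ∀ y, ip (Z *ᵥ D.v y) (D.v y) / (ns (D.v y) : ℂ) =
      ∑ a, ∑ b, Z a b * (D.v y b * star (D.v y a) / (ns (D.v y) : ℂ)) := by
    intro y
    unfold ip
    rw [Finset.sum_div]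
    refine Finset.sum_congr rfl fun a _ => ?_
    rw [show (Z *ᵥ D.v y) a = ∑ b, Z a b * D.v y b from rfl, Finset.sum_mul, Finset.sum_div]
    refine Finset.sum_congr rfl fun b _ => ?_
    ring
  simp only [e]
  exact continuous_finsetSum _ fun a _ => continuous_finsetSum _ fun b _ =>
    continuous_const.mul (D.contP b a)

theorem continuous_mom {X : Type} [TopologicalSpace X] {act : Gp n → X → X} (D : PDat n X act) :
    Continuous fun y => mom D.R (D.v y) := by
  unfold mom
  exact continuous_matrix fun j i => continuous_ip D _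

/-- From `ip (R.act g v) (R.act g v) = ip (R.ρ (ct g * g) *ᵥ v) v`; `ns (act g v) / ns v` is a
continuous function of `(g, y)`, different from zero. -/
theorem PDat.continuous_lg {X : Type} [TopologicalSpace X] {act : Gp n → X → X}
    (D : PDat n X act) : Continuous fun w : Gp n × X => D.lg w.1 w.2 := by
  have h1 : ∀ w : Gp n × X, ns (D.R.act w.1 (D.v w.2)) / ns (D.v w.2) =
      (∑ i, ∑ j, ∑ k, D.R.ρ w.1 i j * star (D.R.ρ w.1 i k) *
        (D.v w.2 j * star (D.v w.2 k) / (ns (D.v w.2) : ℂ))).re := by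
    intro w
    have h2 : ((ns (D.R.act w.1 (D.v w.2)) / ns (D.v w.2) : ℝ) : ℂ) =
        ∑ i, ∑ j, ∑ k, D.R.ρ w.1 i j * star (D.R.ρ w.1 i k) *
          (D.v w.2 j * star (D.v w.2 k) / (ns (D.v w.2) : ℂ)) := by
      rw [Complex.ofReal_div]
      conv_lhs => rw [show ns (D.R.act w.1 (D.v w.2)) =
        ∑ i, ‖D.R.act w.1 (D.v w.2) i‖ ^ 2 from rfl]
      rw [Complex.ofReal_sum, Finset.sum_div]
      refine Finset.sum_congr rfl fun i _ => ?_
      rw [Complex.ofReal_pow, ← Complex.mul_conj']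
      have h3 : D.R.act w.1 (D.v w.2) i = ∑ j, D.R.ρ w.1 i j * D.v w.2 j := rfl
      rw [h3, map_sum, Finset.sum_mul_sum, Finset.sum_div]
      refine Finset.sum_congr rfl fun j _ => ?_
      rw [Finset.sum_div]
      refine Finset.sum_congr rfl fun k _ => ?_
      rw [map_mul]
      show _ * _ * (star _ * star _) / _ = _
      ring
    rw [← h2, Complex.ofReal_re]
  have h4 : ∀ w : Gp n × X, D.lg w.1 w.2 =
      Real.log (ns (D.R.act w.1 (D.v w.2)) / ns (D.v w.2)) / 2 := by
    intro w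
    unfold PDat.lg
    have e1 : ns (D.R.act w.1 (D.v w.2)) ≠ 0 := (mD2_ns_pos (mD2_act_ne D.R w.1 (D.ne w.2))).ne'
    have e2 : ns (D.v w.2) ≠ 0 := (mD2_ns_pos (D.ne w.2)).ne'
    rw [Real.log_div e1 e2]
  have h5 : ∀ w : Gp n × X, ns (D.R.act w.1 (D.v w.2)) / ns (D.v w.2) ≠ 0 := fun w =>
    (div_pos (mD2_ns_pos (mD2_act_ne D.R w.1 (D.ne w.2))) (mD2_ns_pos (D.ne w.2))).ne'
  have h6 : Continuous fun w : Gp n × X => ns (D.R.act w.1 (D.v w.2)) / ns (D.v w.2) := by
    rw [funext h1]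
    refine Complex.continuous_re.comp (continuous_finsetSum _ fun i _ =>
      continuous_finsetSum _ fun j _ => continuous_finsetSum _ fun k _ => ?_)
    refine Continuous.mul (Continuous.mul ?_ ?_) ?_
    · exact (D.R.cont.matrix_elem i j).comp continuous_fst
    · exact continuous_star.comp ((D.R.cont.matrix_elem i k).comp continuous_fst)
    · exact (D.contP j k).comp continuous_snd
  rw [funext h4]
  exact (h6.log h5).div_const 2

/-- The moment map at the point `g y`. -/
theorem PDat.mom_act {X : Type} [TopologicalSpace X] {act : Gp n → X → X} (D : PDat n X act)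
    (g : Gp n) (y : X) : mom D.R (D.v (act g y)) = mom D.R (D.R.act g (D.v y)) := by
  obtain ⟨z, hz, e⟩ := D.eqv g y
  rw [e, mom_smul D.R hz]

end Pool.Agent.SG
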