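import Pool.Agent.H.MP_e23cd6_ag.SG.M.D2

/-!
# Block M: the moment map `mom`, with `tr (ζ (mom v)) = ⟨dR ζ v, v⟩ / |v|²` (continued)
-/

set_option autoImplicit false

open Matrix Topology Filter

namespace Pool.Agent.SG

variable {n : ℕ} {ι : Type} [Fintype ι] [DecidableEq ι] (R : Rep n ι)

omit [DecidableEq ι] in
theorem mD3_ns_pos {v : ι → ℂ} (hv : v ≠ 0) : 0 < ns v := by
  obtain ⟨i, hi⟩ := Function.ne_iff.1 hv
  have h1 : v i ≠ 0 := hi
  exact Finset.sum_pos' (fun _ _ => sq_nonneg _) ⟨i, Finset.mem_univ i,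
    pow_pos (norm_pos_iff.2 h1) 2⟩

theorem mD3_w (H : aa n) (v : ι → ℂ) (a : ι) :
    DifferentiableAt ℝ (fun s : ℝ => R.act (dg H s) v a) 0 := by
  have h1 : (fun s : ℝ => R.act (dg H s) v a) =
      fun s : ℝ => Complex.exp ((s : ℂ) * (R.lam a H : ℂ)) * v a := by
    funext s
    exact R.act_dg H s v a
  rw [h1]
  have h2 : DifferentiableAt ℝ (fun s : ℝ => (s : ℂ)) 0 := Complex.ofRealCLM.differentiableAt
  exact ((h2.mul_const _).cexp).mul_const _

theorem mD3_ip (Z : Matrix ι ι ℂ) (H : aa n) (v : ι → ℂ) :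
    DifferentiableAt ℝ (fun s : ℝ => ip (Z *ᵥ R.act (dg H s) v) (R.act (dg H s) v)) 0 := by
  unfold ip
  refine DifferentiableAt.fun_sum fun a _ => ?_
  refine DifferentiableAt.mul ?_ (mD3_w R H v a).star
  unfold Matrix.mulVec dotProduct
  exact DifferentiableAt.fun_sum fun b _ => (mD3_w R H v b).const_mul _

theorem mD3_sum (H : aa n) (v : ι → ℂ) (c : ι → ℝ) :
    HasDerivAt (fun s : ℝ => ∑ a, Real.exp (2 * s * R.lam a H) * ‖v a‖ ^ 2 * c a)
      (∑ a, 2 * R.lam a H * ‖v a‖ ^ 2 * c a) 0 := by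
  refine HasDerivAt.fun_sum fun a _ => ?_
  have h1 : HasDerivAt (fun s : ℝ => 2 * s * R.lam a H) (2 * R.lam a H) 0 := by
    have h2 := ((hasDerivAt_id (0 : ℝ)).const_mul 2).mul_const (R.lam a H)
    simpa using h2
  have h3 := (h1.exp.mul_const (‖v a‖ ^ 2)).mul_const (c a)
  simpa using h3

theorem mD3_ns (H : aa n) (v : ι → ℂ) :
    HasDerivAt (fun s : ℝ => ns (R.act (dg H s) v)) (∑ a, 2 * R.lam a H * ‖v a‖ ^ 2) 0 := by
  have h1 := mD3_sum R H v (fun _ => 1)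
  simp only [mul_one] at h1
  have h2 : (fun s : ℝ => ns (R.act (dg H s) v)) =
      fun s : ℝ => ∑ a, Real.exp (2 * s * R.lam a H) * ‖v a‖ ^ 2 := by
    funext s
    exact R.ns_act_dg H s v
  rw [h2]
  exact h1

theorem mD3_zero (H : aa n) (v : ι → ℂ) : R.act (dg H ((0 : ℝ) : ℂ)) v = v := by
  rw [Complex.ofReal_zero, dg_zero, R.act_one]

/-- The entries of the moment map are differentiable along a diagonal one-parameter group. -/
theorem mom_diff (H : aa n) {v : ι → ℂ} (hv : v ≠ 0) (i j : Fin n) :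
    DifferentiableAt ℝ (fun s : ℝ => mom R (R.act (dg H s) v) i j) 0 := by
  have h1 := mD3_ip R (dR R (Matrix.single j i 1)) H v
  have h2 : DifferentiableAt ℝ (fun s : ℝ => (ns (R.act (dg H s) v) : ℂ)) 0 :=
    ((mD3_ns R H v).ofReal_comp).differentiableAt
  refine h1.div h2 ?_
  rw [mD3_zero]
  exact Complex.ofReal_ne_zero.2 (mD3_ns_pos hv).ne'

/-- The derivative of `s ↦ ∑ i, H_i (mom (exp (s H) v))_ii` at `0` is twice the variance. Here the
mean value at `0` is assumed to be zero. -/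
theorem hasDeriv_tr_mom (H : aa n) {v : ι → ℂ} (hv : v ≠ 0)
    (h0 : ∑ a, ‖v a‖ ^ 2 * R.lam a H = 0) :
    HasDerivAt (fun s : ℝ => ∑ i, (H.1 i : ℂ) * mom R (R.act (dg H s) v) i i)
      ((2 * (∑ a, ‖v a‖ ^ 2 * R.lam a H ^ 2) / ns v : ℝ) : ℂ) 0 := by
  have h1 : (fun s : ℝ => ∑ i, (H.1 i : ℂ) * mom R (R.act (dg H s) v) i i) =
      fun s : ℝ => (((∑ a, Real.exp (2 * s * R.lam a H) * ‖v a‖ ^ 2 * R.lam a H) /
        ns (R.act (dg H s) v) : ℝ) : ℂ) := by
    funext s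
    rw [tr_diag_mom]
    congr 2
    refine Finset.sum_congr rfl fun a _ => ?_
    congr 1
    rw [R.act_dg, norm_mul, mul_pow, Complex.norm_exp, ← Real.exp_nat_mul]
    congr 2
    rw [← Complex.ofReal_mul, Complex.ofReal_re]
    push_cast
    ring
  rw [h1]
  have hN := mD3_sum R H v (fun a => R.lam a H)
  have hM := mD3_ns R H v
  have hM0 : ns (R.act (dg H ((0 : ℝ) : ℂ)) v) ≠ 0 := by
    rw [mD3_zero]
    exact (mD3_ns_pos hv).ne'
  have hD := (hN.div hM hM0).ofReal_comp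
  have hz : ∑ a, Real.exp (2 * (0 : ℝ) * R.lam a H) * ‖v a‖ ^ 2 * R.lam a H = 0 := by
    refine Eq.trans ?_ h0
    refine Finset.sum_congr rfl fun a _ => ?_
    rw [mul_zero, zero_mul, Real.exp_zero, one_mul]
  rw [hz, mD3_zero] at hD
  have hv0 : ns v ≠ 0 := (mD3_ns_pos hv).ne'
  have hE : ((∑ a, 2 * R.lam a H * ‖v a‖ ^ 2 * R.lam a H) * ns v -
      0 * (∑ a, 2 * R.lam a H * ‖v a‖ ^ 2)) / ns v ^ 2 =
      2 * (∑ a, ‖v a‖ ^ 2 * R.lam a H ^ 2) / ns v := by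
    have hS : ∑ a, 2 * R.lam a H * ‖v a‖ ^ 2 * R.lam a H =
        2 * (∑ a, ‖v a‖ ^ 2 * R.lam a H ^ 2) := by
      rw [Finset.mul_sum]
      exact Finset.sum_congr rfl fun a _ => by ring
    rw [hS]
    field_simp
    ring
  rw [hE] at hD
  exact hD

end Pool.Agent.SG
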