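import Pool.Agent.H.MP_e23cd6_ag.SG.M.D3

/-!
# Block M: convexity of the logarithm of the norm along `s ↦ exp (s u^* H u) v`
-/

set_option autoImplicit false

open Matrix Topology Filter

namespace Pool.Agent.SG

/-! ## Logarithms of exponential sums -/

section lse

variable {κ : Type} [Fintype κ] {p x : κ → ℝ}

theorem mE_sum (h1 : ∑ a, p a = 1) (m : ℝ) :
    ∑ a, p a * Real.exp (2 * x a) =
      Real.exp (2 * m) * ∑ a, p a * Real.exp (2 * (x a - m)) := by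
  rw [Finset.mul_sum]
  refine Finset.sum_congr rfl fun a _ => ?_
  have : Real.exp (2 * x a) = Real.exp (2 * m) * Real.exp (2 * (x a - m)) := by
    rw [← Real.exp_add]
    congr 1
    ring
  rw [this]
  ring

theorem mE_lin (h1 : ∑ a, p a = 1) {m : ℝ} (hm : m = ∑ a, p a * x a) :
    ∑ a, p a * (2 * (x a - m) + 1) = 1 := by
  have h2 : ∀ a, p a * (2 * (x a - m) + 1) = 2 * (p a * x a) + (1 - 2 * m) * p a := by
    intro a
    ring
  rw [Finset.sum_congr rfl fun a _ => h2 a, Finset.sum_add_distrib, ← Finset.mul_sum,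
    ← Finset.mul_sum, h1, ← hm]
  ring

theorem mE_one_le (hp : ∀ a, 0 ≤ p a) (h1 : ∑ a, p a = 1) {m : ℝ} (hm : m = ∑ a, p a * x a) :
    1 ≤ ∑ a, p a * Real.exp (2 * (x a - m)) := by
  calc (1 : ℝ) = ∑ a, p a * (2 * (x a - m) + 1) := (mE_lin h1 hm).symm
    _ ≤ ∑ a, p a * Real.exp (2 * (x a - m)) := Finset.sum_le_sum fun a _ =>
      mul_le_mul_of_nonneg_left (Real.add_one_le_exp _) (hp a)

/-- `exp (2 (x a - m)) ≥ 1 + 2 (x a - m)` with `m = ∑ p a * x a`. -/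
theorem lse_ge (hp : ∀ a, 0 ≤ p a) (h1 : ∑ a, p a = 1) :
    2 * ∑ a, p a * x a ≤ Real.log (∑ a, p a * Real.exp (2 * x a)) := by
  obtain ⟨m, hm⟩ : ∃ m, m = ∑ a, p a * x a := ⟨_, rfl⟩
  have h2 := mE_one_le hp h1 hm
  rw [mE_sum h1 m, ← hm, Real.log_mul (Real.exp_ne_zero _) (by linarith), Real.log_exp]
  have := Real.log_nonneg h2
  linarith

/-- Equality case: `exp y = 1 + y` only for `y = 0` (`Real.add_one_lt_exp`). -/
theorem lse_eq (hp : ∀ a, 0 ≤ p a) (h1 : ∑ a, p a = 1)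
    (h : Real.log (∑ a, p a * Real.exp (2 * x a)) ≤ 2 * ∑ a, p a * x a) (a : κ) (ha : p a ≠ 0) :
    x a = ∑ b, p b * x b := by
  obtain ⟨m, hm⟩ : ∃ m, m = ∑ a, p a * x a := ⟨_, rfl⟩
  have h2 := mE_one_le hp h1 hm
  rw [mE_sum h1 m, ← hm, Real.log_mul (Real.exp_ne_zero _) (by linarith), Real.log_exp] at h
  have h3 : Real.log (∑ a, p a * Real.exp (2 * (x a - m))) ≤ 0 := by linarith
  have h4 : ∑ a, p a * Real.exp (2 * (x a - m)) ≤ 1 := by
    by_contra hc
    have := Real.log_pos (lt_of_not_ge hc)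
    linarith
  have h5 : ∑ b, (p b * Real.exp (2 * (x b - m)) - p b * (2 * (x b - m) + 1)) ≤ 0 := by
    rw [Finset.sum_sub_distrib, mE_lin h1 hm]
    linarith
  have h6 : ∀ b ∈ Finset.univ,
      0 ≤ p b * Real.exp (2 * (x b - m)) - p b * (2 * (x b - m) + 1) := fun b _ =>
    sub_nonneg.2 (mul_le_mul_of_nonneg_left (Real.add_one_le_exp _) (hp b))
  have h7 := (Finset.sum_eq_zero_iff_of_nonneg h6).1 (le_antisymm h5 (Finset.sum_nonneg h6)) a
    (Finset.mem_univ a)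
  rw [← hm]
  by_contra hne
  have h8 : 2 * (x a - m) ≠ 0 := mul_ne_zero two_ne_zero (sub_ne_zero.2 hne)
  have h9 := Real.add_one_lt_exp h8
  have h10 : 0 < p a := lt_of_le_of_ne (hp a) (Ne.symm ha)
  have h11 := mul_lt_mul_of_pos_left h9 h10
  linarith

/-- `(∑ p z) ^ (1 / τ) ≤ ∑ p z ^ (1 / τ)` (`Real.rpow_arith_mean_le_arith_mean_rpow`) with
`z a = exp (2 τ (x a))`. -/
theorem lse_star (hp : ∀ a, 0 ≤ p a) (h1 : ∑ a, p a = 1) {τ : ℝ} (h0 : 0 ≤ τ) (hτ : τ ≤ 1) :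
    Real.log (∑ a, p a * Real.exp (2 * (τ * x a))) ≤
      τ * Real.log (∑ a, p a * Real.exp (2 * x a)) := by
  rcases h0.eq_or_lt with rfl | h0
  · simp [h1]
  have hpos : ∀ y : κ → ℝ, 0 < ∑ a, p a * Real.exp (2 * y a) := by
    intro y
    rw [mE_sum (x := y) h1 (∑ a, p a * y a)]
    have := mE_one_le (x := y) hp h1 rfl
    have := Real.exp_pos (2 * ∑ a, p a * y a)
    positivity
  have h2 := Real.rpow_arith_mean_le_arith_mean_rpow Finset.univ p
    (fun a => Real.exp (2 * (τ * x a))) (fun a _ => hp a) h1 (fun a _ => (Real.exp_pos _).le)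
    (p := 1 / τ) (by rw [le_div_iff₀ h0]; linarith)
  have h3 : ∀ a, Real.exp (2 * (τ * x a)) ^ (1 / τ) = Real.exp (2 * x a) := by
    intro a
    rw [← Real.exp_mul]
    congr 1
    field_simp
  simp only [h3] at h2
  have h4 := hpos fun a => τ * x a
  have h5 := Real.log_le_log (Real.rpow_pos_of_pos h4 _) h2
  rw [Real.log_rpow h4] at h5
  have h6 := mul_le_mul_of_nonneg_left h5 h0.le
  rwa [← mul_assoc, mul_one_div_cancel h0.ne', one_mul] at h6

end lse

end Pool.Agent.SG
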