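import Pool.Agent.H.MP_e23cd6_ag.SG.M.E

/-!
# Block M: convexity of the logarithm of the norm along `s ↦ exp (s u^* H u) v` (continued)
-/

set_option autoImplicit false

open Matrix Topology Filter

namespace Pool.Agent.SG

variable {n : ℕ} {ι : Type} [Fintype ι] [DecidableEq ι] (R : Rep n ι)

/-- The logarithm of `|ρ(g) v| / |v|`. -/
noncomputable def lgv (v : ι → ℂ) (g : Gp n) : ℝ :=
  (Real.log (ns (R.act g v)) - Real.log (ns v)) / 2

theorem mE2_act_ne {v : ι → ℂ} (hv : v ≠ 0) (g : Gp n) : R.act g v ≠ 0 := by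
  intro h
  apply hv
  have h1 : R.act g⁻¹ (R.act g v) = v := by
    rw [← R.act_mul, inv_mul_cancel, R.act_one]
  rw [← h1, h, R.act_zero]

omit [DecidableEq ι] in
theorem mE2_ns_ne {v : ι → ℂ} (hv : v ≠ 0) : ns v ≠ 0 := fun h => hv (ns_eq_zero.1 h)

omit [DecidableEq ι] in
theorem mE2_ns_pos {v : ι → ℂ} (hv : v ≠ 0) : 0 < ns v :=
  lt_of_le_of_ne (ns_nonneg v) (Ne.symm (mE2_ns_ne hv))

theorem mE2_p_nonneg {u : Gp n} {v : ι → ℂ} (hv : v ≠ 0) (a : ι) :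
    0 ≤ ‖R.act u v a‖ ^ 2 / ns v :=
  div_nonneg (sq_nonneg _) (mE2_ns_pos hv).le

theorem mE2_p_sum {u : Gp n} (hu : u ∈ SU n) {v : ι → ℂ} (hv : v ≠ 0) :
    ∑ a, ‖R.act u v a‖ ^ 2 / ns v = 1 := by
  rw [← Finset.sum_div]
  have h1 : ∑ a, ‖R.act u v a‖ ^ 2 = ns v := by
    rw [← R.ns_act_SU hu v]
    rfl
  rw [h1, div_self (mE2_ns_ne hv)]

theorem mE2_tr {u : Gp n} (hu : u ∈ SU n) (H : aa n) (v : ι → ℂ) :
    (cj u H * mom R v).trace.re = ∑ a, ‖R.act u v a‖ ^ 2 / ns v * R.lam a H := by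
  rw [tr_cj_mom R hu H v, Complex.ofReal_re, Finset.sum_div]
  exact Finset.sum_congr rfl fun a _ => by ring

theorem lgv_mul (v : ι → ℂ) (g h : Gp n) :
    lgv R v (g * h) = lgv R (R.act h v) g + lgv R v h := by
  unfold lgv
  rw [R.act_mul]
  ring

theorem lgv_one (v : ι → ℂ) : lgv R v 1 = 0 := by
  unfold lgv
  rw [R.act_one, sub_self, zero_div]

theorem lgv_SU {k : Gp n} (hk : k ∈ SU n) (v : ι → ℂ) (g : Gp n) :
    lgv R v (k * g) = lgv R v g := by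
  unfold lgv
  rw [R.act_mul, R.ns_act_SU hk]

theorem lgv_smul {c : ℂ} (hc : c ≠ 0) {v : ι → ℂ} (hv : v ≠ 0) (g : Gp n) :
    lgv R (c • v) g = lgv R v g := by
  have hc1 : ‖c‖ ^ 2 ≠ 0 := pow_ne_zero 2 (norm_ne_zero_iff.2 hc)
  unfold lgv
  rw [R.act_smul, ns_smul, ns_smul, Real.log_mul hc1 (mE2_ns_ne (mE2_act_ne R hv g)),
    Real.log_mul hc1 (mE2_ns_ne hv)]
  ring

/-- `act g v ≠ 0`. -/
theorem act_ne {v : ι → ℂ} (hv : v ≠ 0) (g : Gp n) : R.act g v ≠ 0 := by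
  exact mE2_act_ne R hv g

theorem continuous_lgv {v : ι → ℂ} (hv : v ≠ 0) : Continuous fun g : Gp n => lgv R v g := by
  have h1 : Continuous fun g : Gp n => ns (R.act g v) :=
    continuous_ns.comp (R.continuous_act.comp (continuous_id.prodMk continuous_const))
  have h2 : Continuous fun g : Gp n => Real.log (ns (R.act g v)) :=
    h1.log fun g => mE2_ns_ne (mE2_act_ne R hv g)
  exact (h2.sub continuous_const).div_const _

/-- By `ns_act_ex`, with `p a = ‖R.act u v a‖² / ns v`. -/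
theorem lgv_ex {u : Gp n} (hu : u ∈ SU n) (H : aa n) {v : ι → ℂ} (hv : v ≠ 0) (s : ℝ) :
    lgv R v (ex u H s) =
      Real.log (∑ a, ‖R.act u v a‖ ^ 2 / ns v * Real.exp (2 * (s * R.lam a H))) / 2 := by
  have h1 : ∑ a, ‖R.act u v a‖ ^ 2 / ns v * Real.exp (2 * (s * R.lam a H)) =
      ns (R.act (ex u H s) v) / ns v := by
    rw [ns_act_ex R hu, Finset.sum_div]
    refine Finset.sum_congr rfl fun a _ => ?_
    rw [← mul_assoc 2 s (R.lam a H)]
    ring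
  rw [h1, Real.log_div (mE2_ns_ne (mE2_act_ne R hv _)) (mE2_ns_ne hv)]
  rfl

/-- Convexity: `lse_ge`, `tr_cj_mom`. -/
theorem lgv_ex_ge {u : Gp n} (hu : u ∈ SU n) (H : aa n) {v : ι → ℂ} (hv : v ≠ 0) :
    (cj u H * mom R v).trace.re ≤ lgv R v (ex u H 1) := by
  have h1 := lse_ge (x := fun a => R.lam a H) (fun a => mE2_p_nonneg R (u := u) hv a)
    (mE2_p_sum R hu hv)
  have h2 := lgv_ex R hu H hv 1
  rw [Complex.ofReal_one] at h2
  simp only [one_mul] at h2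
  rw [mE2_tr R hu, h2]
  linarith

/-- Equality case: `lse_eq`, `rho_ex`. -/
theorem lgv_ex_eq {u : Gp n} (hu : u ∈ SU n) (H : aa n) {v : ι → ℂ} (hv : v ≠ 0)
    (h : lgv R v (ex u H 1) ≤ (cj u H * mom R v).trace.re) :
    ∃ κ : ℝ, ∀ z : ℂ, R.act (ex u H z) v = Complex.exp (z * κ) • v := by
  have h2 := lgv_ex R hu H hv 1
  rw [Complex.ofReal_one] at h2
  simp only [one_mul] at h2
  rw [mE2_tr R hu, h2] at h
  have h3 := lse_eq (x := fun a => R.lam a H) (fun a => mE2_p_nonneg R (u := u) hv a)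
    (mE2_p_sum R hu hv) (by linarith)
  refine ⟨∑ b, ‖R.act u v b‖ ^ 2 / ns v * R.lam b H, fun z => ?_⟩
  have h4 : R.act (dg H z) (R.act u v) =
      Complex.exp (z * (∑ b, ‖R.act u v b‖ ^ 2 / ns v * R.lam b H : ℝ)) • R.act u v := by
    funext a
    rw [R.act_dg, Pi.smul_apply, smul_eq_mul]
    by_cases ha : R.act u v a = 0
    · rw [ha, mul_zero, mul_zero]
    · have h5 : ‖R.act u v a‖ ^ 2 / ns v ≠ 0 :=
        div_ne_zero (pow_ne_zero 2 (norm_ne_zero_iff.2 ha)) (mE2_ns_ne hv)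
      have h6 : R.lam a H = ∑ b, ‖R.act u v b‖ ^ 2 / ns v * R.lam b H := h3 a h5
      rw [h6]
  unfold ex
  rw [R.act_mul, R.act_mul, h4, R.act_smul, ← R.act_mul, inv_mul_cancel, R.act_one]

theorem lgv_star {u : Gp n} (hu : u ∈ SU n) (H : aa n) {v : ι → ℂ} (hv : v ≠ 0) {τ : ℝ}
    (h0 : 0 ≤ τ) (hτ : τ ≤ 1) : lgv R v (ex u H τ) ≤ τ * lgv R v (ex u H 1) := by
  have h1 := lse_star (x := fun a => R.lam a H) (fun a => mE2_p_nonneg R (u := u) hv a)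
    (mE2_p_sum R hu hv) h0 hτ
  have h2 := lgv_ex R hu H hv 1
  rw [Complex.ofReal_one] at h2
  simp only [one_mul] at h2
  rw [lgv_ex R hu H hv τ, h2]
  linarith

end Pool.Agent.SG
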