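import Pool.Agent.H.MP_e23cd6_ag.SG.M.E2

/-!
# Block M: convexity of the logarithm of the norm along `s ↦ exp (s u^* H u) v` (continued)
-/

set_option autoImplicit false

open Matrix Topology Filter

namespace Pool.Agent.SG

variable {n : ℕ} {ι : Type} [Fintype ι] [DecidableEq ι] (R : Rep n ι)

omit [DecidableEq ι] in
theorem mE3_ns_pos {v : ι → ℂ} (hv : v ≠ 0) : 0 < ns v := by
  refine lt_of_le_of_ne (ns_nonneg v) fun h => hv (ns_eq_zero.1 h.symm)

/-- Derivative of `lgv` along a curve through `1`. Proof: `ns (ρ(γ s) v) = ip (ρ(γ s) v) (ρ(γ s) v)`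
has the derivative `2 Re ip (dR A v) v`. -/
theorem hasDeriv_lgv {v : ι → ℂ} (hv : v ≠ 0) {γ : ℝ → Gp n} {A : Mx n} (h0 : γ 0 = 1)
    (h : HasD (fun s => R.ρ (γ s)) (dR R A)) :
    HasDerivAt (fun s : ℝ => lgv R v (γ s)) (A * mom R v).trace.re 0 := by
  have hw : ∀ a, HasDerivAt (fun s : ℝ => R.act (γ s) v a) ((dR R A *ᵥ v) a) 0 := by
    intro a
    have h1 : HasDerivAt (fun s : ℝ => ∑ b, R.ρ (γ s) a b * v b) (∑ b, dR R A a b * v b) 0 :=
      HasDerivAt.fun_sum fun b _ => (h a b).mul_const (v b)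
    exact h1
  have hns : HasDerivAt (fun s : ℝ => ns (R.act (γ s) v))
      (∑ a, 2 * inner ℝ (R.act (γ 0) v a) ((dR R A *ᵥ v) a)) 0 :=
    HasDerivAt.fun_sum fun a _ => (hw a).norm_sq
  have hpos : 0 < ns v := mE3_ns_pos hv
  have e0 : R.act (γ 0) v = v := by rw [h0, R.act_one]
  have hlog := hns.log (by rw [e0]; exact hpos.ne')
  have h2 := (hlog.sub_const (Real.log (ns v))).div_const 2
  rw [e0] at h2
  have e1 : (∑ a, 2 * inner ℝ (v a) ((dR R A *ᵥ v) a)) / ns v / 2 = (A * mom R v).trace.re := by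
    have e2 : ((ip (dR R A *ᵥ v) v / (ns v : ℂ))).re =
        (∑ a, inner ℝ (v a) ((dR R A *ᵥ v) a)) / ns v := by
      rw [Complex.div_ofReal_re]
      congr 1
      unfold ip
      rw [Complex.re_sum]
      refine Finset.sum_congr rfl fun a _ => ?_
      rw [Complex.inner]
      rfl
    rw [tr_mom, e2, ← Finset.mul_sum]
    ring
  rw [e1] at h2
  exact h2

end Pool.Agent.SG
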