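import Pool.Agent.H.MP_e23cd6_ag.SG.M.E3
import Pool.Agent.H.MP_e23cd6_ag.SG.IfR

/-!
# Block M: the function `∑ θ_i hw_i` along `s ↦ exp (s u^* H u)`

For an integral antitone `χ` there is a vector `e` of weight `χ` for `B` in a representation `V`
(`exists_hw`), and `∑ χ_i hw g i` is the logarithm of the norm of `V.act g e`.
-/

set_option autoImplicit false

open Matrix Topology Filter

namespace Pool.Agent.SG

variable {n : ℕ}

section hwvec

variable {κ : Type} [Fintype κ] [DecidableEq κ] (V : Rep n κ) {χ : Fin n → ℤ} {e : κ → ℂ}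

/-- By `iwasawa`, `hw_SU`, `chrB_norm`. -/
theorem lgv_hw (he : ns e = 1) (hb : ∀ b, IsB b → V.act b e = chrB χ b • e) (g : Gp n) :
    lgv V e g = ∑ i, χ i * hw g i := by
  obtain ⟨k, hk, b, hB, rfl⟩ := iwasawa g
  rw [lgv_SU V hk, hw_SU hk]
  have h1 : ‖chrB χ b‖ ≠ 0 := norm_ne_zero_iff.2 (chrB_ne hB χ)
  unfold lgv
  rw [hb b hB, ns_smul, he, mul_one, Real.log_one, sub_zero, Real.log_pow, chrB_norm hB,
    Real.log_exp]
  push_cast
  ring

theorem mF_mulVec {γ : ℝ → Matrix κ κ ℂ} {A : Matrix κ κ ℂ} (h : HasD γ A) (v : κ → ℂ) (a : κ) :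
    HasDerivAt (fun s => (γ s *ᵥ v) a) ((A *ᵥ v) a) 0 :=
  HasDerivAt.fun_sum fun b _ => (h a b).mul_const (v b)

theorem mF_el_isB {i j : Fin n} (h : i < j) (z : ℂ) : IsB (el h.ne z) := by
  intro a b hab
  show Matrix.transvection i j z a b = 0
  unfold Matrix.transvection
  rw [Matrix.add_apply, Matrix.one_apply_ne hab.ne', Matrix.single_apply, if_neg, add_zero]
  rintro ⟨rfl, rfl⟩
  exact absurd h (not_lt.2 hab.le)

theorem mF_el_chr {i j : Fin n} (h : i < j) (z : ℂ) (χ : Fin n → ℤ) :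
    chrB χ (el h.ne z) = 1 := by
  unfold chrB
  refine Finset.prod_eq_one fun a _ => ?_
  have h1 : (el h.ne z : Mx n) a a = 1 := by
    show Matrix.transvection i j z a a = 1
    unfold Matrix.transvection
    rw [Matrix.add_apply, Matrix.one_apply_eq, Matrix.single_apply, if_neg, add_zero]
    rintro ⟨rfl, e2⟩
    exact h.ne e2.symm
  rw [h1]
  exact _root_.one_zpow _

/-- For `i < j`: the derivative of `V.act (el h s) e = e` (`hasD_rho_el`). -/
theorem dR_single_hw (hb : ∀ b, IsB b → V.act b e = chrB χ b • e) {i j : Fin n} (h : i < j) :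
    dR V (Matrix.single i j 1) *ᵥ e = 0 := by
  have h1 := hasD_rho_el V h.ne 1
  rw [one_smul] at h1
  funext a
  have h2 := mF_mulVec h1 e a
  have h3 : (fun s : ℝ => (V.ρ (el h.ne ((s : ℂ) * 1)) *ᵥ e) a) = fun _ => e a := by
    funext s
    have h4 := hb _ (mF_el_isB h ((s : ℂ) * 1))
    rw [mF_el_chr h, one_smul] at h4
    exact congrFun h4 a
  rw [h3] at h2
  exact h2.unique (hasDerivAt_const (0 : ℝ) (e a))

theorem mF_dg_isB (H : aa n) (z : ℂ) : IsB (dg H z) := by
  intro a b hab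
  rw [coe_dg, Matrix.diagonal_apply_ne _ hab.ne']

theorem mF_dg_chr (H : aa n) (z : ℂ) (χ : Fin n → ℤ) :
    chrB χ (dg H z) = Complex.exp (z * ((∑ i, χ i * H.1 i : ℝ) : ℂ)) := by
  unfold chrB
  rw [Complex.ofReal_sum, Finset.mul_sum, Complex.exp_sum]
  refine Finset.prod_congr rfl fun i _ => ?_
  rw [coe_dg, Matrix.diagonal_apply_eq, ← Complex.exp_int_mul]
  congr 1
  push_cast
  ring

theorem mF_exp (c w : ℂ) : HasDerivAt (fun s : ℝ => Complex.exp ((s : ℂ) * c) * w) (c * w) 0 := by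
  have h1 : HasDerivAt (fun s : ℝ => (s : ℂ)) 1 0 := (hasDerivAt_id (0 : ℝ)).ofReal_comp
  have h2 := ((h1.mul_const c).cexp).mul_const w
  simpa using h2

/-- For `H` in `aa n`: the derivative of `V.act (dg H s) e = exp (s ∑ χ_i H_i) • e`. -/
theorem dR_diag_hw (hb : ∀ b, IsB b → V.act b e = chrB χ b • e) (H : aa n) :
    dR V (Matrix.diagonal (fun i => (H.1 i : ℂ))) *ᵥ e = ((∑ i, χ i * H.1 i : ℝ) : ℂ) • e := by
  rw [dR_diag]
  funext a
  rw [Matrix.mulVec_diagonal, Pi.smul_apply, smul_eq_mul]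
  have h1 := mF_exp (V.lam a H : ℂ) (e a)
  have h2 := mF_exp ((∑ i, χ i * H.1 i : ℝ) : ℂ) (e a)
  refine h1.unique ?_
  refine h2.congr_of_eventuallyEq (Filter.Eventually.of_forall fun s => ?_)
  show Complex.exp ((s : ℂ) * (V.lam a H : ℂ)) * e a =
    Complex.exp ((s : ℂ) * ((∑ i, χ i * H.1 i : ℝ) : ℂ)) * e a
  rw [← V.act_dg H s e a, hb _ (mF_dg_isB H s), mF_dg_chr]
  rfl

theorem mF_diag (hb : ∀ b, IsB b → V.act b e = chrB χ b • e) (d : Fin n → ℂ)
    (hd : ∑ i, d i = 0) : dR V (Matrix.diagonal d) *ᵥ e = (∑ i, χ i * d i) • e := by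
  obtain ⟨H1, hH1⟩ : ∃ H : aa n, ∀ i, H.1 i = (d i).re := by
    refine ⟨⟨fun i => (d i).re, ?_⟩, fun _ => rfl⟩
    show ∑ i, (d i).re = 0
    rw [← Complex.re_sum, hd, Complex.zero_re]
  obtain ⟨H2, hH2⟩ : ∃ H : aa n, ∀ i, H.1 i = (d i).im := by
    refine ⟨⟨fun i => (d i).im, ?_⟩, fun _ => rfl⟩
    show ∑ i, (d i).im = 0
    rw [← Complex.im_sum, hd, Complex.zero_im]
  have h1 : Matrix.diagonal d = Matrix.diagonal (fun i => (H1.1 i : ℂ)) +
      Complex.I • Matrix.diagonal (fun i => (H2.1 i : ℂ)) := by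
    rw [← Matrix.diagonal_smul, Matrix.diagonal_add]
    congr 1
    funext i
    rw [hH1, Pi.smul_apply, smul_eq_mul, hH2, mul_comm, Complex.re_add_im]
  rw [h1, map_add, map_smul, Matrix.add_mulVec, Matrix.smul_mulVec, dR_diag_hw V hb,
    dR_diag_hw V hb, smul_smul, ← add_smul]
  congr 1
  rw [Complex.ofReal_sum, Complex.ofReal_sum, Finset.mul_sum, ← Finset.sum_add_distrib]
  refine Finset.sum_congr rfl fun i _ => ?_
  rw [hH1, hH2]
  push_cast
  have h2 : d i = (d i).re + (d i).im * Complex.I := (Complex.re_add_im _).symm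
  conv_rhs => rw [h2]
  ring

/-- For an upper triangular matrix of trace zero: the sum of a complex combination of matrices
`diagonal H` and of matrices `single i j 1`, `i < j`. -/
theorem dR_hw (hb : ∀ b, IsB b → V.act b e = chrB χ b • e) {ζ : Mx n} (ht : ζ.trace = 0)
    (hu : ∀ i j, j < i → ζ i j = 0) : dR V ζ *ᵥ e = (∑ i, χ i * ζ i i) • e := by
  have h1 : ζ = Matrix.diagonal (fun i => ζ i i) +
      ∑ i, ∑ j, (if i < j then ζ i j else 0) • Matrix.single i j (1 : ℂ) := by
    ext a b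
    rw [Matrix.add_apply, Matrix.sum_apply]
    have h2 : ∀ i, (∑ j, (if i < j then ζ i j else 0) • Matrix.single i j (1 : ℂ)) a b =
        if i = a then (if a < b then ζ a b else 0) else 0 := by
      intro i
      rw [Matrix.sum_apply, Finset.sum_eq_single b]
      · rw [Matrix.smul_apply, smul_eq_mul]
        by_cases hi : i = a
        · subst hi
          rw [Matrix.single_apply_same, mul_one, if_pos rfl]
        · rw [Matrix.single_apply_of_row_ne hi, mul_zero, if_neg hi]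
      · intro j _ hj
        rw [Matrix.smul_apply, Matrix.single_apply_of_col_ne _ _ hj, smul_zero]
      · intro h
        exact absurd (Finset.mem_univ b) h
    rw [Finset.sum_congr rfl fun i _ => h2 i, Finset.sum_ite_eq' Finset.univ a,
      if_pos (Finset.mem_univ a), Matrix.diagonal_apply]
    rcases lt_trichotomy a b with h | h | h
    · rw [if_neg h.ne, if_pos h, zero_add]
    · subst h
      rw [if_pos rfl, if_neg (lt_irrefl _), add_zero]
    · rw [if_neg h.ne', if_neg (not_lt.2 h.le), add_zero, hu a b h]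
  have h2 : dR V (∑ i, ∑ j, (if i < j then ζ i j else 0) • Matrix.single i j (1 : ℂ)) *ᵥ e =
      0 := by
    rw [map_sum, Matrix.sum_mulVec]
    refine Finset.sum_eq_zero fun i _ => ?_
    rw [map_sum, Matrix.sum_mulVec]
    refine Finset.sum_eq_zero fun j _ => ?_
    rw [map_smul, Matrix.smul_mulVec]
    by_cases h : i < j
    · rw [dR_single_hw V hb h, smul_zero]
    · rw [if_neg h, zero_smul]
  conv_lhs => rw [h1]
  rw [map_add, Matrix.add_mulVec, h2, add_zero]
  exact mF_diag V hb _ ht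

/-- Proof: the strictly lower part `ζ'` has `ip (dR ζ' e) e = ip e (dR ζ'ᴴ e) = 0` by `dR_star`
and `dR_hw`; the rest by `dR_hw`. -/
theorem tr_mom_hw (he : ns e = 1) (hb : ∀ b, IsB b → V.act b e = chrB χ b • e) {ζ : Mx n}
    (ht : ζ.trace = 0) : (ζ * mom V e).trace = ∑ i, χ i * ζ i i := by
  obtain ⟨U, hU⟩ : ∃ U : Mx n, U = Matrix.of fun i j => if j < i then 0 else ζ i j := ⟨_, rfl⟩
  obtain ⟨L, hL⟩ : ∃ L : Mx n, L = Matrix.of fun i j => if j < i then ζ i j else 0 := ⟨_, rfl⟩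
  have hUa : ∀ i j, U i j = if j < i then 0 else ζ i j := fun i j => by rw [hU]; rfl
  have hLa : ∀ i j, L i j = if j < i then ζ i j else 0 := fun i j => by rw [hL]; rfl
  have h1 : ζ = U + L := by
    ext i j
    rw [Matrix.add_apply, hUa, hLa]
    split_ifs
    · rw [zero_add]
    · rw [add_zero]
  have hUt : U.trace = 0 := by
    rw [← ht]
    unfold Matrix.trace
    refine Finset.sum_congr rfl fun i _ => ?_
    rw [Matrix.diag_apply, Matrix.diag_apply, hUa, if_neg (lt_irrefl i)]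
  have h2 : dR V U *ᵥ e = (∑ i, χ i * ζ i i) • e := by
    rw [dR_hw V hb hUt fun i j h => by rw [hUa, if_pos h]]
    congr 1
    refine Finset.sum_congr rfl fun i _ => ?_
    rw [hUa, if_neg (lt_irrefl i)]
  have hLs : ∀ i j, Lᴴ i j = if i < j then star (ζ j i) else 0 := by
    intro i j
    rw [Matrix.conjTranspose_apply, hLa]
    split_ifs
    · rfl
    · exact star_zero _
  have h3 : dR V Lᴴ *ᵥ e = 0 := by
    have h4 : (Lᴴ).trace = 0 := by
      unfold Matrix.trace
      refine Finset.sum_eq_zero fun i _ => ?_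
      rw [Matrix.diag_apply, hLs, if_neg (lt_irrefl i)]
    rw [dR_hw V hb h4 fun i j h => by rw [hLs, if_neg (not_lt.2 h.le)]]
    have h5 : ∑ i, (χ i : ℂ) * Lᴴ i i = 0 := by
      refine Finset.sum_eq_zero fun i _ => ?_
      rw [hLs, if_neg (lt_irrefl i), mul_zero]
    rw [h5, zero_smul]
  have h4 : ip (dR V L *ᵥ e) e = 0 := by
    rw [mD_ip_adj, ← dR_star, h3]
    unfold ip
    refine Finset.sum_eq_zero fun i _ => ?_
    rw [Pi.zero_apply, star_zero, mul_zero]
  have h5 : ip (dR V ζ *ᵥ e) e = ∑ i, χ i * ζ i i := by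
    conv_lhs => rw [h1]
    rw [map_add, Matrix.add_mulVec, ip_add_left, h4, add_zero, h2, ip_smul_left, ip_self, he,
      Complex.ofReal_one, mul_one]
  rw [tr_mom, h5, he, Complex.ofReal_one, div_one]

end hwvec

end Pool.Agent.SG
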