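import Pool.Agent.H.MP_e23cd6_ag.SG.M.F

/-!
# Block M: the function `∑ θ_i hw_i` along `s ↦ exp (s u^* H u)`

For an integral antitone `χ` there is a vector `e` of weight `χ` for `B` in a representation `V`
(`exists_hw`), and `∑ χ_i hw g i` is the logarithm of the norm of `V.act g e`. (continued)
-/

set_option autoImplicit false

open Matrix Topology Filter

namespace Pool.Agent.SG

variable {n : ℕ}

section hwvec

variable {κ : Type} [Fintype κ] [DecidableEq κ] (V : Rep n κ) {χ : Fin n → ℤ} {e : κ → ℂ}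

theorem mF2_ip_mulVec (M : Matrix κ κ ℂ) (v w : κ → ℂ) : ip (M *ᵥ v) w = ip v (Mᴴ *ᵥ w) := by
  have h1 : ip (M *ᵥ v) w = ∑ i, ∑ j, M i j * v j * star (w i) := by
    unfold ip
    refine Finset.sum_congr rfl fun i _ => ?_
    rw [Matrix.mulVec, dotProduct, Finset.sum_mul]
  have h2 : ip v (Mᴴ *ᵥ w) = ∑ j, ∑ i, M i j * v j * star (w i) := by
    unfold ip
    refine Finset.sum_congr rfl fun j _ => ?_
    rw [Matrix.mulVec, dotProduct, star_sum, Finset.mul_sum]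
    refine Finset.sum_congr rfl fun i _ => ?_
    rw [Matrix.conjTranspose_apply, star_mul', star_star]
    ring
  rw [h1, h2, Finset.sum_comm]

/-- If `e` is an eigenvector of `dR ξ` (`ξ` Hermitian of trace zero), then `ξ_ba = 0` for
`χ b < χ a`, for an antitone `χ`.
Proof: let `N` be the strictly lower triangular part of `ξ`; then `dR N e = c • e` by `dR_hw`, and
`c = ip (dR N e) e = ip e (dR Nᴴ e) = 0` (`dR_star`, `dR_hw`). So by `dR_lie`
`0 = dR (Nᴴ) (dR N e) - dR N (dR (Nᴴ) e) = dR (Nᴴ * N - N * Nᴴ) e`, hence by `tr_mom`,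
`tr_mom_hw`: `0 = ∑ i, χ i * (Nᴴ * N - N * Nᴴ) i i = ∑ (χ a - χ b) |ξ_ba|²` (sum over `a < b`). -/
theorem hw_block (hχ : Antitone χ) (he : ns e = 1)
    (hb : ∀ b, IsB b → V.act b e = chrB χ b • e) {ξ : Mx n} (hξ : HT ξ) {c : ℂ}
    (hc : dR V ξ *ᵥ e = c • e) {a b : Fin n} (hab : χ b < χ a) : ξ b a = 0 := by
  classical
  -- the strictly lower triangular part
  obtain ⟨N, hN⟩ : ∃ N : Mx n, ∀ i j, N i j = if j < i then ξ i j else 0 :=
    ⟨Matrix.of fun i j => if j < i then ξ i j else 0, fun i j => rfl⟩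
  have hherm : ∀ i j, star (ξ j i) = ξ i j := fun i j => by
    have h1 := congrFun (congrFun hξ.1 i) j
    rwa [Matrix.conjTranspose_apply] at h1
  have hNt : N.trace = 0 := by
    unfold Matrix.trace
    refine Finset.sum_eq_zero fun i _ => ?_
    rw [Matrix.diag_apply, hN, if_neg (lt_irrefl i)]
  have hNH : dR V Nᴴ *ᵥ e = 0 := by
    have h1 := dR_hw V hb (ζ := Nᴴ) (by rw [Matrix.trace_conjTranspose, hNt, star_zero]) (by
      intro i j hij
      rw [Matrix.conjTranspose_apply, hN, if_neg (not_lt.2 hij.le), star_zero])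
    rw [h1]
    have h2 : ∑ i, (χ i : ℂ) * Nᴴ i i = 0 := by
      refine Finset.sum_eq_zero fun i _ => ?_
      rw [Matrix.conjTranspose_apply, hN, if_neg (lt_irrefl i), star_zero, mul_zero]
    rw [h2, zero_smul]
  have hU := dR_hw V hb (ζ := ξ - N) (by rw [Matrix.trace_sub, hξ.2, hNt, sub_zero]) (by
      intro i j hij
      rw [Matrix.sub_apply, hN, if_pos hij, sub_self])
  have hNe : dR V N *ᵥ e = (c - ∑ i, (χ i : ℂ) * (ξ - N) i i) • e := by
    rw [sub_smul, ← hc, ← hU, ← Matrix.sub_mulVec, ← map_sub, sub_sub_cancel]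
  have hc0 : c - ∑ i, (χ i : ℂ) * (ξ - N) i i = 0 := by
    have h1 : ip (dR V N *ᵥ e) e = c - ∑ i, (χ i : ℂ) * (ξ - N) i i := by
      rw [hNe, ip_smul_left, ip_self, he, Complex.ofReal_one, mul_one]
    rw [← h1, mF2_ip_mulVec, ← dR_star, hNH]
    unfold ip
    simp
  rw [hc0, zero_smul] at hNe
  have hcomm : dR V (Nᴴ * N - N * Nᴴ) *ᵥ e = 0 := by
    rw [dR_lie, Matrix.sub_mulVec, ← Matrix.mulVec_mulVec, ← Matrix.mulVec_mulVec, hNe, hNH,
      Matrix.mulVec_zero, Matrix.mulVec_zero, sub_zero]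
  have h1 := tr_mom V (Nᴴ * N - N * Nᴴ) e
  rw [tr_mom_hw V he hb (by rw [Matrix.trace_sub, Matrix.trace_mul_comm, sub_self]), hcomm] at h1
  have h2 : ∑ i, (χ i : ℂ) * (Nᴴ * N - N * Nᴴ) i i = 0 := by
    rw [h1]
    unfold ip
    simp
  -- in terms of real numbers
  have h3 : ∑ i, (χ i : ℝ) * (∑ k, ‖N k i‖ ^ 2 - ∑ k, ‖N i k‖ ^ 2) = 0 := by
    have h4 : ((∑ i, (χ i : ℝ) * (∑ k, ‖N k i‖ ^ 2 - ∑ k, ‖N i k‖ ^ 2) : ℝ) : ℂ) =
        ∑ i, (χ i : ℂ) * (Nᴴ * N - N * Nᴴ) i i := by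
      push_cast
      refine Finset.sum_congr rfl fun i _ => ?_
      congr 1
      rw [Matrix.sub_apply, Matrix.mul_apply, Matrix.mul_apply]
      congr 1
      · refine Finset.sum_congr rfl fun k _ => ?_
        rw [Matrix.conjTranspose_apply]
        exact (Complex.conj_mul' _).symm
      · refine Finset.sum_congr rfl fun k _ => ?_
        rw [Matrix.conjTranspose_apply]
        exact (Complex.mul_conj' _).symm
    rw [h2] at h4
    exact_mod_cast h4
  have h5 : ∑ i, ∑ k, ((χ i : ℝ) - χ k) * ‖N k i‖ ^ 2 = 0 := by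
    have h6 : ∑ i, ∑ k, (χ k : ℝ) * ‖N k i‖ ^ 2 = ∑ i, ∑ k, (χ i : ℝ) * ‖N i k‖ ^ 2 :=
      Finset.sum_comm
    simp only [sub_mul, Finset.sum_sub_distrib]
    rw [h6, ← h3]
    simp only [mul_sub, Finset.sum_sub_distrib, Finset.mul_sum]
  have hterm : ∀ i k, 0 ≤ ((χ i : ℝ) - χ k) * ‖N k i‖ ^ 2 := by
    intro i k
    by_cases hik : i < k
    · refine mul_nonneg ?_ (sq_nonneg _)
      have : χ k ≤ χ i := hχ hik.le
      have : (χ k : ℝ) ≤ χ i := by exact_mod_cast this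
      linarith
    · rw [hN, if_neg hik, norm_zero]
      simp
  have h7 := (Finset.sum_eq_zero_iff_of_nonneg fun i _ =>
    Finset.sum_nonneg fun k _ => hterm i k).1 h5 a (Finset.mem_univ a)
  have h8 := (Finset.sum_eq_zero_iff_of_nonneg fun k _ => hterm a k).1 h7 b (Finset.mem_univ b)
  have hab' : a < b := by
    by_contra hcon
    exact absurd (hχ (not_lt.1 hcon)) (not_le.2 hab)
  have h9 : (χ b : ℝ) < χ a := by exact_mod_cast hab
  rw [hN, if_pos hab', mul_eq_zero] at h8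
  rcases h8 with h8 | h8
  · linarith
  · exact norm_eq_zero.1 (pow_eq_zero_iff (two_ne_zero)|>.1 h8)

end hwvec

/-- For an integral antitone `χ`: `exists_hw`, `lgv_hw`, `lgv_ex_ge`, `tr_mom_hw`. -/
theorem hwZ_ge {χ : Fin n → ℤ} (hχ : Antitone χ) {u : Gp n} (hu : u ∈ SU n) (H : aa n) :
    ∑ i, (χ i : ℝ) * (cj u H i i).re ≤ ∑ i, (χ i : ℝ) * hw (ex u H 1) i := by
  obtain ⟨κ, _, _, V, e, he, hb, -⟩ := exists_hw χ hχ
  have he0 : e ≠ 0 := by
    rintro rfl
    unfold ns at he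
    simp at he
  have h1 := lgv_ex_ge V hu H he0
  rw [lgv_hw V he hb, tr_mom_hw V he hb (HT_cj hu H).2, Complex.re_sum] at h1
  refine le_trans (le_of_eq ?_) h1
  refine Finset.sum_congr rfl fun i _ => ?_
  rw [← Complex.ofReal_intCast, Complex.re_ofReal_mul]

/-- Equality case: `lgv_ex_eq` and its derivative (`hasD_rho_ex`, `dR_cj`), `hw_block`. -/
theorem hwZ_eq {χ : Fin n → ℤ} (hχ : Antitone χ) {u : Gp n} (hu : u ∈ SU n) (H : aa n)
    (h : ∑ i, (χ i : ℝ) * hw (ex u H 1) i ≤ ∑ i, (χ i : ℝ) * (cj u H i i).re) {a b : Fin n}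
    (hab : χ b < χ a) : cj u H b a = 0 := by
  obtain ⟨κ, _, _, V, e, he, hb, -⟩ := exists_hw χ hχ
  have he0 : e ≠ 0 := by
    rintro rfl
    unfold ns at he
    simp at he
  obtain ⟨c, hc⟩ := lgv_ex_eq V hu H he0 (by
    rw [lgv_hw V he hb, tr_mom_hw V he hb (HT_cj hu H).2, Complex.re_sum]
    refine h.trans (le_of_eq ?_)
    refine Finset.sum_congr rfl fun i _ => ?_
    rw [← Complex.ofReal_intCast, Complex.re_ofReal_mul])
  refine hw_block V hχ he hb (HT_cj hu H) (c := (c : ℂ)) ?_ hab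
  rw [dR_cj V hu H]
  funext x
  have h1 := hasD_rho_ex V hu H 1
  have h2 : HasDerivAt (fun s : ℝ => (V.ρ (ex u H (s * 1)) *ᵥ e) x)
      ((((1 : ℂ) • Zm V u H) *ᵥ e) x) 0 := by
    unfold Matrix.mulVec dotProduct
    exact HasDerivAt.fun_sum fun y _ => (h1 x y).mul_const (e y)
  have h3 : HasDerivAt (fun s : ℝ => (V.ρ (ex u H (s * 1)) *ᵥ e) x) ((c : ℂ) * e x) 0 := by
    have h4 : (fun s : ℝ => (V.ρ (ex u H (s * 1)) *ᵥ e) x) =
        fun s : ℝ => Complex.exp (s * c) * e x := by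
      funext s
      have h5 := congrFun (hc (s * 1)) x
      rw [mul_one] at h5 ⊢
      exact h5
    rw [h4]
    have h6 : HasDerivAt (fun s : ℝ => (s : ℂ) * c) (1 * (c : ℂ)) 0 :=
      (Complex.ofRealCLM.hasDerivAt).mul_const _
    have h7 := (h6.cexp).mul_const (e x)
    simpa using h7
  have h8 := h2.unique h3
  rw [one_smul] at h8
  rw [h8, Pi.smul_apply, smul_eq_mul]

theorem hwZ_star {χ : Fin n → ℤ} (hχ : Antitone χ) {u : Gp n} (hu : u ∈ SU n) (H : aa n) {τ : ℝ}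
    (h0 : 0 ≤ τ) (hτ : τ ≤ 1) : ∑ i, (χ i : ℝ) * hw (ex u H τ) i ≤
      τ * ∑ i, (χ i : ℝ) * hw (ex u H 1) i := by
  obtain ⟨κ, _, _, V, e, he, hb, -⟩ := exists_hw χ hχ
  have he0 : e ≠ 0 := by
    rintro rfl
    unfold ns at he
    simp at he
  have h1 := lgv_star V hu H he0 h0 hτ
  rwa [lgv_hw V he hb, lgv_hw V he hb] at h1

end Pool.Agent.SG
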