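import Pool.Agent.H.MP_e23cd6_ag.SG.M.F2

/-!
# Block M: the function `∑ θ_i hw_i` along `s ↦ exp (s u^* H u)`

For an integral antitone `χ` there is a vector `e` of weight `χ` for `B` in a representation `V`
(`exists_hw`), and `∑ χ_i hw g i` is the logarithm of the norm of `V.act g e`. (continued)
-/

set_option autoImplicit false

open Matrix Topology Filter

namespace Pool.Agent.SG

variable {n : ℕ}

theorem mF3_sum {m : ℕ} {θ : Fin n → ℝ} {c : Fin m → ℝ} {ω : Fin m → Fin n → ℤ} {t : ℝ}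
    (h : ∀ i, θ i = t + ∑ l, c l * ω l i) {x : Fin n → ℝ} (hx : ∑ i, x i = 0) :
    ∑ i, θ i * x i = ∑ l, c l * ∑ i, (ω l i : ℝ) * x i := by
  have h1 : ∀ i, θ i * x i = t * x i + ∑ l, c l * ((ω l i : ℝ) * x i) := by
    intro i
    rw [h i, add_mul, Finset.sum_mul]
    congr 1
    refine Finset.sum_congr rfl fun l _ => ?_
    ring
  rw [Finset.sum_congr rfl fun i _ => h1 i, Finset.sum_add_distrib, ← Finset.mul_sum, hx,
    mul_zero, zero_add, Finset.sum_comm]
  refine Finset.sum_congr rfl fun l _ => ?_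
  rw [Finset.mul_sum]

theorem mF3_cj_sum {u : Gp n} (hu : u ∈ SU n) (H : aa n) : ∑ i, (cj u H i i).re = 0 := by
  have h1 := (HT_cj hu H).2
  rw [← Complex.re_sum]
  have h2 : ∑ i, cj u H i i = (cj u H).trace := rfl
  rw [h2, h1, Complex.zero_re]

/-- An antitone `θ` is a constant plus a nonnegative combination of integral antitone vectors.
(`m = n`, `ω l i = 1` for `i ≤ l` and `0` otherwise, `c l = θ l - θ (l + 1)` for `l + 1 < n`, and
`c l = 0`, `t = θ l` for the last `l`. The last statement follows from the third.) -/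
theorem exists_fund {θ : Fin n → ℝ} (hθ : Antitone θ) : ∃ (m : ℕ) (c : Fin m → ℝ)
    (ω : Fin m → Fin n → ℤ) (t : ℝ), (∀ l, 0 ≤ c l) ∧ (∀ l, Antitone (ω l)) ∧
    (∀ i, θ i = t + ∑ l, c l * ω l i) ∧
    ∀ a b, θ b < θ a → ∃ l, 0 < c l ∧ ω l b < ω l a := by
  let f : ℕ → ℝ := fun k => if h : k < n then θ ⟨k, h⟩ else
    (if h' : 0 < n then θ ⟨n - 1, by omega⟩ else 0)
  have hf : ∀ i : Fin n, f i = θ i := fun i => dif_pos i.2
  have hmono : ∀ l : Fin n, f (l + 1) ≤ f l := by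
    intro l
    rw [hf]
    by_cases h : (l : ℕ) + 1 < n
    · have e : f (l + 1) = θ ⟨l + 1, h⟩ := dif_pos h
      rw [e]
      exact hθ (Fin.le_def.2 (Nat.le_succ _))
    · have h' : 0 < n := lt_of_le_of_lt (Nat.zero_le _) l.2
      have e : f (l + 1) = θ ⟨n - 1, by omega⟩ := by
        show dite _ _ _ = _
        rw [dif_neg h, dif_pos h']
      rw [e]
      exact hθ (Fin.le_def.2 (by have := l.2; show (l : ℕ) ≤ n - 1; omega))
  have hsum : ∀ i : Fin n, θ i = f n + ∑ l : Fin n, (f l - f (l + 1)) *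
      ((if i ≤ l then 1 else 0 : ℤ) : ℝ) := by
    intro i
    have h1 : ∀ l : Fin n, (f l - f (l + 1)) * ((if i ≤ l then 1 else 0 : ℤ) : ℝ) =
        (fun k : ℕ => f (max i k) - f (max i (k + 1))) l := by
      intro l
      by_cases h : i ≤ l
      · have h2 : (i : ℕ) ≤ l := h
        simp only [if_pos h, max_eq_right h2, max_eq_right (h2.trans (Nat.le_succ _)),
          Int.cast_one, mul_one]
      · have h2 : (l : ℕ) + 1 ≤ i := by
          have := Fin.lt_def.1 (not_le.1 h)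
          omega
        simp only [if_neg h, max_eq_left h2, max_eq_left ((Nat.le_succ _).trans h2),
          Int.cast_zero, mul_zero, sub_self]
    rw [Finset.sum_congr rfl fun l _ => h1 l,
      Fin.sum_univ_eq_sum_range (fun k : ℕ => f (max i k) - f (max i (k + 1))) n,
      Finset.sum_range_sub' (fun k => f (max i k)) n, max_eq_left (Nat.zero_le _),
      max_eq_right i.2.le, hf]
    ring
  have hc : ∀ l : Fin n, 0 ≤ f l - f (l + 1) := fun l => sub_nonneg.2 (hmono l)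
  refine ⟨n, fun l => f l - f (l + 1), fun l i => if i ≤ l then (1 : ℤ) else 0, f n, hc, ?_, hsum, ?_⟩
  · intro l i j hij
    show (if j ≤ l then 1 else 0 : ℤ) ≤ (if i ≤ l then 1 else 0 : ℤ)
    by_cases h : j ≤ l
    · rw [if_pos h, if_pos (hij.trans h)]
    · rw [if_neg h]
      split_ifs <;> norm_num
  · intro a b hab
    rw [hsum a, hsum b] at hab
    have h1 := lt_of_add_lt_add_left hab
    obtain ⟨l, -, hl⟩ := Finset.exists_lt_of_sum_lt h1
    refine ⟨l, ?_, ?_⟩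
    · rcases (hc l).lt_or_eq with h2 | h2
      · exact h2
      · rw [← h2, zero_mul, zero_mul] at hl
        exact absurd hl (lt_irrefl _)
    · have h2 := lt_of_mul_lt_mul_left hl (hc l)
      exact Int.cast_lt.1 h2

/-- For a real antitone `θ`: `exists_fund`, `hwZ_ge`, `hw_sum` (and `(cj u H).trace = 0`). -/
theorem hwR_ge {θ : Fin n → ℝ} (hθ : Antitone θ) {u : Gp n} (hu : u ∈ SU n) (H : aa n) :
    ∑ i, θ i * (cj u H i i).re ≤ ∑ i, θ i * hw (ex u H 1) i := by
  obtain ⟨m, c, ω, t, hc, hω, hs, -⟩ := exists_fund hθ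
  rw [mF3_sum hs (mF3_cj_sum hu H), mF3_sum hs (hw_sum (ex u H 1))]
  exact Finset.sum_le_sum fun l _ => mul_le_mul_of_nonneg_left (hwZ_ge (hω l) hu H) (hc l)

theorem hwR_eq {θ : Fin n → ℝ} (hθ : Antitone θ) {u : Gp n} (hu : u ∈ SU n) (H : aa n)
    (h : ∑ i, θ i * hw (ex u H 1) i ≤ ∑ i, θ i * (cj u H i i).re) {a b : Fin n}
    (hab : θ b < θ a) : cj u H b a = 0 := by
  obtain ⟨m, c, ω, t, hc, hω, hs, h4⟩ := exists_fund hθ
  rw [mF3_sum hs (mF3_cj_sum hu H), mF3_sum hs (hw_sum (ex u H 1))] at h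
  obtain ⟨l, hl, hlt⟩ := h4 a b hab
  refine hwZ_eq (hω l) hu H ?_ hlt
  have h5 : ∀ k ∈ Finset.univ, 0 ≤ c k * ∑ i, (ω k i : ℝ) * hw (ex u H 1) i -
      c k * ∑ i, (ω k i : ℝ) * (cj u H i i).re := fun k _ =>
    sub_nonneg.2 (mul_le_mul_of_nonneg_left (hwZ_ge (hω k) hu H) (hc k))
  have h6 := Finset.single_le_sum h5 (Finset.mem_univ l)
  rw [Finset.sum_sub_distrib] at h6
  have h7 : c l * ∑ i, (ω l i : ℝ) * hw (ex u H 1) i ≤
      c l * ∑ i, (ω l i : ℝ) * (cj u H i i).re := by linarith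
  exact le_of_mul_le_mul_left h7 hl

theorem hwR_star {θ : Fin n → ℝ} (hθ : Antitone θ) {u : Gp n} (hu : u ∈ SU n) (H : aa n) {τ : ℝ}
    (h0 : 0 ≤ τ) (hτ : τ ≤ 1) : ∑ i, θ i * hw (ex u H τ) i ≤
      τ * ∑ i, θ i * hw (ex u H 1) i := by
  obtain ⟨m, c, ω, t, hc, hω, hs, -⟩ := exists_fund hθ
  rw [mF3_sum hs (hw_sum (ex u H τ)), mF3_sum hs (hw_sum (ex u H 1)), Finset.mul_sum]
  refine Finset.sum_le_sum fun l _ => ?_
  have h1 := mul_le_mul_of_nonneg_left (hwZ_star (hω l) hu H h0 hτ) (hc l)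
  refine h1.trans (le_of_eq ?_)
  ring

end Pool.Agent.SG
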