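import Pool.Agent.H.MP_e23cd6_ag.SG.M.I

/-!
# Block M: eigenvalues of Hermitian matrices in decreasing order (continued)
-/

set_option autoImplicit false

open Matrix Topology Filter

namespace Pool.Agent.SG

variable {n : ℕ}

/-- The eigenvalues are bounded by the sum of the absolute values of the entries (`exists_evs`,
`SU_entry_le`). -/
theorem evs_le {A : Mx n} (hA : A.IsHermitian) (i : Fin n) : |evs A i| ≤ ∑ a, ∑ b, ‖A a b‖ := by
  obtain ⟨u, hu, he⟩ := exists_evs hA
  have h1 := congrFun (congrFun he i) i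
  rw [Matrix.mul_apply] at h1
  have h2 : dgr (evs A) i i = (evs A i : ℂ) := Matrix.diagonal_apply_eq _ _
  rw [h2] at h1
  have h3 : |evs A i| = ‖(evs A i : ℂ)‖ := (Complex.norm_real _).symm
  rw [h3, ← h1]
  calc ‖∑ b, ((u : Mx n) * A) i b * (u : Mx n)ᴴ b i‖
      ≤ ∑ b, ‖((u : Mx n) * A) i b * (u : Mx n)ᴴ b i‖ := norm_sum_le _ _
    _ ≤ ∑ b, ∑ a, ‖A a b‖ := by
        refine Finset.sum_le_sum fun b _ => ?_
        rw [norm_mul, Matrix.mul_apply]
        have h4 : ‖(u : Mx n)ᴴ b i‖ ≤ 1 := by
          rw [Matrix.conjTranspose_apply, norm_star]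
          exact SU_entry_le hu i b
        have h5 : ‖∑ a, (u : Mx n) i a * A a b‖ ≤ ∑ a, ‖A a b‖ := by
          refine (norm_sum_le _ _).trans (Finset.sum_le_sum fun a _ => ?_)
          rw [norm_mul]
          exact mul_le_of_le_one_left (norm_nonneg _) (SU_entry_le hu i a)
        calc ‖∑ a, (u : Mx n) i a * A a b‖ * ‖(u : Mx n)ᴴ b i‖
            ≤ (∑ a, ‖A a b‖) * 1 :=
              mul_le_mul h5 h4 (norm_nonneg _) (Finset.sum_nonneg fun _ _ => norm_nonneg _)
          _ = ∑ a, ‖A a b‖ := mul_one _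
    _ = ∑ a, ∑ b, ‖A a b‖ := Finset.sum_comm

/-- Limits in the equation `u A u^* = dgr x`. -/
theorem mI2_lim {U A : ℕ → Mx n} {x : ℕ → Fin n → ℝ} {V B : Mx n} {y : Fin n → ℝ}
    (hU : Tendsto U atTop (𝓝 V)) (hA : Tendsto A atTop (𝓝 B)) (hx : Tendsto x atTop (𝓝 y))
    (he : ∀ k, U k * A k * (U k)ᴴ = dgr (x k)) : V * B * Vᴴ = dgr y := by
  have hU' : Tendsto (fun k => (U k)ᴴ) atTop (𝓝 Vᴴ) :=
    ((continuous_id.matrix_conjTranspose).tendsto V).comp hU
  have h2 : Tendsto (fun k => U k * A k * (U k)ᴴ) atTop (𝓝 (V * B * Vᴴ)) := (hU.mul hA).mul hU'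
  have hd : Continuous (dgr : (Fin n → ℝ) → Mx n) :=
    Continuous.matrix_diagonal (continuous_pi fun i =>
      Complex.continuous_ofReal.comp (continuous_apply i))
  have h3 : Tendsto (fun k => dgr (x k)) atTop (𝓝 (dgr y)) := (hd.tendsto y).comp hx
  have h4 : (fun k => U k * A k * (U k)ᴴ) = fun k => dgr (x k) := funext he
  rw [h4] at h2
  exact tendsto_nhds_unique h2 h3

/-- The limit of sorted eigenvalues: if `A_m → A`, all `A_m` Hermitian, then `evs A_m → evs A`.
Proof: it is enough that every subsequence has a subsequence with this limit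
(`Filter.tendsto_of_subseq_tendsto`). By compactness of `SU n` (`compactSpace_SU`) and `evs_le` a
subsequence of the pairs (u_m, evs A_m) converges to some (u, x); `x` is antitone and
`u A u^* = dgr x`; `evs_unique`. -/
theorem evs_tendsto {A : ℕ → Mx n} {B : Mx n} (hA : ∀ m, (A m).IsHermitian)
    (h : Tendsto A atTop (𝓝 B)) : Tendsto (fun m => evs (A m)) atTop (𝓝 (evs B)) := by
  have hB : B.IsHermitian := by
    have h1 : Tendsto (fun m => (A m)ᴴ) atTop (𝓝 Bᴴ) :=
      ((continuous_id.matrix_conjTranspose).tendsto B).comp h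
    have h2 : (fun m => (A m)ᴴ) = A := funext fun m => (hA m).eq
    rw [h2] at h1
    exact tendsto_nhds_unique h1 h
  have hbd : ∃ C : ℝ, ∀ m, ∑ a, ∑ b, ‖A m a b‖ ≤ C := by
    have h1 : Continuous fun M : Mx n => ∑ a, ∑ b, ‖M a b‖ :=
      continuous_finsetSum _ fun a _ => continuous_finsetSum _ fun b _ =>
        (continuous_id.matrix_elem a b).norm
    obtain ⟨C, hC⟩ := ((h1.tendsto B).comp h).bddAbove_range
    exact ⟨C, fun m => hC ⟨m, rfl⟩⟩
  obtain ⟨C, hC⟩ := hbd
  choose u hu he using fun m => exists_evs (hA m)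
  have hfc : FirstCountableTopology (Mx n) :=
    inferInstanceAs (FirstCountableTopology (Fin n → Fin n → ℂ))
  have hco : Continuous fun v : Gp n => (v : Mx n) := continuous_subtype_val
  have hcs : IsCompact ((fun v : SU n => ((v : Gp n) : Mx n)) '' Set.univ) := by
    have : CompactSpace (SU n) := compactSpace_SU n
    exact isCompact_univ.image (hco.comp continuous_subtype_val)
  have hcb : IsCompact (Set.pi Set.univ fun _ : Fin n => Set.Icc (-C) C) :=
    isCompact_univ_pi fun _ => isCompact_Icc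
  apply tendsto_of_subseq_tendsto
  intro ns hns
  obtain ⟨⟨U, x⟩, ⟨⟨v, _, hv⟩, _⟩, φ, hφ, hlim⟩ := (hcs.prod hcb).tendsto_subseq
    (x := fun k => ((u (ns k) : Mx n), evs (A (ns k)))) (fun k => by
      refine ⟨⟨⟨u (ns k), hu (ns k)⟩, Set.mem_univ _, rfl⟩, ?_⟩
      intro i _
      exact abs_le.1 ((evs_le (hA _) i).trans (hC _)))
  refine ⟨φ, ?_⟩
  have hl1 : Tendsto (fun k => (u (ns (φ k)) : Mx n)) atTop (𝓝 U) :=
    (continuous_fst.tendsto (U, x)).comp hlim
  have hl2 : Tendsto (fun k => evs (A (ns (φ k)))) atTop (𝓝 x) :=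
    (continuous_snd.tendsto (U, x)).comp hlim
  have hl3 : Tendsto (fun k => A (ns (φ k))) atTop (𝓝 B) :=
    h.comp (hns.comp hφ.tendsto_atTop)
  have hx : Antitone x := by
    intro i j hij
    have h1 : Tendsto (fun k => evs (A (ns (φ k))) i) atTop (𝓝 (x i)) :=
      ((continuous_apply i).tendsto x).comp hl2
    have h2 : Tendsto (fun k => evs (A (ns (φ k))) j) atTop (𝓝 (x j)) :=
      ((continuous_apply j).tendsto x).comp hl2
    exact le_of_tendsto_of_tendsto' h2 h1 fun k => evs_antitone _ hij
  have hvU : ((v : Gp n) : Mx n) = U := hv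
  have h1 : (((v : Gp n)) : Mx n) * B * (((v : Gp n)) : Mx n)ᴴ = dgr x := by
    rw [hvU]
    exact mI2_lim hl1 hl3 hl2 fun k => he _
  rw [evs_unique hB hx v.2 h1]
  exact hl2

/-- From `evs_tendsto` (the space of matrices is first countable, `ContinuousOn`, `mem_closure...`
or `tendsto_of_seq_tendsto`). -/
theorem evs_continuousOn : ContinuousOn (evs : Mx n → Fin n → ℝ) {A | A.IsHermitian} := by
  rw [continuousOn_iff_continuous_domRestrict, continuous_iff_continuousAt]
  intro a
  have hfc : FirstCountableTopology (Mx n) :=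
    inferInstanceAs (FirstCountableTopology (Fin n → Fin n → ℂ))
  apply tendsto_of_seq_tendsto
  intro x hx
  exact evs_tendsto (fun m => (x m).2) ((continuous_subtype_val.tendsto a).comp hx)

theorem evs_comp {Y : Type} [TopologicalSpace Y] {A : Y → Mx n} (hA : Continuous A)
    (h : ∀ y, (A y).IsHermitian) : Continuous fun y => evs (A y) := by
  exact evs_continuousOn.comp_continuous hA h

/-- The same pattern of equalities. -/
def SamePat (x y : Fin n → ℝ) : Prop := ∀ i j, x i = x j ↔ y i = y j

/-- The number of strict inequalities. -/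
noncomputable def gaps (x : Fin n → ℝ) : ℕ := by
  classical
  exact (Finset.univ.filter fun p : Fin n × Fin n => x p.2 < x p.1).card

theorem gaps_le (x : Fin n → ℝ) : gaps x ≤ n * n := by
  classical
  unfold gaps
  refine (Finset.card_filter_le _ _).trans ?_
  rw [Finset.card_univ, Fintype.card_prod, Fintype.card_fin]

/-- If `x` is antitone, `y` is near `x` and antitone and has not more strict inequalities than
`x`, then it has the same pattern. -/
theorem samePat_of_gaps {x : Fin n → ℝ} (hx : Antitone x) : ∃ O ∈ 𝓝 x, ∀ y ∈ O, Antitone y →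
    gaps y ≤ gaps x → SamePat y x := by
  classical
  refine ⟨{y | ∀ p : Fin n × Fin n, x p.2 < x p.1 → y p.2 < y p.1}, ?_, ?_⟩
  · have h1 : ∀ᶠ y in 𝓝 x, ∀ p : Fin n × Fin n, x p.2 < x p.1 → y p.2 < y p.1 := by
      rw [eventually_all]
      intro p
      by_cases hp : x p.2 < x p.1
      · have h2 : IsOpen {y : Fin n → ℝ | y p.2 < y p.1} :=
          isOpen_lt (continuous_apply p.2) (continuous_apply p.1)
        filter_upwards [h2.mem_nhds hp] with y hy _ using hy
      · exact Eventually.of_forall fun y h => absurd h hp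
    exact h1
  · intro y hy _ hg
    have h1 : (Finset.univ.filter fun p : Fin n × Fin n => x p.2 < x p.1) ⊆
        Finset.univ.filter fun p : Fin n × Fin n => y p.2 < y p.1 := by
      intro p hp
      rw [Finset.mem_filter] at hp ⊢
      exact ⟨hp.1, hy p hp.2⟩
    have h2 : (Finset.univ.filter fun p : Fin n × Fin n => x p.2 < x p.1) =
        Finset.univ.filter fun p : Fin n × Fin n => y p.2 < y p.1 := by
      apply Finset.eq_of_subset_of_card_le h1
      unfold gaps at hg
      exact hg
    have h3 : ∀ i j, x j < x i ↔ y j < y i := by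
      intro i j
      have h4 := Finset.ext_iff.1 h2 (i, j)
      simpa only [Finset.mem_filter, Finset.mem_univ, true_and] using h4
    intro i j
    constructor
    · intro h
      refine le_antisymm (not_lt.1 fun h4 => ?_) (not_lt.1 fun h4 => ?_)
      · exact absurd h ((h3 i j).1 h4).ne'
      · exact absurd h ((h3 j i).1 h4).ne
    · intro h
      refine le_antisymm (not_lt.1 fun h4 => ?_) (not_lt.1 fun h4 => ?_)
      · exact absurd h ((h3 i j).2 h4).ne'
      · exact absurd h ((h3 j i).2 h4).ne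

end Pool.Agent.SG
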