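import Pool.Agent.H.MP_e23cd6_ag.SG.M.F3
import Pool.Agent.H.MP_e23cd6_ag.SG.M.I2

/-!
# Block M: the level function `J0` of a vector, (7.1), (7.2)
-/

set_option autoImplicit false

open Matrix Topology Filter

namespace Pool.Agent.SG

variable {n : ℕ}


section rep

variable {ι : Type} [Fintype ι] [DecidableEq ι] (R : Rep n ι)

/-- The level function of the vector `v`. -/
noncomputable def J0 (θ : Fin n → ℝ) (v : ι → ℂ) (g : Gp n) : ℝ :=
  lgv R v g + ∑ i, θ i * hw g i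

theorem J0_SU (θ : Fin n → ℝ) (v : ι → ℂ) {k : Gp n} (hk : k ∈ SU n) (g : Gp n) :
    J0 R θ v (k * g) = J0 R θ v g := by
  unfold J0
  rw [lgv_SU R hk, hw_SU hk]

/-- The real part of the trace of `(cj u H) (-dgr θ)`. -/
theorem mG_trace (θ : Fin n → ℝ) (ξ : Mx n) :
    (ξ * -dgr θ).trace.re = -∑ i, θ i * (ξ i i).re := by
  have h1 : (ξ * -dgr θ).trace = -∑ i, (θ i : ℂ) * ξ i i := by
    rw [Matrix.mul_neg, Matrix.trace_neg]
    congr 1
    unfold dgr Matrix.trace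
    refine Finset.sum_congr rfl fun i _ => ?_
    rw [Matrix.diag_apply, Matrix.mul_diagonal, mul_comm]
  rw [h1, Complex.neg_re, Complex.re_sum]
  congr 1
  refine Finset.sum_congr rfl fun i _ => ?_
  rw [Complex.re_ofReal_mul]

/-- Semistability (7.1) and more: `lgv_ex_ge`, `hwR_ge`; the trace of `(cj u H) (-dgr θ)` is
`-∑ θ_i (cj u H)_ii`. -/
theorem J0_nonneg {θ : Fin n → ℝ} (hθ : Antitone θ) {v : ι → ℂ} (hv : v ≠ 0)
    (hm : mom R v = -dgr θ) (g : Gp n) : 0 ≤ J0 R θ v g := by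
  obtain ⟨k, hk, u, hu, H, rfl⟩ := polar g
  rw [J0_SU R θ v hk]
  have h1 := lgv_ex_ge R hu H hv
  have h2 := hwR_ge hθ hu H
  rw [hm, mG_trace] at h1
  unfold J0
  linarith

/-- Equality case: `lgv_ex_eq`, `hwR_eq` (and the matrix `cj u H` is Hermitian). -/
theorem J0_eq {θ : Fin n → ℝ} (hθ : Antitone θ) {v : ι → ℂ} (hv : v ≠ 0)
    (hm : mom R v = -dgr θ) {u : Gp n} (hu : u ∈ SU n) (H : aa n)
    (h : J0 R θ v (ex u H 1) ≤ 0) :
    (∃ κ : ℝ, ∀ z : ℂ, R.act (ex u H z) v = Complex.exp (z * κ) • v) ∧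
      ∀ a b, θ a ≠ θ b → cj u H a b = 0 := by
  have h1 := lgv_ex_ge R hu H hv
  have h2 := hwR_ge hθ hu H
  have h3 := mG_trace θ (cj u H)
  rw [← hm] at h3
  unfold J0 at h
  refine ⟨lgv_ex_eq R hu H hv (by linarith), fun a b hab => ?_⟩
  have h4 : ∀ a b, θ b < θ a → cj u H b a = 0 := fun a b hab =>
    hwR_eq hθ hu H (by linarith) hab
  rcases lt_or_gt_of_ne hab with h5 | h5
  · exact h4 b a h5
  · have h6 := (HT_cj hu H).1
    have h7 := congrFun (congrFun h6 a) b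
    rw [Matrix.conjTranspose_apply, h4 a b h5, star_zero] at h7
    exact h7.symm

theorem J0_star {θ : Fin n → ℝ} (hθ : Antitone θ) {v : ι → ℂ} (hv : v ≠ 0) {u : Gp n}
    (hu : u ∈ SU n) (H : aa n) {τ : ℝ} (h0 : 0 ≤ τ) (hτ : τ ≤ 1) :
    J0 R θ v (ex u H τ) ≤ τ * J0 R θ v (ex u H 1) := by
  have h1 := lgv_star R hu H hv h0 hτ
  have h2 := hwR_star hθ hu H h0 hτ
  unfold J0
  rw [mul_add]
  exact add_le_add h1 h2

end rep

end Pool.Agent.SG
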