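import Pool.Agent.H.MP_e23cd6_ag.SG.M.G

/-!
# Block M: the level function `J0` of a vector, (7.1), (7.2) (continued)
-/

set_option autoImplicit false

open Matrix Topology Filter

namespace Pool.Agent.SG

variable {n : ℕ}

theorem mG2_dg_one : Continuous fun H : aa n => dg H 1 := by
  apply continuous_induced_rng.2
  show Continuous fun H : aa n => Matrix.diagonal fun j => Complex.exp (1 * H.1 j)
  refine Continuous.matrix_diagonal (continuous_pi fun j => ?_)
  have h1 : Continuous fun H : aa n => (H.1 j : ℝ) := (continuous_apply j).comp continuous_subtype_val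
  exact Complex.continuous_exp.comp (continuous_const.mul (Complex.continuous_ofReal.comp h1))

theorem mG2_sphere : IsCompact {H : aa n | ∑ j, |H.1 j| = 1} := by
  have hc : Continuous fun H : aa n => ∑ j, |H.1 j| := by
    refine continuous_finsetSum _ fun j _ => continuous_abs.comp ?_
    exact (continuous_apply j).comp continuous_subtype_val
  refine Metric.isCompact_of_isClosed_isBounded (isClosed_eq hc continuous_const) ?_
  refine (Metric.isBounded_closedBall (x := (0 : aa n)) (r := 1)).subset fun H hH => ?_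
  rw [mem_closedBall_zero_iff]
  show ‖(H : Fin n → ℝ)‖ ≤ 1
  rw [pi_norm_le_iff_of_nonneg zero_le_one]
  intro j
  rw [Real.norm_eq_abs, ← (show ∑ j, |H.1 j| = 1 from hH)]
  exact Finset.single_le_sum (f := fun j => |H.1 j|) (fun j _ => abs_nonneg _) (Finset.mem_univ j)

section rep

variable {ι : Type} [Fintype ι] [DecidableEq ι] (R : Rep n ι)

/-- Joint continuity in the direction: `(u, H) ↦ ex u H 1` is continuous, `continuous_lgv`,
`hw_cont`. -/
theorem continuous_J0_ex (θ : Fin n → ℝ) {v : ι → ℂ} (hv : v ≠ 0) :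
    Continuous fun w : Gp n × aa n => J0 R θ v (ex w.1 w.2 1) := by
  have h1 : Continuous fun g : Gp n => J0 R θ v g := by
    unfold J0
    exact (continuous_lgv R hv).add
      (continuous_finsetSum _ fun i _ => continuous_const.mul (hw_cont i))
  have h2 : Continuous fun w : Gp n × aa n => ex w.1 w.2 1 := by
    unfold ex
    exact ((continuous_inv.comp continuous_fst).mul
      (mG2_dg_one.comp continuous_snd)).mul continuous_fst
  exact h1.comp h2

/-- Uniform growth along the rays if there is no null direction: the minimum of `J0 (ex u H 1)`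
over the compact set of all `u` in `SU n` and `H` with `∑ |H_j| = 1` is positive
(`isClosed_SU`, `compactSpace_SU`; the set of `H` is compact by `isCompact_of_isClosed_isBounded`
in the finite dimensional space `aa n`), and `J0_star` with `τ = 1 / ∑ |H_j|`, `ex_smul`. -/
theorem J0_growth {θ : Fin n → ℝ} (hθ : Antitone θ) {v : ι → ℂ} (hv : v ≠ 0)
    (hpos : ∀ u ∈ SU n, ∀ H : aa n, ∑ j, |H.1 j| = 1 → 0 < J0 R θ v (ex u H 1)) :
    ∃ δ : ℝ, 0 < δ ∧ ∀ u ∈ SU n, ∀ H : aa n, 1 ≤ ∑ j, |H.1 j| →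
      δ * ∑ j, |H.1 j| ≤ J0 R θ v (ex u H 1) := by
  have hK : IsCompact ((SU n : Set (Gp n)) ×ˢ {H : aa n | ∑ j, |H.1 j| = 1}) :=
    (isCompact_iff_compactSpace.2 (compactSpace_SU n)).prod mG2_sphere
  obtain ⟨δ, hδ, hmin⟩ : ∃ δ : ℝ, 0 < δ ∧ ∀ u ∈ SU n, ∀ H : aa n, ∑ j, |H.1 j| = 1 →
      δ ≤ J0 R θ v (ex u H 1) := by
    rcases Set.eq_empty_or_nonempty
      ((SU n : Set (Gp n)) ×ˢ {H : aa n | ∑ j, |H.1 j| = 1}) with h0 | h0
    · refine ⟨1, one_pos, fun u hu H hH => ?_⟩
      have h1 : (u, H) ∈ ((SU n : Set (Gp n)) ×ˢ {H : aa n | ∑ j, |H.1 j| = 1}) := ⟨hu, hH⟩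
      rw [h0] at h1
      exact absurd h1 (Set.notMem_empty _)
    · obtain ⟨w, hw, hm⟩ := hK.exists_isMinOn h0 (continuous_J0_ex R θ hv).continuousOn
      have hm' := isMinOn_iff.1 hm
      refine ⟨J0 R θ v (ex w.1 w.2 1), hpos w.1 hw.1 w.2 hw.2, fun u hu H hH => ?_⟩
      have hp : (u, H) ∈ ((SU n : Set (Gp n)) ×ˢ {H : aa n | ∑ j, |H.1 j| = 1}) := ⟨hu, hH⟩
      exact hm' (u, H) hp
  refine ⟨δ, hδ, fun u hu H hH => ?_⟩
  set S : ℝ := ∑ j, |H.1 j| with hS
  have hS0 : 0 < S := lt_of_lt_of_le one_pos hH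
  have h1 : ∑ j, |((1 / S) • H).1 j| = 1 := by
    have h2 : ∀ j, |((1 / S) • H).1 j| = (1 / S) * |H.1 j| := by
      intro j
      show |(1 / S) * H.1 j| = _
      rw [abs_mul, abs_of_pos (by positivity)]
    rw [Finset.sum_congr rfl fun j _ => h2 j, ← Finset.mul_sum, ← hS]
    field_simp
  have h2 := hmin u hu _ h1
  have h3 := J0_star R hθ hv hu H (τ := 1 / S) (by positivity) (by
    rw [div_le_one hS0]
    exact hH)
  rw [ex_smul, mul_one] at h2
  have h4 : δ ≤ 1 / S * J0 R θ v (ex u H 1) := h2.trans h3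
  calc δ * S ≤ (1 / S * J0 R θ v (ex u H 1)) * S := mul_le_mul_of_nonneg_right h4 hS0.le
    _ = J0 R θ v (ex u H 1) := by field_simp

end rep

end Pool.Agent.SG
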