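import Pool.Agent.H.MP_e23cd6_ag.SG.M.G2

/-!
# Block M: the level function `J0` of a vector, (7.1), (7.2) (continued)
-/

set_option autoImplicit false

open Matrix Topology Filter

namespace Pool.Agent.SG

variable {n : ℕ}

theorem isB_dg (H : aa n) (z : ℂ) : IsB (dg H z) := by
  intro i j hij
  rw [coe_dg]
  exact Matrix.diagonal_apply_ne _ hij.ne'

theorem holCurve_dg (H : aa n) : HolCurve fun z => dg H z := by
  intro i j
  by_cases hij : i = j
  · subst hij
    have e : (fun z : ℂ => (dg H z : Mx n) i i) = fun z => Complex.exp (z * H.1 i) := by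
      funext z
      rw [coe_dg, Matrix.diagonal_apply_eq]
    rw [e]
    fun_prop
  · have e : (fun z : ℂ => (dg H z : Mx n) i j) = fun _ => 0 := by
      funext z
      rw [coe_dg]
      exact Matrix.diagonal_apply_ne _ hij
    rw [e]
    exact differentiable_const _

theorem dg_eq_one {H : aa n} (h : ∀ z, dg H z = 1) : H = 0 := by
  apply Subtype.ext
  funext j
  have h1 := congrArg (fun g : Gp n => (g : Mx n) j j) (h 1)
  simp only [coe_dg, coe_gone, Matrix.diagonal_apply_eq, Matrix.one_apply_eq, one_mul] at h1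
  have h2 := congrArg norm h1
  rw [Complex.norm_exp, norm_one, Complex.ofReal_re, Real.exp_eq_one_iff] at h2
  exact h2

/-- If `θ` is strictly antitone and `cj u H` is diagonal, then `ex u H z = dg H' z`. -/
theorem ex_eq_dg {u : Gp n} (hu : u ∈ SU n) (H : aa n) (h : ∀ a b, a ≠ b → cj u H a b = 0) :
    ∃ H' : aa n, (∀ z, ex u H z = dg H' z) ∧ (H' = 0 → H = 0) := by
  obtain ⟨hH, htr⟩ := HT_cj hu H
  have hre : ∀ i, ((cj u H i i).re : ℂ) = cj u H i i := fun i => by
    have h1 := hH.apply i i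
    exact Complex.conj_eq_iff_re.1 h1
  have hsum : ∑ i, (cj u H i i).re = 0 := by
    have h1 : ∑ i, cj u H i i = 0 := htr
    have h2 := congrArg Complex.re h1
    rw [Complex.re_sum] at h2
    exact h2
  obtain ⟨H', hH'⟩ : ∃ H' : aa n, ∀ i, H'.1 i = (cj u H i i).re :=
    ⟨⟨fun i => (cj u H i i).re, hsum⟩, fun _ => rfl⟩
  have hcj : cj u H = cj 1 H' := by
    rw [cj_one]
    ext a b
    by_cases hab : a = b
    · subst hab
      rw [Matrix.diagonal_apply_eq, hH', hre]
    · rw [h a b hab, Matrix.diagonal_apply_ne _ hab]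
  have hex : ∀ z, ex u H z = dg H' z := by
    intro z
    rw [ex_congr hu (SU n).one_mem hcj z]
    unfold ex
    rw [inv_one, one_mul, mul_one]
  refine ⟨H', hex, ?_⟩
  intro h0
  apply dg_eq_one
  intro z
  have h1 := hex z
  have h2 : dg H' z = 1 := by
    rw [h0]
    apply gp_ext
    rw [coe_dg, coe_gone]
    have e : (fun j => Complex.exp (z * (((0 : aa n).1 j : ℝ) : ℂ))) = fun _ => (1 : ℂ) := by
      funext j
      have e0 : (0 : aa n).1 j = 0 := rfl
      rw [e0, Complex.ofReal_zero, mul_zero, Complex.exp_zero]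
    rw [e]
    exact Matrix.diagonal_one
  rw [h2] at h1
  unfold ex at h1
  have h3 : dg H z = u * (u⁻¹ * dg H z * u) * u⁻¹ := by group
  rw [h3, h1, mul_one, mul_inv_cancel]

theorem mG3_sz (H : aa n) {B : ℝ} (hH : ∑ j, |H.1 j| ≤ B) :
    sz (dg H 1) ≤ 2 * B + Real.log n := by
  rcases Nat.eq_zero_or_pos n with hn | hn
  · rw [sz_zero_n hn]
    have h0 : 0 ≤ ∑ j, |H.1 j| := Finset.sum_nonneg fun j _ => abs_nonneg _
    have h1 : Real.log (n : ℝ) = 0 := by
      rw [hn, Nat.cast_zero, Real.log_zero]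
    linarith
  · have h1 := (sz_dg H ⟨0, hn⟩).2
    linarith

section sys

variable {X : Type} [TopologicalSpace X] {act : Gp n → X → X} (D : PDat n X act)

/-- If the line of `v y` is fixed by `g`, then `y` is fixed by `g`. -/
theorem fix_of_line (hsep : ∀ y y', (∃ z : ℂ, D.v y' = z • D.v y) → y = y') {y : X} {g : Gp n}
    {c : ℂ} (h : D.R.act g (D.v y) = c • D.v y) : act g y = y := by
  obtain ⟨z, hz, h1⟩ := D.eqv g y
  refine (hsep y (act g y) ⟨z⁻¹ * c, ?_⟩).symm
  rw [mul_smul, ← h, h1, smul_smul, inv_mul_cancel₀ hz, one_smul]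

/-- (7.2) -/
theorem stable_of_mom (hsep : ∀ y y', (∃ z : ℂ, D.v y' = z • D.v y) → y = y')
    {θ : Fin n → ℝ} (hθ : StrictAnti θ) {y : X} (hm : mom D.R (D.v y) = -dgr θ)
    (hfix : NoFix act y) (M : ℝ) :
    ∃ r : ℝ, ∀ g, J0 D.R θ (D.v y) g ≤ M → sz g ≤ r := by
  have hpos : ∀ u ∈ SU n, ∀ H : aa n, ∑ j, |H.1 j| = 1 → 0 < J0 D.R θ (D.v y) (ex u H 1) := by
    intro u hu H hH
    by_contra hle
    push Not at hle
    obtain ⟨⟨κ, hκ⟩, hd⟩ := J0_eq D.R hθ.antitone (D.ne y) hm hu H hle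
    obtain ⟨H', hex, hH0⟩ := ex_eq_dg hu H fun a b hab => hd a b fun he => hab (hθ.injective he)
    have h1 := hfix (fun z => dg H' z) (fun z w => dg_add H' z w) (holCurve_dg H')
      (fun z => isB_dg H' z) fun z => by
        refine fix_of_line D hsep (c := Complex.exp (z * κ)) ?_
        rw [← hex z]
        exact hκ z
    have h2 := hH0 (dg_eq_one h1)
    rw [h2] at hH
    have h3 : ∑ j : Fin n, |(0 : aa n).1 j| = 0 := Finset.sum_eq_zero fun j _ => abs_zero
    rw [h3] at hH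
    exact zero_ne_one hH
  obtain ⟨δ, hδ, hgr⟩ := J0_growth D.R hθ.antitone (D.ne y) hpos
  refine ⟨2 * max 1 (M / δ) + Real.log n, fun g hg => ?_⟩
  obtain ⟨k, hk, u, hu, H, rfl⟩ := polar g
  rw [J0_SU D.R θ (D.v y) hk] at hg
  have hH : ∑ j, |H.1 j| ≤ max 1 (M / δ) := by
    rcases le_total (∑ j, |H.1 j|) 1 with h1 | h1
    · exact h1.trans (le_max_left _ _)
    · have h2 := (hgr u hu H h1).trans hg
      refine le_trans ?_ (le_max_right _ _)
      rw [le_div_iff₀ hδ]
      linarith [mul_comm δ (∑ j, |H.1 j|)]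
  have hsz : sz (k * ex u H 1) = sz (dg H 1) := by
    unfold ex
    rw [(sz_SU hk _).1, (sz_SU hu _).2, (sz_SU ((SU n).inv_mem hu) _).1]
  rw [hsz]
  exact mG3_sz H hH

end sys

/-- The level function of the system. -/
theorem lev_eq_J0 {X : Type} [TopologicalSpace X] (S : GSys n X) (θ : Fin n → ℝ) (y : X)
    (g : Gp n) : S.lev 0 1 θ y g =
      J0 (S.D 0 0).R (fun i => S.c 0 0 * θ i) ((S.D 0 0).v y) g / S.c 0 0 := by
  have hc : (S.c 0 0 : ℝ) ≠ 0 := by
    have := S.c_pos 0 0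
    positivity
  unfold GSys.lev J0 GSys.fP PDat.lg lgv
  have e : ∑ i, (S.c 0 0 : ℝ) * θ i * hw g i = S.c 0 0 * ∑ i, θ i * hw g i := by
    rw [Finset.mul_sum]
    exact Finset.sum_congr rfl fun i _ => by ring
  rw [e]
  field_simp
  ring

end Pool.Agent.SG
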