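import Pool.Agent.H.MP_e23cd6_ag.SG.M.A
import Pool.Agent.H.MP_e23cd6_ag.SG.Haar

/-!
# Block M: eigenvalues of Hermitian matrices in decreasing order
-/

set_option autoImplicit false

open Matrix Topology Filter

namespace Pool.Agent.SG

variable {n : ℕ}

/-- The diagonal matrix with real entries `x`. -/
noncomputable def dgr (x : Fin n → ℝ) : Mx n := Matrix.diagonal (fun i => (x i : ℂ))

theorem dgr_herm (x : Fin n → ℝ) : (dgr x).IsHermitian := by
  unfold dgr Matrix.IsHermitian
  rw [Matrix.diagonal_conjTranspose]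
  congr 1
  funext i
  simp

/-- The eigenvalues in decreasing order (zero if the matrix is not Hermitian). -/
noncomputable def evs (A : Mx n) : Fin n → ℝ := by
  classical
  exact if h : A.IsHermitian then
    fun i => h.eigenvalues₀ (Fin.cast (Fintype.card_fin n).symm i) else 0

/-- `Matrix.IsHermitian.eigenvalues₀_antitone`. -/
theorem evs_antitone (A : Mx n) : Antitone (evs A) := by
  intro i j hij
  unfold evs
  split_ifs with h
  · exact h.eigenvalues₀_antitone hij
  · exact le_refl _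

/-- The permutation that sorts the eigenvalues. -/
theorem mI_sort {A : Mx n} (hA : A.IsHermitian) :
    ∃ σ : Equiv.Perm (Fin n), ∀ i, hA.eigenvalues (σ.symm i) = evs A i := by
  refine ⟨(Fintype.equivOfCardEq (Fintype.card_fin (Fintype.card (Fin n)))).symm.trans
    (finCongr (Fintype.card_fin n)), fun i => ?_⟩
  unfold evs Matrix.IsHermitian.eigenvalues
  rw [dif_pos hA]
  simp [finCongr]

theorem mI_mem {u : Gp n} (hu : u ∈ SU n) : (u : Mx n)ᴴ * (u : Mx n) = 1 := mem_SU'.1 hu

theorem mI_mem' {u : Gp n} (hu : u ∈ SU n) : (u : Mx n) * (u : Mx n)ᴴ = 1 :=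
  mul_eq_one_comm.1 (mem_SU'.1 hu)

/-- Diagonalisation by an element of `SU n`. Proof: the spectral theorem gives a unitary matrix
with the diagonal matrix of `h.eigenvalues`, which is a permutation of `evs A`; multiply by the
permutation matrix and by a phase (`exists_phase`, compare the proof of `diag_herm`). -/
theorem exists_evs {A : Mx n} (hA : A.IsHermitian) :
    ∃ u ∈ SU n, (u : Mx n) * A * (u : Mx n)ᴴ = dgr (evs A) := by
  obtain ⟨u₀, hu₀, h0⟩ := diag_herm hA
  obtain ⟨σ, hσ⟩ := mI_sort hA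
  have hD : (u₀ : Mx n) * A * (u₀ : Mx n)ᴴ =
      Matrix.diagonal (fun i => (hA.eigenvalues i : ℂ)) := by
    have h1 : (u₀ : Mx n) * ((u₀ : Mx n)ᴴ * Matrix.diagonal (fun i => (hA.eigenvalues i : ℂ)) *
        (u₀ : Mx n)) * (u₀ : Mx n)ᴴ = ((u₀ : Mx n) * (u₀ : Mx n)ᴴ) *
          Matrix.diagonal (fun i => (hA.eigenvalues i : ℂ)) * ((u₀ : Mx n) * (u₀ : Mx n)ᴴ) := by
      simp only [Matrix.mul_assoc]
    rw [mI_mem' hu₀, one_mul, mul_one] at h1
    rw [← h1, ← h0]
  obtain ⟨U, hU⟩ : ∃ U : Mx n, U = (u₀ : Mx n).submatrix σ.symm id := ⟨_, rfl⟩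
  have hsub : ∀ B : Mx n, U * B * Uᴴ =
      ((u₀ : Mx n) * B * (u₀ : Mx n)ᴴ).submatrix σ.symm σ.symm := by
    intro B
    rw [hU]
    rfl
  have hUU : U * Uᴴ = 1 := by
    have h1 := hsub 1
    rw [mul_one, mul_one, mI_mem' hu₀, Matrix.submatrix_one_equiv] at h1
    exact h1
  have hUA : U * A * Uᴴ = dgr (evs A) := by
    rw [hsub, hD]
    unfold dgr
    ext i j
    rw [Matrix.submatrix_apply, Matrix.diagonal_apply, Matrix.diagonal_apply]
    by_cases hij : i = j
    · rw [hij, if_pos rfl, if_pos rfl, hσ]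
    · rw [if_neg hij, if_neg (fun h => hij (σ.symm.injective h))]
  have hUm : U ∈ Matrix.unitaryGroup (Fin n) ℂ := by
    rw [Matrix.mem_unitaryGroup_iff]
    exact hUU
  obtain ⟨d, hd1, hd2⟩ := exists_phase hUm
  have hcon : ∀ B : Mx n, (d • U) * B * (d • U)ᴴ = U * B * Uᴴ := by
    intro B
    rw [conjTranspose_smul, Matrix.mul_smul, Matrix.smul_mul, Matrix.smul_mul, smul_smul,
      mul_comm (star d), hd1, one_smul]
  refine ⟨⟨d • U, hd2⟩, ?_, ?_⟩
  · rw [mem_SU']
    show (d • U)ᴴ * (d • U) = 1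
    apply mul_eq_one_comm.1
    have h1 := hcon 1
    rw [mul_one, mul_one, hUU] at h1
    exact h1
  · show (d • U) * A * (d • U)ᴴ = dgr (evs A)
    rw [hcon, hUA]

theorem mI_roots (x : Fin n → ℝ) :
    (dgr x).charpoly.roots.map Complex.re = Multiset.map x Finset.univ.val := by
  unfold dgr
  rw [Matrix.charpoly_diagonal, Polynomial.roots_prod]
  · simp only [Polynomial.roots_X_sub_C, Multiset.bind_singleton, Multiset.map_map]
    refine Multiset.map_congr rfl fun i _ => ?_
    simp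
  · simp [Finset.prod_ne_zero_iff, Polynomial.X_sub_C_ne_zero]

theorem mI_sorted {x : Fin n → ℝ} (hx : Antitone x) :
    (Multiset.map x Finset.univ.val).sort (· ≥ ·) = List.ofFn x := by
  simp_rw [Fin.univ_val_map, Multiset.coe_sort]
  apply List.mergeSort_of_pairwise
  simp_rw [decide_eq_true_eq, ← List.sortedGE_iff_pairwise]
  exact hx.sortedGE_ofFn

theorem mI_charpoly {u : Gp n} (hu : u ∈ SU n) (A : Mx n) :
    ((u : Mx n) * A * (u : Mx n)ᴴ).charpoly = A.charpoly := by
  rw [Matrix.charpoly_mul_comm, ← Matrix.mul_assoc, mI_mem hu, one_mul]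

/-- Two antitone functions with the same multiset of values are equal; the multiset of the
diagonal entries of a diagonal matrix is given by the characteristic polynomial. -/
theorem antitone_unique {x y : Fin n → ℝ} (hx : Antitone x) (hy : Antitone y)
    (h : (dgr x).charpoly = (dgr y).charpoly) : x = y := by
  rw [← List.ofFn_inj, ← mI_sorted hx, ← mI_sorted hy, ← mI_roots x, ← mI_roots y, h]

theorem evs_unique {A : Mx n} (hA : A.IsHermitian) {x : Fin n → ℝ} (hx : Antitone x) {u : Gp n}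
    (hu : u ∈ SU n) (h : (u : Mx n) * A * (u : Mx n)ᴴ = dgr x) : evs A = x := by
  obtain ⟨v, hv, hv'⟩ := exists_evs hA
  apply antitone_unique (evs_antitone A) hx
  rw [← hv', ← h, mI_charpoly hv, mI_charpoly hu]

theorem evs_dgr {x : Fin n → ℝ} (hx : Antitone x) : evs (dgr x) = x := by
  refine evs_unique (dgr_herm x) hx (one_mem (SU n)) ?_
  rw [coe_gone, conjTranspose_one, one_mul, mul_one]

theorem evs_conj {A : Mx n} (hA : A.IsHermitian) {k : Gp n} (hk : k ∈ SU n) :
    evs ((k : Mx n) * A * (k : Mx n)ᴴ) = evs A := by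
  obtain ⟨v, hv, hv'⟩ := exists_evs hA
  have hH : ((k : Mx n) * A * (k : Mx n)ᴴ).IsHermitian :=
    Matrix.isHermitian_mul_mul_conjTranspose (k : Mx n) hA
  refine evs_unique hH (evs_antitone A) (mul_mem hv (inv_mem hk)) ?_
  have h1 : ((v * k⁻¹ : Gp n) : Mx n) * (k : Mx n) = (v : Mx n) := by
    rw [← coe_gmul, inv_mul_cancel_right]
  have h2 : ((v * k⁻¹ : Gp n) : Mx n) * ((k : Mx n) * A * (k : Mx n)ᴴ) *
      ((v * k⁻¹ : Gp n) : Mx n)ᴴ = (((v * k⁻¹ : Gp n) : Mx n) * (k : Mx n)) * A *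
        (((v * k⁻¹ : Gp n) : Mx n) * (k : Mx n))ᴴ := by
    rw [conjTranspose_mul ((v * k⁻¹ : Gp n) : Mx n) (k : Mx n)]
    simp only [Matrix.mul_assoc]
  rw [h2, h1, hv']

end Pool.Agent.SG
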