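import Pool.Agent.H.MP_e23cd6_ag.SG.M.I2

/-!
# Block M: Hermitian matrices near a diagonal matrix with the same pattern of multiplicities
-/

set_option autoImplicit false

open Matrix Topology Filter

namespace Pool.Agent.SG

variable {n : ℕ}

/-- The projection to the block of `i₀`. -/
noncomputable def blk (θ : Fin n → ℝ) (i₀ : Fin n) : Mx n := by
  classical
  exact Matrix.diagonal (fun i => if θ i = θ i₀ then (1 : ℂ) else 0)

/-- The sum of the absolute values of the entries. -/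
noncomputable def l1 (A : Mx n) : ℝ := ∑ a, ∑ b, ‖A a b‖

theorem l1_nonneg (A : Mx n) : 0 ≤ l1 A :=
  Finset.sum_nonneg fun _ _ => Finset.sum_nonneg fun _ _ => norm_nonneg _

theorem l1_entry (A : Mx n) (a b : Fin n) : ‖A a b‖ ≤ l1 A := by
  refine le_trans ?_ (Finset.single_le_sum (f := fun a => ∑ b, ‖A a b‖)
    (fun _ _ => Finset.sum_nonneg fun _ _ => norm_nonneg _) (Finset.mem_univ a))
  exact Finset.single_le_sum (f := fun b => ‖A a b‖) (fun _ _ => norm_nonneg _)
    (Finset.mem_univ b)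

theorem l1_add (A B : Mx n) : l1 (A + B) ≤ l1 A + l1 B := by
  unfold l1
  rw [← Finset.sum_add_distrib]
  refine Finset.sum_le_sum fun a _ => ?_
  rw [← Finset.sum_add_distrib]
  exact Finset.sum_le_sum fun b _ => norm_add_le _ _

theorem l1_mul (A B : Mx n) : l1 (A * B) ≤ l1 A * l1 B := by
  have h1 : ∀ a b, ‖(A * B) a b‖ ≤ ∑ c, ‖A a c‖ * ‖B c b‖ := by
    intro a b
    rw [Matrix.mul_apply]
    refine (norm_sum_le _ _).trans (le_of_eq ?_)
    exact Finset.sum_congr rfl fun c _ => norm_mul _ _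
  have h2 : ∀ a, ∑ b, ‖(A * B) a b‖ ≤ ∑ c, ‖A a c‖ * l1 B := by
    intro a
    refine (Finset.sum_le_sum fun b _ => h1 a b).trans ?_
    rw [Finset.sum_comm]
    refine Finset.sum_le_sum fun c _ => ?_
    rw [← Finset.mul_sum]
    refine mul_le_mul_of_nonneg_left ?_ (norm_nonneg _)
    exact Finset.single_le_sum (f := fun c => ∑ b, ‖B c b‖)
      (fun _ _ => Finset.sum_nonneg fun _ _ => norm_nonneg _) (Finset.mem_univ c)
  calc l1 (A * B) = ∑ a, ∑ b, ‖(A * B) a b‖ := rfl
    _ ≤ ∑ a, ∑ c, ‖A a c‖ * l1 B := Finset.sum_le_sum fun a _ => h2 a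
    _ = l1 A * l1 B := by
        simp only [← Finset.sum_mul]
        rfl

theorem l1_smul (c : ℂ) (A : Mx n) : l1 (c • A) = ‖c‖ * l1 A := by
  unfold l1
  rw [Finset.mul_sum]
  refine Finset.sum_congr rfl fun a _ => ?_
  rw [Finset.mul_sum]
  refine Finset.sum_congr rfl fun b _ => ?_
  rw [Matrix.smul_apply, smul_eq_mul, norm_mul]

theorem l1_blk (θ : Fin n → ℝ) (i₀ : Fin n) : l1 (blk θ i₀) ≤ n := by
  classical
  have h : ∀ a, ∑ b, ‖blk θ i₀ a b‖ ≤ 1 := by
    intro a
    rw [Finset.sum_eq_single a]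
    · unfold blk
      rw [Matrix.diagonal_apply_eq]
      split_ifs <;> simp
    · intro b _ hb
      unfold blk
      rw [Matrix.diagonal_apply_ne _ (Ne.symm hb), norm_zero]
    · intro h
      exact absurd (Finset.mem_univ a) h
  calc l1 (blk θ i₀) = ∑ a, ∑ b, ‖blk θ i₀ a b‖ := rfl
    _ ≤ ∑ _a : Fin n, (1 : ℝ) := Finset.sum_le_sum fun a _ => h a
    _ = n := by simp

/-- A small idempotent matrix is zero (`l1_mul`). -/
theorem idem_small {A : Mx n} (h : A * A = A) (h1 : l1 A < 1) : A = 0 := by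
  have h2 : l1 A ≤ l1 A * l1 A := by
    conv_lhs => rw [← h]
    exact l1_mul A A
  have h3 : l1 A = 0 := by
    have h0 := l1_nonneg A
    by_contra hne
    have hpos : 0 < l1 A := lt_of_le_of_ne h0 (Ne.symm hne)
    nlinarith
  ext a b
  have h4 := l1_entry A a b
  rw [h3] at h4
  exact norm_le_zero_iff.mp h4

/-- If `u` in `SU n` commutes with `dgr θ`, it commutes with `blk θ i₀`. More generally a matrix
`W` with `W * dgr x = dgr x * W` has `W i j = 0` for `x i ≠ x j`. -/
theorem comm_dgr {x : Fin n → ℝ} {W : Mx n} (h : W * dgr x = dgr x * W) {i j : Fin n}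
    (hij : x i ≠ x j) : W i j = 0 := by
  have h1 := congrFun (congrFun h i) j
  unfold dgr at h1
  rw [Matrix.mul_diagonal, Matrix.diagonal_mul] at h1
  have h2 : ((x i : ℂ) - (x j : ℂ)) * W i j = 0 := by
    rw [sub_mul, ← h1]
    ring
  rcases mul_eq_zero.mp h2 with h3 | h3
  · exfalso
    apply hij
    have h4 : (x i : ℂ) = (x j : ℂ) := sub_eq_zero.mp h3
    exact_mod_cast h4
  · exact h3

theorem comm_blk {θ : Fin n → ℝ} {W : Mx n} (h : ∀ i j, θ i ≠ θ j → W i j = 0) (i₀ : Fin n) :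
    W * blk θ i₀ = blk θ i₀ * W := by
  classical
  ext i j
  unfold blk
  rw [Matrix.mul_diagonal, Matrix.diagonal_mul]
  by_cases hij : θ i = θ j
  · rw [hij, mul_comm]
  · rw [h i j hij, zero_mul, mul_zero]

end Pool.Agent.SG
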