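import Pool.Agent.H.MP_e23cd6_ag.SG.M.J

/-!
# Block M: Hermitian matrices near a diagonal matrix with the same pattern of multiplicities (continued)
-/

set_option autoImplicit false

open Matrix Topology Filter

namespace Pool.Agent.SG

variable {n : ℕ}

/-- The conjugated projection is near the block projection. If not, there are `ε > 0`, matrices
`A_m → dgr θ` and `u_m` in `SU n` with `u_m A_m u_m^* = dgr (evs A_m)` and
`ε < l1 (u_m^* (blk θ i₀) u_m - blk θ i₀)`; by compactness of `SU n` we may assume `u_m → u`; by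
`evs_tendsto` and `evs_dgr` the limit is `u (dgr θ) u^* = dgr θ`, so `u` commutes with `dgr θ`
and with `blk θ i₀` (`comm_dgr`, `comm_blk`): contradiction. -/
theorem near_blk {θ : Fin n → ℝ} (hθ : Antitone θ) (i₀ : Fin n) {ε : ℝ} (hε : 0 < ε) :
    ∃ δ > 0, ∀ A : Mx n, A.IsHermitian → l1 (A - dgr θ) ≤ δ →
      ∀ u ∈ SU n, (u : Mx n) * A * (u : Mx n)ᴴ = dgr (evs A) →
        l1 ((u : Mx n)ᴴ * blk θ i₀ * (u : Mx n) - blk θ i₀) ≤ ε := by
  by_contra hcon
  push Not at hcon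
  have hpos : ∀ m : ℕ, (0 : ℝ) < 1 / ((m : ℝ) + 1) := fun m => by positivity
  choose A hA hAδ u hu he hlt using fun m : ℕ => hcon (1 / ((m : ℝ) + 1)) (hpos m)
  have hAlim : Tendsto A atTop (𝓝 (dgr θ)) := by
    have h0 : Tendsto (fun m : ℕ => (1 : ℝ) / ((m : ℝ) + 1)) atTop (𝓝 0) :=
      tendsto_one_div_add_atTop_nhds_zero_nat
    refine tendsto_pi_nhds.2 fun a => tendsto_pi_nhds.2 fun b => ?_
    rw [tendsto_iff_norm_sub_tendsto_zero]
    refine squeeze_zero (fun _ => norm_nonneg _) (fun m => ?_) h0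
    exact (l1_entry (A m - dgr θ) a b).trans (hAδ m)
  have hco : Continuous fun v : Gp n => (v : Mx n) := continuous_subtype_val
  have hfc : FirstCountableTopology (Mx n) :=
    inferInstanceAs (FirstCountableTopology (Fin n → Fin n → ℂ))
  have hcs : IsCompact ((fun v : SU n => ((v : Gp n) : Mx n)) '' Set.univ) := by
    have : CompactSpace (SU n) := compactSpace_SU n
    exact isCompact_univ.image (hco.comp continuous_subtype_val)
  obtain ⟨U, ⟨v, _, hv⟩, φ, hφ, hlim⟩ := hcs.tendsto_subseq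
    (x := fun k => (u k : Mx n)) (fun k => ⟨⟨u k, hu k⟩, Set.mem_univ _, rfl⟩)
  have hvU : ((v : Gp n) : Mx n) = U := hv
  have hA2 : Tendsto (fun k => A (φ k)) atTop (𝓝 (dgr θ)) := hAlim.comp hφ.tendsto_atTop
  have hev : Tendsto (fun k => evs (A (φ k))) atTop (𝓝 θ) := by
    have h1 := evs_tendsto (fun k => hA (φ k)) hA2
    rw [evs_dgr hθ] at h1
    exact h1
  have heq : U * dgr θ * Uᴴ = dgr θ := mI2_lim hlim hA2 hev fun k => he (φ k)
  have hUU : Uᴴ * U = 1 := by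
    rw [← hvU]
    exact mA_ct_mul v.2
  have hc : U * dgr θ = dgr θ * U := by
    have h1 : U * dgr θ * Uᴴ * U = dgr θ * U := by rw [heq]
    rw [Matrix.mul_assoc (U * dgr θ) Uᴴ U, hUU, Matrix.mul_one] at h1
    exact h1
  have hb : U * blk θ i₀ = blk θ i₀ * U :=
    comm_blk (θ := θ) (W := U) (fun i j hij => comm_dgr hc hij) i₀
  have hz : Uᴴ * blk θ i₀ * U - blk θ i₀ = 0 := by
    rw [Matrix.mul_assoc, ← hb, ← Matrix.mul_assoc, hUU, Matrix.one_mul, sub_self]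
  have hl1c : Continuous (l1 : Mx n → ℝ) := by
    unfold l1
    exact continuous_finsetSum _ fun a _ => continuous_finsetSum _ fun b _ =>
      (continuous_id.matrix_elem a b).norm
  have hU' : Tendsto (fun k => (u (φ k) : Mx n)ᴴ) atTop (𝓝 Uᴴ) :=
    ((continuous_id.matrix_conjTranspose).tendsto U).comp hlim
  have hX : Tendsto (fun k => (u (φ k) : Mx n)ᴴ * blk θ i₀ * (u (φ k) : Mx n) - blk θ i₀) atTop
      (𝓝 (Uᴴ * blk θ i₀ * U - blk θ i₀)) :=
    ((hU'.mul tendsto_const_nhds).mul hlim).sub tendsto_const_nhds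
  have hY : Tendsto (fun k => l1 ((u (φ k) : Mx n)ᴴ * blk θ i₀ * (u (φ k) : Mx n) - blk θ i₀))
      atTop (𝓝 (l1 (Uᴴ * blk θ i₀ * U - blk θ i₀))) := (hl1c.tendsto _).comp hX
  have hle : ε ≤ l1 (Uᴴ * blk θ i₀ * U - blk θ i₀) :=
    ge_of_tendsto' hY fun k => (hlt (φ k)).le
  rw [hz] at hle
  have h0 : l1 (0 : Mx n) = 0 := by
    unfold l1
    simp
  rw [h0] at hle
  exact absurd hle (not_le.2 hε)

/-- `dgr x * blk θ i₀ = x i₀ * blk θ i₀` if `x` has the pattern of `θ`. -/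
theorem mJ2_dgr_blk {x θ : Fin n → ℝ} (h : SamePat x θ) (i₀ : Fin n) :
    dgr x * blk θ i₀ = (x i₀ : ℂ) • blk θ i₀ := by
  classical
  unfold dgr blk
  rw [Matrix.diagonal_mul_diagonal, ← Matrix.diagonal_smul]
  congr 1
  funext i
  simp only [Pi.smul_apply, smul_eq_mul]
  by_cases hi : θ i = θ i₀
  · rw [(h i i₀).2 hi]
  · rw [if_neg hi, mul_zero, mul_zero]

theorem mJ2_blk_idem (θ : Fin n → ℝ) (i₀ : Fin n) : blk θ i₀ * blk θ i₀ = blk θ i₀ := by
  classical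
  unfold blk
  rw [Matrix.diagonal_mul_diagonal]
  congr 1
  funext i
  split_ifs <;> simp

/-- The spectral projection `P = u^* (blk θ i₀) u` of `A`, where `u` is given by `exists_evs`. -/
theorem specProj {θ : Fin n → ℝ} (hθ : Antitone θ) (i₀ : Fin n) {ε : ℝ} (hε : 0 < ε) :
    ∃ δ > 0, ∀ A : Mx n, A.IsHermitian → SamePat (evs A) θ → l1 (A - dgr θ) ≤ δ →
      ∃ P : Mx n, l1 (P - blk θ i₀) ≤ ε ∧ (A - (evs A i₀ : ℂ) • 1) * P = 0 ∧ P * P = P ∧
        ∀ B : Mx n, A * B = B * A → P * B = B * P := by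
  obtain ⟨δ, hδ, hnear⟩ := near_blk hθ i₀ hε
  refine ⟨δ, hδ, fun A hA hpat hAδ => ?_⟩
  obtain ⟨u, hu, he⟩ := exists_evs hA
  have h1 : (u : Mx n)ᴴ * (u : Mx n) = 1 := mA_ct_mul hu
  have h2 : (u : Mx n) * (u : Mx n)ᴴ = 1 := mA_mul_ct hu
  have hnr := hnear A hA hAδ u hu he
  generalize (u : Mx n) = U at he h1 h2 hnr
  have hUA : U * A = dgr (evs A) * U := by
    rw [← he, Matrix.mul_assoc (U * A), h1, Matrix.mul_one]
  have hAU : A * Uᴴ = Uᴴ * dgr (evs A) := by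
    rw [← he, ← Matrix.mul_assoc, ← Matrix.mul_assoc, h1, Matrix.one_mul]
  refine ⟨Uᴴ * blk θ i₀ * U, hnr, ?_, ?_, ?_⟩
  · have h3 : A * (Uᴴ * blk θ i₀ * U) = (evs A i₀ : ℂ) • (Uᴴ * blk θ i₀ * U) := by
      rw [← Matrix.mul_assoc, ← Matrix.mul_assoc, hAU, Matrix.mul_assoc Uᴴ,
        mJ2_dgr_blk hpat, Matrix.mul_smul, Matrix.smul_mul]
    rw [Matrix.sub_mul, h3, Matrix.smul_mul, Matrix.one_mul, sub_self]
  · calc Uᴴ * blk θ i₀ * U * (Uᴴ * blk θ i₀ * U)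
        = Uᴴ * (blk θ i₀ * (U * Uᴴ) * blk θ i₀) * U := by simp only [Matrix.mul_assoc]
      _ = Uᴴ * blk θ i₀ * U := by rw [h2, Matrix.mul_one, mJ2_blk_idem]
  · intro B hB
    have h4 : (U * B * Uᴴ) * dgr (evs A) = dgr (evs A) * (U * B * Uᴴ) := by
      calc (U * B * Uᴴ) * dgr (evs A) = U * B * (Uᴴ * dgr (evs A)) := by
            simp only [Matrix.mul_assoc]
        _ = U * (B * A) * Uᴴ := by rw [← hAU]; simp only [Matrix.mul_assoc]
        _ = U * A * (B * Uᴴ) := by rw [← hB]; simp only [Matrix.mul_assoc]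
        _ = dgr (evs A) * (U * B * Uᴴ) := by rw [hUA]; simp only [Matrix.mul_assoc]
    have h5 : (U * B * Uᴴ) * blk θ i₀ = blk θ i₀ * (U * B * Uᴴ) := by
      refine comm_blk (θ := θ) (W := U * B * Uᴴ) (fun i j hij => comm_dgr h4 ?_) i₀
      exact fun hx => hij ((hpat i j).1 hx)
    have h6 : Uᴴ * (blk θ i₀ * (U * B * Uᴴ)) * U = Uᴴ * blk θ i₀ * U * B := by
      calc Uᴴ * (blk θ i₀ * (U * B * Uᴴ)) * U = Uᴴ * blk θ i₀ * U * B * (Uᴴ * U) := by
            simp only [Matrix.mul_assoc]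
        _ = Uᴴ * blk θ i₀ * U * B := by rw [h1, Matrix.mul_one]
    have h7 : Uᴴ * ((U * B * Uᴴ) * blk θ i₀) * U = B * (Uᴴ * blk θ i₀ * U) := by
      calc Uᴴ * ((U * B * Uᴴ) * blk θ i₀) * U = (Uᴴ * U) * B * (Uᴴ * blk θ i₀ * U) := by
            simp only [Matrix.mul_assoc]
        _ = B * (Uᴴ * blk θ i₀ * U) := by rw [h1, Matrix.one_mul]
    rw [← h6, ← h7, h5]

end Pool.Agent.SG
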