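import Pool.Agent.H.MP_e23cd6_ag.SG.M.G3
import Pool.Agent.H.MP_e23cd6_ag.SG.M.J3

/-!
# Block M: the slice theorem (7.4)
-/

set_option autoImplicit false

open Matrix Topology Filter

namespace Pool.Agent.SG

variable {n : ℕ}

/-- The group of the matrices `1 + Z`, where `Z` is strictly block upper triangular. -/
def NI (θ : Fin n → ℝ) : Set (Gp n) :=
  {b | ∀ i j, (b : Mx n) i j ≠ (1 : Mx n) i j → i < j ∧ θ j < θ i}

theorem NI_one (θ : Fin n → ℝ) : (1 : Gp n) ∈ NI θ := by
  intro i j h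
  exact absurd rfl h

theorem NI_mul {θ : Fin n → ℝ} {b b' : Gp n} (hb : b ∈ NI θ)
    (hb' : b' ∈ NI θ) : b * b' ∈ NI θ := by
  intro i j h
  by_contra hn
  apply h
  have h1 : ∀ k, (b : Mx n) i k * (b' : Mx n) k j = (1 : Mx n) i k * (1 : Mx n) k j := by
    intro k
    by_cases h2 : (b : Mx n) i k = (1 : Mx n) i k
    · by_cases h3 : (b' : Mx n) k j = (1 : Mx n) k j
      · rw [h2, h3]
      · obtain ⟨h4, h5⟩ := hb' k j h3
        rw [h2]
        by_cases h6 : i = k
        · subst h6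
          exact absurd ⟨h4, h5⟩ hn
        · rw [Matrix.one_apply_ne h6, zero_mul, zero_mul]
    · obtain ⟨h4, h5⟩ := hb i k h2
      by_cases h3 : (b' : Mx n) k j = (1 : Mx n) k j
      · rw [h3]
        by_cases h6 : k = j
        · subst h6
          exact absurd ⟨h4, h5⟩ hn
        · rw [Matrix.one_apply_ne h6, mul_zero, mul_zero]
      · obtain ⟨h6, h7⟩ := hb' k j h3
        exact absurd ⟨h4.trans h6, h7.trans h5⟩ hn
  rw [coe_gmul, Matrix.mul_apply, Finset.sum_congr rfl fun k _ => h1 k, ← Matrix.mul_apply,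
    Matrix.one_mul]

theorem NI_isB {θ : Fin n → ℝ} {b : Gp n} (hb : b ∈ NI θ) : IsB b := by
  intro i j h
  by_contra hn
  have h1 : (b : Mx n) i j ≠ (1 : Mx n) i j := by
    rw [Matrix.one_apply_ne h.ne']
    exact hn
  exact absurd (hb i j h1).1 (not_lt.2 h.le)

/-- The diagonal entries are `1`: `hw_isB`. -/
theorem NI_hw {θ : Fin n → ℝ} {b : Gp n} (hb : b ∈ NI θ) (i : Fin n) : hw b i = 0 := by
  rw [hw_isB (NI_isB hb)]
  have h1 : (b : Mx n) i i = 1 := by
    by_contra hn
    have h2 : (b : Mx n) i i ≠ (1 : Mx n) i i := by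
      rw [Matrix.one_apply_eq]
      exact hn
    exact lt_irrefl _ (hb i i h2).1
  rw [h1, norm_one, Real.log_one]

theorem NI_el {θ : Fin n → ℝ} {i j : Fin n} (hij : i < j) (h : θ j < θ i) (z : ℂ) :
    el hij.ne z ∈ NI θ := by
  intro a b hab
  have h1 : (el hij.ne z : Mx n) = 1 + Matrix.single i j z := rfl
  rw [h1, Matrix.add_apply] at hab
  by_cases h2 : i = a ∧ j = b
  · obtain ⟨rfl, rfl⟩ := h2
    exact ⟨hij, h⟩
  · rw [Matrix.single_apply, if_neg h2, add_zero] at hab
    exact absurd rfl hab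

theorem NI_closed (θ : Fin n → ℝ) : IsClosed (NI θ) := by
  have h1 : NI θ = ⋂ i : Fin n, ⋂ j : Fin n,
      {b : Gp n | (b : Mx n) i j ≠ (1 : Mx n) i j → i < j ∧ θ j < θ i} := by
    ext b
    simp only [Set.mem_iInter]
    rfl
  rw [h1]
  refine isClosed_iInter fun i => isClosed_iInter fun j => ?_
  by_cases h2 : i < j ∧ θ j < θ i
  · have h3 : {b : Gp n | (b : Mx n) i j ≠ (1 : Mx n) i j → i < j ∧ θ j < θ i} = Set.univ :=
      Set.eq_univ_of_forall fun b _ => h2
    rw [h3]
    exact isClosed_univ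
  · have h3 : {b : Gp n | (b : Mx n) i j ≠ (1 : Mx n) i j → i < j ∧ θ j < θ i} =
        {b : Gp n | (b : Mx n) i j = (1 : Mx n) i j} := by
      ext b
      constructor
      · intro h4
        by_contra h5
        exact h2 (h4 h5)
      · intro h4 h5
        exact absurd h4 h5
    rw [h3]
    exact isClosed_eq (continuous_subtype_val.matrix_elem i j) continuous_const

/-- The distance to `1`: the maximum of the entries of `b - 1`; the set is closed and `sz` is
bounded on it (`sz_compact`). -/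
theorem NI_ball_compact (θ : Fin n → ℝ) (r : ℝ) :
    IsCompact {b : Gp n | b ∈ NI θ ∧ dst b ≤ r} := by
  have hK : IsCompact (Set.pi Set.univ fun _ : Fin n => Set.pi Set.univ fun _ : Fin n =>
      Metric.closedBall (0 : ℂ) (r + 1)) :=
    isCompact_univ_pi fun i => isCompact_univ_pi fun j => isCompact_closedBall 0 _
  have hc : IsClosedEmbedding (fun g : Gp n => (g : Matrix (Fin n) (Fin n) ℂ)) :=
    Matrix.SpecialLinearGroup.isClosedEmbedding_val
  refine (hc.isCompact_preimage hK).of_isClosed_subset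
    ((NI_closed θ).inter (isClosed_le continuous_dst continuous_const)) ?_
  intro b hb i _ j _
  rw [mem_closedBall_zero_iff]
  have h1 := entry_le_dst b i j
  have h2 : ‖(1 : Mx n) i j‖ ≤ 1 := by
    rw [Matrix.one_apply]
    split_ifs
    · rw [norm_one]
    · rw [norm_zero]
      exact zero_le_one
  have h3 : (b : Mx n) i j = ((b : Mx n) i j - (1 : Mx n) i j) + (1 : Mx n) i j := by ring
  have h4 : ‖(b : Mx n) i j‖ ≤ r + 1 := by
    rw [h3]
    exact (norm_add_le _ _).trans (add_le_add (h1.trans hb.2) h2)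
  exact h4

theorem mK_ex_block {θ : Fin n → ℝ} {u : Gp n} (hu : u ∈ SU n) {H : aa n}
    (hd : ∀ i j, θ i ≠ θ j → cj u H i j = 0) (z : ℂ) (i j : Fin n) (hij : θ i ≠ θ j) :
    (ex u H z : Mx n) i j = 0 := by
  have h1 := mA_ct_mul hu
  have h2 := mA_mul_ct hu
  obtain ⟨D, hD⟩ : ∃ D : Mx n, D = Matrix.diagonal (fun i => (θ i : ℂ)) := ⟨_, rfl⟩
  obtain ⟨K, hK⟩ : ∃ K : Mx n, K = Matrix.diagonal (fun i => (H.1 i : ℂ)) := ⟨_, rfl⟩
  obtain ⟨E, hE⟩ : ∃ E : Mx n, E = Matrix.diagonal (fun j => Complex.exp (z * H.1 j)) := ⟨_, rfl⟩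
  obtain ⟨U, hU⟩ : ∃ U : Mx n, U = (u : Mx n) := ⟨_, rfl⟩
  rw [← hU] at h1 h2
  have hcj : cj u H = Uᴴ * K * U := by
    unfold cj
    rw [hU, hK]
  have hex : (ex u H z : Mx n) = Uᴴ * E * U := by
    rw [coe_ex hu, hU, hE]
  have h3 : D * (Uᴴ * K * U) = (Uᴴ * K * U) * D := by
    rw [← hcj]
    ext a b
    rw [hD, Matrix.diagonal_mul, Matrix.mul_diagonal]
    by_cases hab : θ a = θ b
    · rw [hab, mul_comm]
    · rw [hd a b hab, mul_zero, zero_mul]
  have h4 : (U * D * Uᴴ) * K = K * (U * D * Uᴴ) := by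
    have e1 : (U * D * Uᴴ) * K = U * (D * (Uᴴ * K * U)) * Uᴴ := by
      have e2 : U * (D * (Uᴴ * K * U)) * Uᴴ = U * D * Uᴴ * K * (U * Uᴴ) := by
        simp only [Matrix.mul_assoc]
      rw [e2, h2, Matrix.mul_one]
    have e3 : U * ((Uᴴ * K * U) * D) * Uᴴ = K * (U * D * Uᴴ) := by
      have e4 : U * ((Uᴴ * K * U) * D) * Uᴴ = (U * Uᴴ) * K * (U * D * Uᴴ) := by
        simp only [Matrix.mul_assoc]
      rw [e4, h2, Matrix.one_mul]
    rw [e1, h3, e3]
  have h5 : (U * D * Uᴴ) * E = E * (U * D * Uᴴ) := by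
    ext a b
    have h6 := congrFun (congrFun h4 a) b
    rw [hK, Matrix.mul_diagonal, Matrix.diagonal_mul] at h6
    rw [hE, Matrix.mul_diagonal, Matrix.diagonal_mul]
    by_cases h7 : (U * D * Uᴴ) a b = 0
    · rw [h7, zero_mul, mul_zero]
    · have h8 : (H.1 b : ℂ) = (H.1 a : ℂ) := by
        rw [mul_comm] at h6
        exact mul_right_cancel₀ h7 h6
      rw [h8, mul_comm]
  have h6 : D * (Uᴴ * E * U) = (Uᴴ * E * U) * D := by
    have e1 : D * (Uᴴ * E * U) = Uᴴ * ((U * D * Uᴴ) * E) * U := by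
      have e2 : Uᴴ * ((U * D * Uᴴ) * E) * U = (Uᴴ * U) * D * Uᴴ * E * U := by
        simp only [Matrix.mul_assoc]
      rw [e2, h1, Matrix.one_mul]
      simp only [Matrix.mul_assoc]
    have e3 : Uᴴ * (E * (U * D * Uᴴ)) * U = (Uᴴ * E * U) * D := by
      have e4 : Uᴴ * (E * (U * D * Uᴴ)) * U = Uᴴ * E * U * D * (Uᴴ * U) := by
        simp only [Matrix.mul_assoc]
      rw [e4, h1, Matrix.mul_one]
    rw [e1, h5, e3]
  have h7 := congrFun (congrFun h6 i) j
  rw [hD, Matrix.diagonal_mul, Matrix.mul_diagonal] at h7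
  rw [hex]
  by_contra h8
  rw [mul_comm] at h7
  have h9 := mul_left_cancel₀ h8 h7
  exact hij (Complex.ofReal_injective h9)

/-- Let `b` be in `NI θ` with `b = k * ex u H 1`, `k` in `SU n`, and let `cj u H` be block diagonal.
Then `b = 1`. Proof: `cj u H` commutes with `dgr θ`, so `e = ex u H 1` is block diagonal: for
`W = u (dgr θ) u^*` we have `W_ij (H_j - H_i) = 0`, so `W` commutes with
`diagonal (exp H_j)` (`coe_ex`). The same holds for `e⁻¹ = ex u H (-1)`. So `k = b * e⁻¹` is block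
upper triangular (`k i j = 0` for `θ i < θ j`), and so is `k⁻¹ = kᴴ`
(`Matrix.blockTriangular_inv_of_blockTriangular` for `OrderDual.toDual ∘ θ`). Hence `k` is block
diagonal and so is `b = k * e`. -/
theorem NI_unitary {θ : Fin n → ℝ} {b k u : Gp n} (hb : b ∈ NI θ)
    (hk : k ∈ SU n) (hu : u ∈ SU n) {H : aa n} (h : b = k * ex u H 1)
    (hd : ∀ i j, θ i ≠ θ j → cj u H i j = 0) : b = 1 := by
  have he : ∀ z : ℂ, ∀ i j, θ i ≠ θ j → (ex u H z : Mx n) i j = 0 := mK_ex_block hu hd
  have hku : ∀ i j, θ i < θ j → (k : Mx n) i j = 0 := by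
    intro i j hij
    have h1 : k = b * ex u H (-1) := by
      rw [h, mul_assoc, ← ex_add]
      norm_num [ex_zero]
    rw [h1, coe_gmul, Matrix.mul_apply]
    refine Finset.sum_eq_zero fun l _ => ?_
    by_cases h2 : θ l = θ j
    · have h3 : (b : Mx n) i l = 0 := by
        by_contra h4
        have h5 : i ≠ l := by
          rintro rfl
          exact hij.ne h2
        have h6 : (b : Mx n) i l ≠ (1 : Mx n) i l := by
          rw [Matrix.one_apply_ne h5]
          exact h4
        have h7 := (hb i l h6).2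
        rw [h2] at h7
        exact absurd h7 (not_lt.2 hij.le)
      rw [h3, zero_mul]
    · rw [he (-1) l j h2, mul_zero]
  have hkl : ∀ i j, θ j < θ i → (k : Mx n) i j = 0 := by
    intro i j hij
    have h1 : Matrix.BlockTriangular (k : Mx n) (OrderDual.toDual ∘ θ) := by
      intro a c hac
      exact hku a c hac
    have h2 : (k : Mx n)⁻¹ = (k : Mx n)ᴴ := Matrix.inv_eq_left_inv (mA_ct_mul hk)
    have h3 : Invertible (k : Mx n) := invertibleOfLeftInverse _ _ (mA_ct_mul hk)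
    have h4 := Matrix.blockTriangular_inv_of_blockTriangular h1
    rw [h2] at h4
    have h5 : (k : Mx n)ᴴ j i = 0 := h4 hij
    rw [Matrix.conjTranspose_apply] at h5
    exact star_eq_zero.1 h5
  have hk0 : ∀ i j, θ i ≠ θ j → (k : Mx n) i j = 0 := by
    intro i j hij
    rcases lt_or_gt_of_ne hij with h1 | h1
    · exact hku i j h1
    · exact hkl i j h1
  have hb0 : ∀ i j, θ i ≠ θ j → (b : Mx n) i j = 0 := by
    intro i j hij
    rw [h, coe_gmul, Matrix.mul_apply]
    refine Finset.sum_eq_zero fun l _ => ?_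
    by_cases h1 : θ i = θ l
    · rw [he 1 l j (by rw [← h1]; exact hij), mul_zero]
    · rw [hk0 i l h1, zero_mul]
  apply gp_ext
  ext i j
  by_contra h1
  obtain ⟨h2, h3⟩ := hb i j h1
  apply h1
  rw [hb0 i j h3.ne', coe_gone, Matrix.one_apply_ne h2.ne]

section rep

variable {ι : Type} [Fintype ι] [DecidableEq ι] (R : Rep n ι)

/-- At a point with diagonal moment map the only minimum on `NI θ` is `1`: `J0_nonneg`, `J0_eq`,
`J0_SU`, `polar`, `NI_hw`, `NI_unitary`. -/
theorem NI_pos {θ : Fin n → ℝ} (hθ : Antitone θ) {v : ι → ℂ} (hv : v ≠ 0)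
    (hm : mom R v = -dgr θ) {b : Gp n} (hb : b ∈ NI θ) (h1 : b ≠ 1) : 0 < lgv R v b := by
  have hJ : J0 R θ v b = lgv R v b := by
    unfold J0
    have h2 : ∑ i, θ i * hw b i = 0 :=
      Finset.sum_eq_zero fun i _ => by rw [NI_hw hb i, mul_zero]
    rw [h2, add_zero]
  by_contra hn
  have h3 : J0 R θ v b ≤ 0 := by
    rw [hJ]
    exact not_lt.1 hn
  obtain ⟨k, hk, u, hu, H, he⟩ := polar b
  have h4 : J0 R θ v (ex u H 1) ≤ 0 := by
    rw [← J0_SU R θ v hk, ← he]
    exact h3
  exact h1 (NI_unitary hb hk hu he (J0_eq R hθ hv hm hu H h4).2)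

/-- At a relative minimum of `lgv R v` on `NI θ` the moment map is block diagonal.
Proof: put `w = R.act b₁ v`. For `i < j` with `θ j < θ i` and `z` in `ℂ`, the function
`s ↦ lgv R v (el h (s z) * b₁) = lgv R w (el h (s z)) + lgv R v b₁` has a relative minimum at `0`, so
by `hasDeriv_lgv` and `hasD_rho_el` the real part of `z (mom w) j i` is zero; take `z = 1`,
`z = -Complex.I`. The matrix `mom w` is Hermitian. -/
theorem mom_block {θ : Fin n → ℝ} (hθ : Antitone θ) {v : ι → ℂ} (hv : v ≠ 0) {b₁ : Gp n}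
    (h : ∀ i j (hij : i < j), θ j < θ i → ∀ z : ℂ,
      ∀ᶠ s : ℝ in 𝓝 0, lgv R v b₁ ≤ lgv R v (el hij.ne (s * z) * b₁)) (i j : Fin n)
    (hij : θ i ≠ θ j) : mom R (R.act b₁ v) i j = 0 := by
  have hw0 : R.act b₁ v ≠ 0 := act_ne R hv b₁
  have key : ∀ i j (hij : i < j), θ j < θ i → mom R (R.act b₁ v) j i = 0 := by
    intro i j hij hlt
    have h1 : ∀ z : ℂ, (z * mom R (R.act b₁ v) j i).re = 0 := by
      intro z
      have hel0 : el hij.ne (((0 : ℝ) : ℂ) * z) = 1 := by
        apply gp_ext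
        show Matrix.transvection i j (((0 : ℝ) : ℂ) * z) = 1
        rw [Complex.ofReal_zero, zero_mul, Matrix.transvection_zero]
      have h2 := hasDeriv_lgv R hw0 (γ := fun s : ℝ => el hij.ne ((s : ℂ) * z)) hel0
        (hasD_rho_el R hij.ne z)
      have h3 : IsLocalMin (fun s : ℝ => lgv R (R.act b₁ v) (el hij.ne ((s : ℂ) * z))) 0 := by
        filter_upwards [h i j hij hlt z] with s hs
        rw [lgv_mul] at hs
        rw [hel0, lgv_one]
        linarith
      have h4 := h3.hasDerivAt_eq_zero h2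
      have h5 : (z • Matrix.single i j (1 : ℂ) * mom R (R.act b₁ v)).trace =
          z * mom R (R.act b₁ v) j i := by
        rw [Matrix.smul_mul, Matrix.trace_smul, Matrix.trace_single_mul, smul_eq_mul]
        simp
      rw [h5] at h4
      exact h4
    apply Complex.ext
    · have h2 := h1 1
      rw [one_mul] at h2
      exact h2
    · have h2 := h1 (-Complex.I)
      simpa using h2
  rcases lt_trichotomy i j with h1 | h1 | h1
  · have h2 : θ j < θ i := lt_of_le_of_ne (hθ h1.le) (Ne.symm hij)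
    have h3 := key i j h1 h2
    have h4 := (mom_HT R (R.act b₁ v)).1.apply i j
    rw [← h4, h3, star_zero]
  · exact absurd (congrArg θ h1) hij
  · exact key j i h1 (lt_of_le_of_ne (hθ h1.le) hij)

end rep

end Pool.Agent.SG
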