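import Pool.Agent.H.MP_e23cd6_ag.SG.M.K

/-!
# Block M: the slice theorem (7.4)
-/

set_option autoImplicit false

open Matrix Topology Filter

namespace Pool.Agent.SG

variable {n : ℕ}

/-- Small neighbourhoods of `1` (the topology is induced by the entries). -/
theorem nhds_dst {V : Set (Gp n)} (hV : V ∈ 𝓝 (1 : Gp n)) :
    ∃ r > (0 : ℝ), ∀ b : Gp n, dst b ≤ r → b ∈ V := by
  have h1 := (Matrix.SpecialLinearGroup.isClosedEmbedding_val
    (n := Fin n) (R := ℂ)).isInducing.nhds_eq_comap (1 : Gp n)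
  obtain ⟨W, hW, hWV⟩ := Filter.mem_comap.1 (h1.ge hV)
  have hF : Continuous (fun h : Fin n → Fin n → ℂ => (1 : Mx n) + Matrix.of h) :=
    continuous_const.add continuous_id
  have h2 : (fun h : Fin n → Fin n → ℂ => (1 : Mx n) + Matrix.of h) ⁻¹' W ∈
      𝓝 (0 : Fin n → Fin n → ℂ) := by
    refine hF.continuousAt.preimage_mem_nhds ?_
    have e : (1 : Mx n) + Matrix.of (0 : Fin n → Fin n → ℂ) = 1 := by
      ext i j
      simp
    rw [e]
    exact hW
  obtain ⟨ε, hε, hball⟩ := Metric.mem_nhds_iff.1 h2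
  refine ⟨ε / 2, by positivity, fun b hb => hWV ?_⟩
  have h3 : (fun i : Fin n => fun j : Fin n => (b : Mx n) i j - (1 : Mx n) i j) ∈
      Metric.ball (0 : Fin n → Fin n → ℂ) ε := by
    rw [mem_ball_zero_iff]
    exact lt_of_le_of_lt hb (by linarith)
  have h4 := hball h3
  have e : (1 : Mx n) + Matrix.of (fun i : Fin n => fun j : Fin n =>
      (b : Mx n) i j - (1 : Mx n) i j) = (b : Mx n) := by
    ext i j
    simp
  have h5 : (1 : Mx n) + Matrix.of (fun i : Fin n => fun j : Fin n =>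
      (b : Mx n) i j - (1 : Mx n) i j) ∈ W := h4
  rw [e] at h5
  exact h5

theorem mK2_dst_one : dst (1 : Gp n) = 0 := by
  unfold dst
  rw [norm_eq_zero]
  funext i j
  simp

theorem mK2_el_cont {i j : Fin n} (h : i ≠ j) (z : ℂ) :
    Continuous fun s : ℝ => el h ((s : ℂ) * z) := by
  have h1 : Continuous fun s : ℝ => uu i j h ((s : ℂ) * z) :=
    (continuous_uu i j h).comp (Complex.continuous_ofReal.mul continuous_const)
  exact h1

theorem mK2_el_zero {i j : Fin n} (h : i ≠ j) : el h 0 = 1 := uu_zero i j h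

theorem mK2_near {i j : Fin n} (h : i ≠ j) (z : ℂ) {b : Gp n} {r : ℝ} (hb : dst b < r) :
    ∀ᶠ s : ℝ in 𝓝 0, dst (el h ((s : ℂ) * z) * b) ≤ r := by
  have hc : Continuous fun s : ℝ => el h ((s : ℂ) * z) * b :=
    (mK2_el_cont h z).mul continuous_const
  obtain ⟨E, hE⟩ : ∃ E : ℝ → Gp n, E = fun s : ℝ => el h ((s : ℂ) * z) * b := ⟨_, rfl⟩
  have hE0 : E 0 = b := by
    rw [hE]
    show el h (((0 : ℝ) : ℂ) * z) * b = b
    rw [Complex.ofReal_zero, zero_mul, mK2_el_zero, one_mul]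
  rw [← hE] at hc
  have hd : ContinuousAt (dst ∘ E) 0 := (continuous_dst.comp hc).continuousAt
  have hd0 : (dst ∘ E) 0 < r := by
    rw [Function.comp_apply, hE0]
    exact hb
  filter_upwards [hd.eventually (gt_mem_nhds hd0)] with s hs
  have h1 : dst (E s) < r := hs
  rw [hE] at h1
  exact h1.le

theorem mK2_lg {X : Type} [TopologicalSpace X] {act : Gp n → X → X} (D : PDat n X act) (g : Gp n)
    (y : X) : D.lg g y = lgv D.R (D.v y) g := rfl

/-- (7.4) The slice theorem. Proof: choose `r > 0` and `O₂` in `𝓝 y₀` with `act b y ∈ O` for all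
`b` in `K = {b ∈ NI θ | dst b ≤ r}` and `y` in `O₂` (continuity of the action at `(1, y₀)`, and
`dst b` small implies `b` near `1`). Let `m > 0` be the minimum of `lg b y₀` on
the compact set `{b ∈ K | dst b = r}` (`NI_pos`; `m = 1` if it is empty). By compactness of `K`
(`IsCompact`, `PDat.continuous_lg`, tube lemma) `lg b y > m / 2` on `{b ∈ K | dst b = r}` for all
`y` near `y₀`. Let `b₁` be a minimum point of `lg · y` on `K`; since `lg 1 y = 0`, `dst b₁ < r`;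
so for small `s`, `el h (s z) * b₁` is in `K`, and `mom_block` applies; `PDat.mom_act`. -/
theorem slice {X : Type} [TopologicalSpace X] {act : Gp n → X → X} (one : ∀ y, act 1 y = y)
    (cont : Continuous fun w : Gp n × X => act w.1 w.2) (D : PDat n X act) {θ : Fin n → ℝ}
    (hθ : Antitone θ) {y₀ : X} (hm : mom D.R (D.v y₀) = -dgr θ) {O : Set X} (hO : O ∈ 𝓝 y₀) :
    ∃ O₁ ∈ 𝓝 y₀, ∀ y ∈ O₁, ∃ b : Gp n, IsB b ∧ act b y ∈ O ∧
      ∀ i j, θ i ≠ θ j → mom D.R (D.v (act b y)) i j = 0 := by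
  -- the neighbourhoods
  have h1 : (fun w : Gp n × X => act w.1 w.2) ⁻¹' O ∈ 𝓝 ((1 : Gp n), y₀) :=
    cont.continuousAt.preimage_mem_nhds (by
      show O ∈ 𝓝 (act 1 y₀)
      rw [one]
      exact hO)
  obtain ⟨V, hV, O₂, hO₂, hVO⟩ := mem_nhds_prod_iff.1 h1
  obtain ⟨r, hr, hrV⟩ := nhds_dst hV
  -- the compact sets
  have hK := NI_ball_compact θ r
  have hS : IsCompact ({b : Gp n | b ∈ NI θ ∧ dst b ≤ r} ∩ {b | dst b = r}) :=
    hK.inter_right (isClosed_eq continuous_dst continuous_const)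
  obtain ⟨F, hF⟩ : ∃ F : Gp n × X → ℝ, ∀ g y, F (g, y) = lgv D.R (D.v y) g :=
    ⟨fun w => lgv D.R (D.v w.2) w.1, fun _ _ => rfl⟩
  have hlg : Continuous F := by
    have h2 : Continuous fun w : Gp n × X => D.lg w.1 w.2 := D.continuous_lg
    have h3 : F = fun w : Gp n × X => D.lg w.1 w.2 := by
      funext w
      rw [mK2_lg, ← hF]
    rw [h3]
    exact h2
  have hopen : IsOpen {w : Gp n × X | 0 < F w} := isOpen_lt continuous_const hlg
  have hsub : ({b : Gp n | b ∈ NI θ ∧ dst b ≤ r} ∩ {b | dst b = r}) ×ˢ {y₀} ⊆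
      {w : Gp n × X | 0 < F w} := by
    rintro ⟨b, y⟩ ⟨⟨⟨hb1, hb2⟩, hb3⟩, hy⟩
    rw [Set.mem_singleton_iff] at hy
    simp only at hy hb1 hb2 hb3
    subst hy
    have hb3' : dst b = r := hb3
    show 0 < F (b, y)
    rw [hF]
    refine NI_pos D.R hθ (D.ne y) hm hb1 ?_
    rintro rfl
    rw [mK2_dst_one] at hb3'
    exact hr.ne hb3'
  obtain ⟨u, O₃, -, hO₃, hu, hy₀, huO⟩ := generalized_tube_lemma hS isCompact_singleton hopen hsub
  have hO₃' : O₃ ∈ 𝓝 y₀ := hO₃.mem_nhds (hy₀ rfl)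
  refine ⟨O₂ ∩ O₃, inter_mem hO₂ hO₃', fun y hy => ?_⟩
  have hpair : Continuous fun b : Gp n => (b, y) := by fun_prop
  have hcy : Continuous (F ∘ fun b : Gp n => (b, y)) := hlg.comp hpair
  have hone : (1 : Gp n) ∈ {b : Gp n | b ∈ NI θ ∧ dst b ≤ r} :=
    ⟨NI_one θ, by rw [mK2_dst_one]; exact hr.le⟩
  obtain ⟨b₁, hb₁, hmin⟩ := hK.exists_isMinOn ⟨1, hone⟩ hcy.continuousOn
  have hmin' : ∀ b ∈ {b : Gp n | b ∈ NI θ ∧ dst b ≤ r}, F (b₁, y) ≤ F (b, y) :=
    fun b hb => isMinOn_iff.1 hmin b hb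
  have hle : F (b₁, y) ≤ 0 := by
    have h3 := hmin' 1 hone
    rw [hF 1 y, lgv_one] at h3
    exact h3
  have hlt : dst b₁ < r := by
    refine lt_of_le_of_ne hb₁.2 fun h => ?_
    have h2 : b₁ ∈ {b : Gp n | b ∈ NI θ ∧ dst b ≤ r} ∩ {b | dst b = r} := Set.mem_inter hb₁ h
    have h3 : 0 < F (b₁, y) := huO (Set.mk_mem_prod (hu h2) hy.2)
    linarith
  refine ⟨b₁, NI_isB hb₁.1, hVO (Set.mk_mem_prod (hrV b₁ hb₁.2) hy.1), ?_⟩
  intro i j hij
  rw [PDat.mom_act]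
  refine mom_block D.R hθ (D.ne y) (fun i j hij hθij z => ?_) i j hij
  have hd := mK2_near hij.ne z hlt
  filter_upwards [hd] with s hs
  have h2 : el hij.ne ((s : ℂ) * z) * b₁ ∈ {b : Gp n | b ∈ NI θ ∧ dst b ≤ r} :=
    ⟨NI_mul (NI_el hij hθij _) hb₁.1, hs⟩
  have h3 := hmin' _ h2
  rw [hF, hF] at h3
  exact h3

end Pool.Agent.SG
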